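import Pool.Agent.Helper9.S3X.A7a

/-!
# Project S3X, block A7b: local operators commute with uniformly continuous fields

ADAPT `Helper9/S3/A7b.lean`: replace `R.Ua` by `XUa μ R`, `R.Vp L` by `XVp μ R L`, `UP (L2 G)` by `UE μ (L2 G)`, `UP.map` by `UE.map μ`, `iU` by `iUX`, `Loc` by `LocX`, `loc_scalar` by `loc_scalarX` and so on (`Helper84/FR/XA.lean`, `XX.lean` contain the X versions of the lemmas of `Helper84/GN/SA.lean`, `SX.lean`; `xmap_mulF_zero`, `xcarrier`).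
-/

set_option autoImplicit false
set_option linter.unusedSectionVars false

open MeasureTheory Filter Topology

namespace Pool.Agent.Helper84.GN.S3.X

open NI GVN Pool.Agent.Helper90.RK
open Pool.Agent.Helper96.RK Pool.Agent.Helper66.FR Pool.Agent.Helper84.FR Pool.Agent.Helper55.FR

variable {G X : Type} [Group G] [MeasurableSpace X] {μ : Measure X} {R : Reg G} {pd : PD G}

variable {L : Type} [NormedAddCommGroup L] [InnerProductSpace ℂ L] [CompleteSpace L]

omit [Group G] in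
private theorem d_nonneg81 (pd : PD G) (γ γ' : G) : 0 ≤ pd.d γ γ' := by
  have h1 := pd.tri γ γ' γ
  rw [pd.self, pd.symm γ' γ] at h1
  linarith

omit [Group G] in
/-- A uniformly continuous partition of unity. -/
private theorem pou81 (pd : PD G) {δ : ℝ} (hδ : 0 < δ) : ∃ (F : Finset G) (f : G → G → ℝ),
    (∀ i γ, 0 ≤ f i γ) ∧ (∀ γ, ∑ i ∈ F, f i γ = 1) ∧ (∀ i γ, f i γ ≠ 0 → pd.d γ i < δ / 2) ∧
    ∀ i ∈ F, UC pd (fun γ => (f i γ : ℂ)) := by
  obtain ⟨F, hF⟩ := pd.tb (δ / 4) (by positivity)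
  let φ : G → G → ℝ := fun i γ => max (δ / 2 - pd.d γ i) 0
  let Φ : G → ℝ := fun γ => ∑ i ∈ F, φ i γ
  have hφ0 : ∀ i γ, 0 ≤ φ i γ := fun i γ => le_max_right _ _
  have hδ4 : 0 < δ / 4 := by positivity
  have hΦ : ∀ γ, δ / 4 ≤ Φ γ := by
    intro γ
    obtain ⟨i, hi, h⟩ := hF γ
    have h1 : φ i γ ≤ Φ γ := Finset.single_le_sum (f := fun j => φ j γ) (fun j _ => hφ0 j γ) hi
    have h2 : δ / 2 - pd.d γ i ≤ φ i γ := le_max_left _ _
    linarith
  have hΦ0 : ∀ γ, 0 < Φ γ := fun γ => lt_of_lt_of_le hδ4 (hΦ γ)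
  have hφL : ∀ i γ γ', |φ i γ - φ i γ'| ≤ pd.d γ γ' := by
    intro i γ γ'
    have h1 := abs_max_sub_max_le_abs (δ / 2 - pd.d γ i) (δ / 2 - pd.d γ' i) 0
    have h2 : |(δ / 2 - pd.d γ i) - (δ / 2 - pd.d γ' i)| ≤ pd.d γ γ' := by
      have h3 := pd.tri γ γ' i
      have h4 := pd.tri γ' γ i
      rw [pd.symm γ' γ] at h4
      rw [abs_le]
      constructor <;> linarith
    exact h1.trans h2
  have hΦL : ∀ γ γ', |Φ γ - Φ γ'| ≤ F.card * pd.d γ γ' := by
    intro γ γ'
    change |∑ i ∈ F, φ i γ - ∑ i ∈ F, φ i γ'| ≤ _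
    rw [← Finset.sum_sub_distrib]
    refine (Finset.abs_sum_le_sum_abs _ _).trans ?_
    refine (Finset.sum_le_card_nsmul _ _ _ fun i _ => hφL i γ γ').trans ?_
    rw [nsmul_eq_mul]
  refine ⟨F, fun i γ => φ i γ / Φ γ, ?_, ?_, ?_, ?_⟩
  · intro i γ
    exact div_nonneg (hφ0 i γ) (hΦ0 γ).le
  · intro γ
    rw [← Finset.sum_div]
    exact div_self (hΦ0 γ).ne'
  · intro i γ h
    by_contra hcon
    push Not at hcon
    apply h
    have h1 : φ i γ = 0 := max_eq_right (by linarith)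
    change φ i γ / Φ γ = 0
    rw [h1, zero_div]
  · intro i hi ε hε
    have hc : 0 < (1 + (F.card : ℝ)) / (δ / 4) := by positivity
    refine ⟨ε / ((1 + (F.card : ℝ)) / (δ / 4)), by positivity, fun γ γ' h => ?_⟩
    rw [← Complex.ofReal_sub, Complex.norm_real, Real.norm_eq_abs]
    have hd := d_nonneg81 pd γ γ'
    have h1 : φ i γ' / Φ γ' ≤ 1 := by
      rw [div_le_one (hΦ0 γ')]
      exact Finset.single_le_sum (f := fun j => φ j γ') (fun j _ => hφ0 j γ') hi
    have h1' : 0 ≤ φ i γ' / Φ γ' := div_nonneg (hφ0 i γ') (hΦ0 γ').le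
    have h2 : φ i γ / Φ γ - φ i γ' / Φ γ' =
        ((φ i γ - φ i γ') - (φ i γ' / Φ γ') * (Φ γ - Φ γ')) / Φ γ := by
      have h3 := (hΦ0 γ).ne'
      have h4 := (hΦ0 γ').ne'
      field_simp
      ring
    rw [h2, abs_div, abs_of_pos (hΦ0 γ)]
    have h5 : |(φ i γ - φ i γ') - (φ i γ' / Φ γ') * (Φ γ - Φ γ')| ≤
        (1 + (F.card : ℝ)) * pd.d γ γ' := by
      refine (abs_sub _ _).trans ?_
      rw [abs_mul, abs_of_nonneg h1']
      have h81 := hφL i γ γ'
      have h7 := hΦL γ γ'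
      have h8 : φ i γ' / Φ γ' * |Φ γ - Φ γ'| ≤ 1 * (F.card * pd.d γ γ') :=
        mul_le_mul h1 h7 (abs_nonneg _) zero_le_one
      linarith
    have h9 : (1 + (F.card : ℝ)) * pd.d γ γ' / Φ γ ≤ (1 + (F.card : ℝ)) * pd.d γ γ' / (δ / 4) :=
      div_le_div_of_nonneg_left (by positivity) hδ4 (hΦ γ)
    have h10 : (1 + (F.card : ℝ)) * pd.d γ γ' / (δ / 4) =
        (1 + (F.card : ℝ)) / (δ / 4) * pd.d γ γ' := by ring
    have h11 : (1 + (F.card : ℝ)) / (δ / 4) * pd.d γ γ' ≤ ε := by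
      rw [lt_div_iff₀ hc] at h
      linarith
    exact ((div_le_div_of_nonneg_right h5 (hΦ0 γ).le).trans h9).trans (h10 ▸ h11)

omit [Group G] in
private theorem mulop_apply81 {f : G → ℂ} {C : ℝ} (hC : ∀ γ, ‖f γ‖ ≤ C) (x : L2 G) (γ : G) :
    mulop f x γ = f γ * x γ := by
  unfold mulop
  rw [dg_apply (C := C) (fun i y => by
    rw [_root_.smul_apply, norm_smul]
    exact mul_le_mul_of_nonneg_right (hC i) (norm_nonneg _))]
  rfl

omit [Group G] [CompleteSpace L] in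
private theorem mulF_mulop81 {f : G → ℂ} {C : ℝ} (hC : ∀ γ, ‖f γ‖ ≤ C) (w : L) :
    (mulF fun _ => w).comp (mulop f) = mulF (fun γ => f γ • w) := by
  have h : ∀ γ, ‖f γ • w‖ ≤ C * ‖w‖ := fun γ => by
    rw [norm_smul]
    exact mul_le_mul_of_nonneg_right (hC γ) (norm_nonneg _)
  ext1 x
  apply lv_ext
  intro i
  rw [ContinuousLinearMap.comp_apply, mulF_apply (F := fun _ : G => w) (C := ‖w‖) (fun _ => le_rfl),
    mulF_apply h, mulop_apply81 hC, smul_smul, mul_comm]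

omit [Group G] [CompleteSpace L] in
private theorem dg_mulF81 {O : G → (L →L[ℂ] L)} {C : ℝ} (hC : ∀ γ x, ‖O γ x‖ ≤ C * ‖x‖) (w : L) :
    (dg O).comp (mulF fun _ => w) = mulF (fun γ => O γ w) := by
  ext1 x
  apply lv_ext
  intro i
  rw [ContinuousLinearMap.comp_apply, dg_apply hC,
    mulF_apply (F := fun _ : G => w) (C := ‖w‖) (fun _ => le_rfl),
    mulF_apply (F := fun γ => O γ w) (C := C * ‖w‖) (fun γ => hC γ w), map_smul]

omit [Group G] [CompleteSpace L] in
private theorem mulF_sum81 {F : Finset G} {E : G → G → L} {C : ℝ} (hC : ∀ i ∈ F, ∀ γ, ‖E i γ‖ ≤ C) :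
    ∑ i ∈ F, mulF (E i) = mulF (fun γ => ∑ i ∈ F, E i γ) := by
  have h : ∀ γ, ‖∑ i ∈ F, E i γ‖ ≤ ∑ _i ∈ F, C := fun γ =>
    (norm_sum_le _ _).trans (Finset.sum_le_sum fun i hi => hC i hi γ)
  ext1 x
  apply lv_ext
  intro j
  rw [_root_.sum_apply, lp.coeFn_sum, Finset.sum_apply, mulF_apply h, Finset.smul_sum]
  exact Finset.sum_congr rfl fun i hi => mulF_apply (hC i hi) x j

omit [Group G] [CompleteSpace L] in
private theorem mulF_sub81 {F F' : G → L} {C C' : ℝ} (hC : ∀ γ, ‖F γ‖ ≤ C)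
    (hC' : ∀ γ, ‖F' γ‖ ≤ C') : mulF F - mulF F' = mulF (fun i => F i - F' i) := by
  have h : ∀ γ, ‖F γ - F' γ‖ ≤ C + C' := fun γ => (norm_sub_le _ _).trans (add_le_add (hC γ) (hC' γ))
  ext1 x
  apply lv_ext
  intro i
  rw [_root_.sub_apply, lp.coeFn_sub, Pi.sub_apply, mulF_apply hC, mulF_apply hC',
    mulF_apply h, smul_sub]

omit [Group G] [CompleteSpace L] in
private theorem mulF_ind81 {F : G → L} {C : ℝ} (hC : ∀ γ, ‖F γ‖ ≤ C) (B : Set G) :
    (mulF F).comp (ind ℂ B) = mulF (B.indicator F) := by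
  classical
  have hC' : ∀ γ, ‖B.indicator F γ‖ ≤ C := by
    intro γ
    unfold Set.indicator
    split_ifs
    · exact hC γ
    · rw [norm_zero]
      exact (norm_nonneg _).trans (hC γ)
  ext1 x
  apply lv_ext
  intro i
  rw [ContinuousLinearMap.comp_apply, mulF_apply hC, mulF_apply hC', ind_apply]
  unfold Set.indicator
  by_cases h : i ∈ B <;> simp [h]

private theorem span_UaSet81 (R : Reg G) {c : UE μ (L2 G)} (hc : c ∈ Submodule.span ℂ (XUaSet μ R)) :
    c ∈ (XUaSet μ R) := by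
  have hmono : Monotone R.F := monotone_nat_of_le_succ R.monoF
  induction hc using Submodule.span_induction with
  | mem x hx => exact hx
  | zero => exact ⟨0, fun s _ => map_zero _⟩
  | add x y _ _ hx hy =>
    obtain ⟨n, hn⟩ := hx
    obtain ⟨m, hm⟩ := hy
    refine ⟨max n m, fun s hs => ?_⟩
    rw [map_add, hn s (hmono (le_max_left n m) hs), hm s (hmono (le_max_right n m) hs)]
  | smul a x _ hx =>
    obtain ⟨n, hn⟩ := hx
    exact ⟨n, fun s hs => by rw [map_smul, hn s hs]⟩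

private theorem approx81 (R : Reg G) (a : XUa μ R) {η : ℝ} (hη : 0 < η) :
    ∃ b : XUa μ R, (b : UE μ (L2 G)) ∈ (XUaSet μ R) ∧ ‖a - b‖ ≤ η := by
  have h1 : (a : UE μ (L2 G)) ∈ closure (Submodule.span ℂ (XUaSet μ R) : Set (UE μ (L2 G))) := a.2
  obtain ⟨c, hc, hac⟩ := Metric.mem_closure_iff.1 h1 η hη
  refine ⟨⟨c, Submodule.le_topologicalClosure _ hc⟩, span_UaSet81 R hc, ?_⟩
  rw [dist_eq_norm] at hac
  exact hac.le

theorem loc_fieldX (τ : Tens (XUa μ R) L (XVp μ R L)) (hτ : IsTX τ) {T : XUa μ R →L[ℂ] XUa μ R} (hT : LocX R pd T)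
    {O : G → (L →L[ℂ] L)} (hO : PCF R pd O) {C : ℝ} (hC : ∀ γ x, ‖O γ x‖ ≤ C * ‖x‖) (M : XVp μ R L →L[ℂ] XVp μ R L)
    (hM : ∀ x : XVp μ R L, ((M x : XVp μ R L) : UE μ (Lv G L)) = UE.map μ (dg O) (x : UE μ (Lv G L))) (x : XVp μ R L) :
    tm τ τ T (M x) = M (tm τ τ T x) := by
  classical
  have hmono : Monotone R.F := monotone_nat_of_le_succ R.monoF
  -- the case of elementary tensors
  have key : ∀ (b : XUa μ R) (w : L), (b : UE μ (L2 G)) ∈ (XUaSet μ R) →
      tm τ τ T (M (τ.t b w)) - M (τ.t (T b) w) = 0 := by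
    intro b w hb
    obtain ⟨n, hn⟩ := hb
    obtain ⟨C', hC'0, hC'⟩ : ∃ C' : ℝ, 0 ≤ C' ∧ ∀ γ, ‖O γ w‖ ≤ C' :=
      ⟨|C| * ‖w‖, by positivity, fun γ => (hC γ w).trans
        (mul_le_mul_of_nonneg_right (le_abs_self C) (norm_nonneg _))⟩
    -- the estimate
    have hest : ∀ ε : ℝ, 0 < ε → ε ≤ 1 → ‖tm τ τ T (M (τ.t b w)) - M (τ.t (T b) w)‖ ≤
        ε * (‖T‖ * ‖b‖ + (C' + C') + (‖T b‖ + 1)) := by
      intro ε hε hε1
      obtain ⟨δ, hδ, hO1⟩ := hO w ε hε
      obtain ⟨b', hb', hbb'⟩ := approx81 R (T b) hε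
      obtain ⟨n', hn'⟩ := hb'
      obtain ⟨s, hs, hO2⟩ := hO1 (max n n')
      have hs1 : UE.map μ (ind ℂ s) (b : UE μ (L2 G)) = b := hn s (hmono (le_max_left n n') hs)
      have hs2 : UE.map μ (ind ℂ s) (b' : UE μ (L2 G)) = b' := hn' s (hmono (le_max_right n n') hs)
      obtain ⟨F, f, hf0, hf1, hfd, hfU⟩ := pou81 pd hδ
      have hfle : ∀ i ∈ F, ∀ γ, ‖((f i γ : ℝ) : ℂ)‖ ≤ 1 := by
        intro i hi γ
        rw [Complex.norm_real, Real.norm_eq_abs, abs_of_nonneg (hf0 i γ), ← hf1 γ]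
        exact Finset.single_le_sum (f := fun j => f j γ) (fun j _ => hf0 j γ) hi
      obtain ⟨wi, hwi, hwi2⟩ : ∃ wi : G → L, (∀ i, ‖wi i‖ ≤ C') ∧
          ∀ i, ∀ γ ∈ s, f i γ ≠ 0 → ‖O γ w - wi i‖ ≤ ε := by
        refine ⟨fun i => if h : ∃ γ' ∈ s, f i γ' ≠ 0 then O h.choose w else 0, fun i => ?_,
          fun i γ hγ hfγ => ?_⟩
        · change ‖if h : ∃ γ' ∈ s, f i γ' ≠ 0 then O h.choose w else 0‖ ≤ C'
          split_ifs with h
          · exact hC' _
          · rw [norm_zero]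
            exact hC'0
        · have h : ∃ γ' ∈ s, f i γ' ≠ 0 := ⟨γ, hγ, hfγ⟩
          change ‖O γ w - (if h : ∃ γ' ∈ s, f i γ' ≠ 0 then O h.choose w else 0)‖ ≤ ε
          rw [dif_pos h]
          refine hO2 γ hγ _ h.choose_spec.1 ?_
          have h1 := hfd i γ hfγ
          have h2 := hfd i _ h.choose_spec.2
          have h3 := pd.tri γ i h.choose
          rw [pd.symm i h.choose] at h3
          linarith
      -- the function `E`
      obtain ⟨E, hE⟩ : ∃ E : G → L, E = fun γ => ∑ i ∈ F, ((f i γ : ℝ) : ℂ) • wi i := ⟨_, rfl⟩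
      have hEb : ∀ γ, ‖E γ‖ ≤ C' := by
        intro γ
        rw [hE]
        refine (norm_sum_le _ _).trans ?_
        have h1 : ∀ i ∈ F, ‖((f i γ : ℝ) : ℂ) • wi i‖ ≤ f i γ * C' := by
          intro i _
          rw [norm_smul, Complex.norm_real, Real.norm_eq_abs, abs_of_nonneg (hf0 i γ)]
          exact mul_le_mul_of_nonneg_left (hwi i) (hf0 i γ)
        refine (Finset.sum_le_sum h1).trans ?_
        rw [← Finset.sum_mul, hf1, one_mul]
      have hEs : ∀ γ ∈ s, ‖O γ w - E γ‖ ≤ ε := by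
        intro γ hγ
        have h1 : O γ w - E γ = ∑ i ∈ F, ((f i γ : ℝ) : ℂ) • (O γ w - wi i) := by
          have h2 : ∑ i ∈ F, ((f i γ : ℝ) : ℂ) • O γ w = O γ w := by
            rw [← Finset.sum_smul, ← Complex.ofReal_sum, hf1, Complex.ofReal_one, one_smul]
          rw [hE]
          simp only [smul_sub, Finset.sum_sub_distrib]
          rw [h2]
        rw [h1]
        refine (norm_sum_le _ _).trans ?_
        have h3 : ∀ i ∈ F, ‖((f i γ : ℝ) : ℂ) • (O γ w - wi i)‖ ≤ f i γ * ε := by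
          intro i _
          rw [norm_smul, Complex.norm_real, Real.norm_eq_abs, abs_of_nonneg (hf0 i γ)]
          by_cases h4 : f i γ = 0
          · rw [h4, zero_mul, zero_mul]
          · exact mul_le_mul_of_nonneg_left (hwi2 i γ hγ h4) (hf0 i γ)
        refine (Finset.sum_le_sum h3).trans ?_
        rw [← Finset.sum_mul, hf1, one_mul]
      have hDb : ∀ γ, ‖O γ w - E γ‖ ≤ C' + C' := fun γ =>
        (norm_sub_le _ _).trans (add_le_add (hC' γ) (hEb γ))
      -- the difference operator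
      have hD1 : ∀ y : UE μ (L2 G), ‖UE.map μ (mulF fun γ => O γ w - E γ) y‖ ≤ (C' + C') * ‖y‖ :=
        fun y => UE.norm_map_le_of (by positivity) (norm_mulF_le (by positivity) hDb) y
      have hD2 : ∀ y : UE μ (L2 G), UE.map μ (ind ℂ s) y = y →
          ‖UE.map μ (mulF fun γ => O γ w - E γ) y‖ ≤ ε * ‖y‖ := by
        intro y hy
        have h1 : UE.map μ (mulF fun γ => O γ w - E γ) y =
            UE.map μ (mulF (s.indicator fun γ => O γ w - E γ)) y := by
          rw [← mulF_ind81 hDb, UE.map_comp, hy]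
        rw [h1]
        refine UE.norm_map_le_of hε.le (norm_mulF_le hε.le fun γ => ?_) y
        unfold Set.indicator
        split_ifs with h2
        · exact hEs γ h2
        · rw [norm_zero]
          exact hε.le
      -- `M (τ.t y w)`
      have hA : ∀ y : XUa μ R, ((M (τ.t y w) : XVp μ R L) : UE μ (Lv G L)) =
          UE.map μ (mulF fun γ => O γ w) (y : UE μ (L2 G)) := by
        intro y
        rw [hM, hτ, ← UE.map_comp, dg_mulF81 hC]
      -- the approximation `P`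
      obtain ⟨P, hP⟩ : ∃ P : XUa μ R → XVp μ R L, P = fun y : XUa μ R => ∑ i ∈ F,
          τ.t ⟨UE.map μ (mulop fun γ => ((f i γ : ℝ) : ℂ)) (y : UE μ (L2 G)), mulop_memX R y.2⟩ (wi i) :=
        ⟨_, rfl⟩
      have hPc : ∀ y : XUa μ R, ((P y : XVp μ R L) : UE μ (Lv G L)) = UE.map μ (mulF E) (y : UE μ (L2 G)) := by
        intro y
        rw [hP]
        change (((∑ i ∈ F, τ.t ⟨UE.map μ (mulop fun γ => ((f i γ : ℝ) : ℂ)) (y : UE μ (L2 G)),
          mulop_memX R y.2⟩ (wi i) : XVp μ R L)) : UE μ (Lv G L)) = _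
        rw [AddSubmonoidClass.coe_finsetSum]
        have h1 : ∀ i ∈ F, ((τ.t ⟨UE.map μ (mulop fun γ => ((f i γ : ℝ) : ℂ)) (y : UE μ (L2 G)),
            mulop_memX R y.2⟩ (wi i) : XVp μ R L) : UE μ (Lv G L)) =
            UE.map μ (mulF fun γ => ((f i γ : ℝ) : ℂ) • wi i) (y : UE μ (L2 G)) := by
          intro i hi
          rw [hτ, ← mulF_mulop81 (hfle i hi), UE.map_comp]
        rw [Finset.sum_congr rfl h1, ← UE.map_sum, mulF_sum81 (C := C') (fun i hi γ => by
          rw [norm_smul]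
          have h2 := mul_le_mul (hfle i hi γ) (hwi i) (norm_nonneg _) zero_le_one
          rwa [one_mul] at h2), hE]
      have hdiff : ∀ y : XUa μ R, ‖M (τ.t y w) - P y‖ =
          ‖UE.map μ (mulF fun γ => O γ w - E γ) (y : UE μ (L2 G))‖ := by
        intro y
        rw [← mulF_sub81 hC' hEb, UE.map_sub, ← hA, ← hPc]
        rfl
      have hcomm : tm τ τ T (P b) = P (T b) := by
        rw [hP]
        change tm τ τ T (∑ i ∈ F, τ.t ⟨UE.map μ (mulop fun γ => ((f i γ : ℝ) : ℂ)) (b : UE μ (L2 G)),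
          mulop_memX R b.2⟩ (wi i)) = _
        rw [map_sum]
        refine Finset.sum_congr rfl fun i hi => ?_
        rw [tm_t]
        congr 2
        exact Subtype.ext (loc_scalarX hT (hfU i hi) (hfle i hi) b)
      have e1 : tm τ τ T (M (τ.t b w)) - M (τ.t (T b) w) =
          tm τ τ T (M (τ.t b w) - P b) - (M (τ.t (T b) w) - P (T b)) := by
        rw [map_sub, hcomm]
        abel
      have e2 : ‖tm τ τ T (M (τ.t b w) - P b)‖ ≤ ‖T‖ * (ε * ‖b‖) := by
        refine (norm_tm_le τ τ T _).trans (mul_le_mul_of_nonneg_left ?_ (norm_nonneg _))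
        rw [hdiff]
        exact hD2 _ hs1
      have e3 : ‖M (τ.t (T b) w) - P (T b)‖ ≤ (C' + C') * ε + ε * (‖T b‖ + 1) := by
        rw [hdiff]
        have h1 : UE.map μ (mulF fun γ => O γ w - E γ) ((T b : XUa μ R) : UE μ (L2 G)) =
            UE.map μ (mulF fun γ => O γ w - E γ) (((T b - b' : XUa μ R)) : UE μ (L2 G)) +
            UE.map μ (mulF fun γ => O γ w - E γ) (b' : UE μ (L2 G)) := by
          rw [← map_add]
          congr 1
          rw [AddSubgroupClass.coe_sub]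
          abel
        rw [h1]
        refine (norm_add_le _ _).trans (add_le_add ?_ ?_)
        · refine (hD1 _).trans (mul_le_mul_of_nonneg_left ?_ (by positivity))
          exact hbb'
        · refine (hD2 _ hs2).trans (mul_le_mul_of_nonneg_left ?_ hε.le)
          have h2 : ‖b'‖ ≤ ‖T b‖ + ‖T b - b'‖ := by
            have h3 : b' = T b - (T b - b') := by abel
            calc ‖b'‖ = ‖T b - (T b - b')‖ := by rw [← h3]
              _ ≤ _ := norm_sub_le _ _
          have h4 : ‖(b' : UE μ (L2 G))‖ = ‖b'‖ := rfl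
          rw [h4]
          linarith
      rw [e1]
      refine (norm_sub_le _ _).trans ((add_le_add e2 e3).trans (le_of_eq ?_))
      ring
    -- let `ε` tend to zero
    by_contra hne
    have hpos : 0 < ‖tm τ τ T (M (τ.t b w)) - M (τ.t (T b) w)‖ := norm_pos_iff.2 hne
    have hK : 0 ≤ ‖T‖ * ‖b‖ + (C' + C') + (‖T b‖ + 1) := by positivity
    generalize ‖T‖ * ‖b‖ + (C' + C') + (‖T b‖ + 1) = K at hest hK
    generalize ‖tm τ τ T (M (τ.t b w)) - M (τ.t (T b) w)‖ = z at hest hpos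
    have h1 := hest (min 1 (z / (2 * (K + 1)))) (by positivity) (min_le_left _ _)
    have h2 : min 1 (z / (2 * (K + 1))) * K ≤ z / (2 * (K + 1)) * K :=
      mul_le_mul_of_nonneg_right (min_le_right _ _) hK
    have h3 : z / (2 * (K + 1)) * K < z := by
      rw [div_mul_eq_mul_div, div_lt_iff₀ (by positivity)]
      nlinarith
    linarith
  -- the map `a ↦ τ.t a w` is continuous
  have hnorm : ∀ (a : XUa μ R) (w : L), ‖τ.t a w‖ ≤ ‖w‖ * ‖a‖ := by
    intro a w
    have h1 : inner ℂ (τ.t a w) (τ.t a w) = inner ℂ a a * inner ℂ w w := τ.inner_t a a w w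
    rw [inner_self_eq_norm_sq_to_K, inner_self_eq_norm_sq_to_K, inner_self_eq_norm_sq_to_K] at h1
    have h2 : ‖τ.t a w‖ ^ 2 = (‖w‖ * ‖a‖) ^ 2 := by
      rw [mul_pow, mul_comm]
      exact_mod_cast h1
    exact le_of_eq ((sq_eq_sq₀ (norm_nonneg _) (by positivity)).1 h2)
  have hall : ∀ (a : XUa μ R) (w : L), tm τ τ T (M (τ.t a w)) = M (tm τ τ T (τ.t a w)) := by
    intro a w
    let tw : XUa μ R →L[ℂ] XVp μ R L := LinearMap.mkContinuous (τ.t.flip w) ‖w‖ fun a => hnorm a w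
    have htw : ∀ a, tw a = τ.t a w := fun _ => rfl
    let D : XUa μ R →L[ℂ] XVp μ R L := ((tm τ τ T).comp M).comp tw - (M.comp tw).comp T
    have hDa : ∀ a, D a = tm τ τ T (M (τ.t a w)) - M (τ.t (T a) w) := fun _ => rfl
    have h0 : D a = 0 := by
      by_contra hne
      have hpos : 0 < ‖D a‖ := norm_pos_iff.2 hne
      obtain ⟨b, hb, hab⟩ := approx81 R a (η := ‖D a‖ / (2 * (‖D‖ + 1))) (by positivity)
      have h1 : D a = D (a - b) := by
        rw [map_sub, hDa b, key b w hb, sub_zero]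
      have h2 : ‖D a‖ ≤ ‖D‖ * (‖D a‖ / (2 * (‖D‖ + 1))) := by
        conv_lhs => rw [h1]
        exact (D.le_opNorm _).trans (mul_le_mul_of_nonneg_left hab (norm_nonneg _))
      have h3 : ‖D‖ * (‖D a‖ / (2 * (‖D‖ + 1))) < ‖D a‖ := by
        rw [mul_div_assoc', div_lt_iff₀ (by positivity)]
        nlinarith [norm_nonneg D]
      linarith
    rw [hDa, sub_eq_zero] at h0
    rw [h0, tm_t]
  have hext : (tm τ τ T).comp M = M.comp (tm τ τ T) := tens_ext τ fun a w => hall a w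
  exact congrArg (fun T : XVp μ R L →L[ℂ] XVp μ R L => T x) hext


end Pool.Agent.Helper84.GN.S3.X
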