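import Pool.Agent.Helper9.S3.A3b
import Pool.Agent.Helper9.S3X.A7b

/-!
# Project S3X, block A7c: local operators commute with the right action on XVp

ADAPT `Helper9/S3/A7c.lean`: `Blim_apply`, `coe_BV` become `XBlim_apply`, `coe_XBV` (`Helper84/FR/XB.lean`, `XE.lean`), `UP.mapU_apply` becomes `UE.mapU_apply`, `loc_field` becomes `loc_fieldX`.
-/

set_option autoImplicit false
set_option linter.unusedSectionVars false

open MeasureTheory Filter Topology

namespace Pool.Agent.Helper84.GN.S3.X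

open NI GVN Pool.Agent.Helper90.RK
open Pool.Agent.Helper96.RK Pool.Agent.Helper66.FR Pool.Agent.Helper84.FR Pool.Agent.Helper55.FR

variable {G X : Type} [Group G] [MeasurableSpace X] {μ : Measure X} {R : Reg G} {pd : PD G}

variable {L : Type} [NormedAddCommGroup L] [InnerProductSpace ℂ L] [CompleteSpace L]

/-- the translation, as a continuous linear map -/
private noncomputable def pmX75 (G L : Type) [Group G] [NormedAddCommGroup L] [InnerProductSpace ℂ L] (h : G) :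
    Lv G L →L[ℂ] Lv G L :=
  ((permV (tr 1 h) : Lv G L ≃ₗᵢ[ℂ] Lv G L).toContinuousLinearEquiv : Lv G L →L[ℂ] Lv G L)

omit [CompleteSpace L] in
private theorem pmX75_apply (h : G) (ξ : Lv G L) (γ : G) : pmX75 G L h ξ γ = ξ (1⁻¹ * γ * h) := rfl

/-- the right translation on `XUa`, as a continuous linear map -/
private noncomputable def buX75 (μ : Measure X) (R : Reg G) (h : G) : XUa μ R →L[ℂ] XUa μ R :=
  ((XBU (μ := μ) R h).toContinuousLinearEquiv : XUa μ R →L[ℂ] XUa μ R)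

private theorem buX75_apply (h : G) (a : XUa μ R) : buX75 μ R h a = XBU R h a := rfl

omit [CompleteSpace L] in
private theorem pmX75_mulF (h : G) (w : L) (a : UE μ (L2 G)) :
    UE.map μ (mulF fun _ : G => w) (XBlim μ G h a) =
      UE.map μ (pmX75 G L h) (UE.map μ (mulF fun _ : G => w) a) := by
  rw [XBlim_apply, ← UE.map_comp, ← UE.map_comp]
  refine congrArg (fun T => UE.map μ T a) ?_
  ext f : 1
  refine lv_ext fun γ => ?_
  have hw : ∀ _ : G, ‖w‖ ≤ ‖w‖ := fun _ => le_rfl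
  rw [ContinuousLinearMap.comp_apply, ContinuousLinearMap.comp_apply, mulF_apply hw, pmX75_apply,
    mulF_apply hw]
  rfl

/-- the translation on the tensor product -/
private theorem rhoX75 (τ : Tens (XUa μ R) L (XVp μ R L)) (hτ : IsTX τ) (h : G) (x : XVp μ R L) :
    ((tm τ τ (buX75 μ R h) x : XVp μ R L) : UE μ (Lv G L)) =
      UE.map μ (pmX75 G L h) (x : UE μ (Lv G L)) := by
  have key : ((XVp μ R L).subtypeL).comp (tm τ τ (buX75 μ R h)) =
      (UE.map μ (pmX75 G L h)).comp ((XVp μ R L).subtypeL) := by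
    refine tens_ext τ fun a w => ?_
    change ((tm τ τ (buX75 μ R h) (τ.t a w) : XVp μ R L) : UE μ (Lv G L)) =
      UE.map μ (pmX75 G L h) ((τ.t a w : XVp μ R L) : UE μ (Lv G L))
    rw [tm_t, hτ, hτ, ← pmX75_mulF]
    rfl
  exact congrArg (fun T : XVp μ R L →L[ℂ] UE μ (Lv G L) => T x) key

private theorem invX75 (τ : Tens (XUa μ R) L (XVp μ R L)) (h : G) (x : XVp μ R L) :
    tm τ τ (buX75 μ R h⁻¹) (tm τ τ (buX75 μ R h) x) = x := by
  have key : (tm τ τ (buX75 μ R h⁻¹)).comp (tm τ τ (buX75 μ R h)) =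
      ContinuousLinearMap.id ℂ (XVp μ R L) := by
    refine tens_ext τ fun a w => ?_
    rw [ContinuousLinearMap.comp_apply, tm_t, tm_t, ContinuousLinearMap.id_apply, buX75_apply,
      buX75_apply]
    have e : XBU R h⁻¹ (XBU R h a) = a := by
      have h1 : (XBU (μ := μ) R h⁻¹ * XBU (μ := μ) R h) a = a := by
        rw [← map_mul, inv_mul_cancel, map_one]
        rfl
      exact h1
    rw [e]
  exact congrArg (fun T : XVp μ R L →L[ℂ] XVp μ R L => T x) key

private theorem commX75 (τ : Tens (XUa μ R) L (XVp μ R L)) {T : XUa μ R →L[ℂ] XUa μ R} {h : G}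
    (hTB : ∀ x, T (XBU R h x) = XBU R h (T x)) (x : XVp μ R L) :
    tm τ τ T (tm τ τ (buX75 μ R h) x) = tm τ τ (buX75 μ R h) (tm τ τ T x) := by
  have key : (tm τ τ T).comp (tm τ τ (buX75 μ R h)) = (tm τ τ (buX75 μ R h)).comp (tm τ τ T) := by
    refine tens_ext τ fun a w => ?_
    rw [ContinuousLinearMap.comp_apply, ContinuousLinearMap.comp_apply, tm_t, tm_t, tm_t, tm_t,
      buX75_apply, buX75_apply, hTB]
  exact congrArg (fun T : XVp μ R L →L[ℂ] XVp μ R L => T x) key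

theorem commD_XBV (Γ : Coc R L) (τ : Tens (XUa μ R) L (XVp μ R L)) (hτ : IsTX τ) {T : XUa μ R →L[ℂ] XUa μ R}
    (hT : LocX R pd T) {h : G} (hTB : ∀ x, T (XBU R h x) = XBU R h (T x))
    (hO : PCF R pd fun γ => ((Γ.pi 1 h γ).toContinuousLinearEquiv : L →L[ℂ] L)) (x : XVp μ R L) :
    tm τ τ T (XBV μ Γ h x) = XBV μ Γ h (tm τ τ T x) := by
  let O : G → (L →L[ℂ] L) := fun γ => ((Γ.pi 1 h γ).toContinuousLinearEquiv : L →L[ℂ] L)
  have hC : ∀ γ x, ‖O γ x‖ ≤ 1 * ‖x‖ := fun γ x => by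
    rw [one_mul]
    exact le_of_eq ((Γ.pi 1 h γ).norm_map x)
  let M : XVp μ R L →L[ℂ] XVp μ R L :=
    (((XBV μ Γ h).toContinuousLinearEquiv : XVp μ R L →L[ℂ] XVp μ R L)).comp (tm τ τ (buX75 μ R h⁻¹))
  have hMx : ∀ y, M y = XBV μ Γ h (tm τ τ (buX75 μ R h⁻¹) y) := fun _ => rfl
  have hM : ∀ y : XVp μ R L, ((M y : XVp μ R L) : UE μ (Lv G L)) =
      UE.map μ (dg O) (y : UE μ (Lv G L)) := by
    intro y
    rw [hMx, coe_XBV, rhoX75 τ hτ, UE.mapU_apply, ← UE.map_comp]
    refine congrArg (fun T => UE.map μ T (y : UE μ (Lv G L))) ?_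
    ext f : 1
    refine lv_ext fun γ => ?_
    rw [dg_apply hC]
    change What Γ 1 h (pmX75 G L h⁻¹ f) γ = _
    rw [What_apply, pmX75_apply]
    have e : (1 : G)⁻¹ * (1⁻¹ * γ * h) * h⁻¹ = γ := by group
    rw [e]
    rfl
  have hB : ∀ y, XBV μ Γ h y = M (tm τ τ (buX75 μ R h) y) := fun y => by rw [hMx, invX75]
  rw [hB, hB, loc_fieldX τ hτ hT hO hC M hM, commX75 τ hTB]

end Pool.Agent.Helper84.GN.S3.X
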