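import Pool.Agent.Helper9.S3X.Defs
import Pool.Agent.Helper84.FR.XX

/-!
# Project S3X, block A7d: the multipliers on XVp

ADAPT the proof of `xapx` in `Helper84/FR/XX.lean` (with its private lemmas, e.g. `sxM D t = dg fun γ => D.mo γ t`, to be copied), compare `Helper9/S3/A7d.lean`: `M t` = restriction of `UE.map μ (dg fun γ => D.mo γ t)`.
-/

set_option autoImplicit false
set_option linter.unusedSectionVars false

open MeasureTheory Filter Topology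

namespace Pool.Agent.Helper84.GN.S3.X

open NI GVN Pool.Agent.Helper90.RK
open Pool.Agent.Helper96.RK Pool.Agent.Helper66.FR Pool.Agent.Helper84.FR Pool.Agent.Helper55.FR

variable {G X : Type} [Group G] [MeasurableSpace X] {R : Reg G}

variable {L : Type} [NormedAddCommGroup L] [InnerProductSpace ℂ L] [CompleteSpace L]

section Aux

variable {μ : Measure X} {Γ : Coc R L} {Q : Finset G} {ε : ℝ}

omit [CompleteSpace L] in
private theorem h67_sx_le (D : Mul Γ Q ε) (γ t : G) (f : L) : ‖D.mo γ t f‖ ≤ 1 * ‖f‖ := by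
  by_cases ht : t ∈ D.supp
  · have h := Finset.single_le_sum (f := fun t => ‖D.mo γ t f‖ ^ 2) (fun _ _ => sq_nonneg _) ht
    rw [D.sum] at h
    rw [one_mul]
    exact (sq_le_sq₀ (norm_nonneg _) (norm_nonneg _)).1 h
  · rw [D.off γ t ht, ContinuousLinearMap.zero_apply, norm_zero, one_mul]
    exact norm_nonneg _

/-- the multipliers on `ℓ²(G; L)` -/
private noncomputable def h67_sxM (D : Mul Γ Q ε) (t : G) : Lv G L →L[ℂ] Lv G L :=
  dg fun γ => D.mo γ t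

omit [CompleteSpace L] in
private theorem h67_sxM_apply (D : Mul Γ Q ε) (t : G) (f : Lv G L) (γ : G) :
    h67_sxM D t f γ = D.mo γ t (f γ) :=
  dg_apply (C := 1) (fun γ f => h67_sx_le D γ t f) f γ

omit [CompleteSpace L] in
private theorem h67_sxM_zero (D : Mul Γ Q ε) {t : G} (ht : t ∉ D.supp) : h67_sxM D t = 0 := by
  refine ContinuousLinearMap.ext fun f => lv_ext fun γ => ?_
  rw [h67_sxM_apply, D.off γ t ht]
  rfl

omit [CompleteSpace L] in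
private theorem h67_sxM_mulF (D : Mul Γ Q ε) (t : G) {F : G → L} {C : ℝ}
    (hC : ∀ γ, ‖F γ‖ ≤ C) (a : UE μ (L2 G)) :
    UE.map μ (h67_sxM D t) (UE.map μ (mulF F) a) = UE.map μ (mulF fun γ => D.mo γ t (F γ)) a := by
  rw [← UE.map_comp]
  have h : (h67_sxM D t).comp (mulF F) = mulF fun γ => D.mo γ t (F γ) := by
    refine ContinuousLinearMap.ext fun f => lv_ext fun γ => ?_
    rw [ContinuousLinearMap.comp_apply, h67_sxM_apply, mulF_apply hC, mulF_apply (C := C), map_smul]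
    intro γ
    refine (h67_sx_le D γ t _).trans ?_
    rw [one_mul]
    exact hC γ
  rw [h]

omit [CompleteSpace L] in
private theorem h67_sx_mapsTo {T : UE μ (Lv G L) →L[ℂ] UE μ (Lv G L)}
    (h : ∀ (w : L) (a : UE μ (L2 G)), a ∈ (XUa μ R) → T (UE.map μ (mulF fun _ => w) a) ∈ (XVp μ R L))
    {ξ : UE μ (Lv G L)} (hξ : ξ ∈ (XVp μ R L)) : T ξ ∈ (XVp μ R L) := by
  have hle : (XVp μ R L) ≤ ((XVp μ R L)).comap (T : UE μ (Lv G L) →ₗ[ℂ] UE μ (Lv G L)) := by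
    refine Submodule.topologicalClosure_minimal _ (Submodule.span_le.2 ?_) ?_
    · rintro _ ⟨w, a, ha, rfl⟩
      exact h w a ha
    · exact (Submodule.isClosed_topologicalClosure _).preimage T.continuous
  exact hle hξ

omit [CompleteSpace L] in
private theorem h67_sxM_mem (D : Mul Γ Q ε) (t : G) {ξ : UE μ (Lv G L)}
    (hξ : ξ ∈ (XVp μ R L)) : UE.map μ (h67_sxM D t) ξ ∈ (XVp μ R L) := by
  refine h67_sx_mapsTo (fun w a ha => ?_) hξ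
  rw [h67_sxM_mulF D t (C := ‖w‖) (fun _ => le_rfl)]
  obtain ⟨K, hK, hK'⟩ := D.cpt t w
  refine xmap_mulF_mem R (C := ‖w‖) (fun γ => ?_) (fun n => ⟨K, hK, Eventually.of_forall hK'⟩) ha
  refine (h67_sx_le D γ t _).trans ?_
  rw [one_mul]

omit [CompleteSpace L] in
private theorem h67_sxM_sum (D : Mul Γ Q ε) (x : Lv G L) :
    ∑ t ∈ D.supp, ‖h67_sxM D t x‖ ^ 2 = ‖x‖ ^ 2 := by
  have h1 : HasSum (fun γ => ∑ t ∈ D.supp, ‖h67_sxM D t x γ‖ ^ 2)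
      (∑ t ∈ D.supp, ‖h67_sxM D t x‖ ^ 2) := hasSum_sum fun t _ => lv_hasSum (h67_sxM D t x)
  have h2 : (fun γ => ∑ t ∈ D.supp, ‖h67_sxM D t x γ‖ ^ 2) = fun γ => ‖x γ‖ ^ 2 := by
    funext γ
    simp only [h67_sxM_apply]
    exact D.sum γ (x γ)
  rw [h2] at h1
  exact h1.unique (lv_hasSum x)

/-- the defect of the equivariance on the right -/
private noncomputable def h67_sxT (D : Mul Γ Q ε) (h t : G) : Lv G L →L[ℂ] Lv G L :=
  (h67_sxM D t).comp ((What Γ 1 h).toContinuousLinearEquiv : Lv G L →L[ℂ] Lv G L) -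
    ((What Γ 1 h).toContinuousLinearEquiv : Lv G L →L[ℂ] Lv G L).comp (h67_sxM D (h⁻¹ * t))

omit [CompleteSpace L] in
private theorem h67_sxT_apply (D : Mul Γ Q ε) (h t : G) (f : Lv G L) (γ : G) :
    h67_sxT D h t f γ = D.mo γ t (Γ.pi 1 h γ (f (1⁻¹ * γ * h))) -
      Γ.pi 1 h γ (D.mo (1⁻¹ * γ * h) (h⁻¹ * t) (f (1⁻¹ * γ * h))) := by
  change h67_sxM D t (What Γ 1 h f) γ - What Γ 1 h (h67_sxM D (h⁻¹ * t) f) γ = _
  rw [h67_sxM_apply, GN.What_apply, GN.What_apply, h67_sxM_apply]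

omit [CompleteSpace L] in
private theorem h67_sxT_map (D : Mul Γ Q ε) (h t : G) (ξ : UE μ (Lv G L)) :
    UE.map μ (h67_sxT D h t) ξ = UE.map μ (h67_sxM D t) (UE.mapU μ (What Γ 1 h) ξ) -
      UE.mapU μ (What Γ 1 h) (UE.map μ (h67_sxM D (h⁻¹ * t)) ξ) := by
  unfold h67_sxT
  rw [UE.map_sub, UE.map_comp, UE.map_comp, UE.mapU_apply, UE.mapU_apply]

omit [Group G] [CompleteSpace L] in
private theorem h67_sx_ind_le (A : Set G) (x : Lv G L) : ‖ind L A x‖ ≤ ‖x‖ := by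
  refine (sq_le_sq₀ (norm_nonneg _) (norm_nonneg _)).1 ?_
  refine hasSum_le (fun γ => ?_) (lv_hasSum (ind L A x)) (lv_hasSum x)
  rw [ind_apply]
  split_ifs
  · exact le_rfl
  · rw [norm_zero, zero_pow two_ne_zero]
    exact sq_nonneg _

omit [CompleteSpace L] in
private theorem h67_sxT_bound (D : Mul Γ Q ε) {h : G} (hh : h ∈ Q) (n : ℕ) :
    ∃ A ∈ R.F n, ∀ (x : Lv G L) (s : Finset G),
      ∑ t ∈ s, ‖h67_sxT D h t (ind L A x)‖ ^ 2 ≤ ε ^ 2 * ‖x‖ ^ 2 := by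
  obtain ⟨n', hn'⟩ := R.shift 1 h⁻¹ n
  have hA := hn'.eventually (D.right h hh n')
  refine ⟨_, hA, fun x s => ?_⟩
  set A : Set G := {γ | ∀ (s : Finset G) (f : L), ∑ t ∈ s,
    ‖D.mo (1⁻¹ * γ * h⁻¹) t (Γ.pi 1 h (1⁻¹ * γ * h⁻¹) f) - Γ.pi 1 h (1⁻¹ * γ * h⁻¹)
      (D.mo (1⁻¹ * (1⁻¹ * γ * h⁻¹) * h) (h⁻¹ * t) f)‖ ^ 2 ≤ ε ^ 2 * ‖f‖ ^ 2} with hAdef
  set y : Lv G L := ind L A x with hy
  -- pointwise estimate
  have hpt : ∀ γ, ∑ t ∈ s, ‖h67_sxT D h t y γ‖ ^ 2 ≤ ε ^ 2 * ‖y (1⁻¹ * γ * h)‖ ^ 2 := by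
    intro γ
    by_cases hγ : 1⁻¹ * γ * h ∈ A
    · have h1 := hγ s (y (1⁻¹ * γ * h))
      have e1 : (1 : G)⁻¹ * (1⁻¹ * γ * h) * h⁻¹ = γ := by group
      rw [e1] at h1
      refine le_trans (le_of_eq ?_) h1
      refine Finset.sum_congr rfl fun t _ => ?_
      rw [h67_sxT_apply]
    · have h0 : y (1⁻¹ * γ * h) = 0 := by
        rw [hy, ind_apply, if_neg hγ]
      have h1 : ∑ t ∈ s, ‖h67_sxT D h t y γ‖ ^ 2 = 0 := by
        refine Finset.sum_eq_zero fun t _ => ?_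
        rw [h67_sxT_apply, h0, map_zero, map_zero, map_zero, map_zero, sub_zero, norm_zero]
        norm_num
      rw [h1, h0, norm_zero]
      norm_num
  have s1 : HasSum (fun γ => ∑ t ∈ s, ‖h67_sxT D h t y γ‖ ^ 2)
      (∑ t ∈ s, ‖h67_sxT D h t y‖ ^ 2) := hasSum_sum fun t _ => lv_hasSum (h67_sxT D h t y)
  have s2 : HasSum (fun γ => ε ^ 2 * ‖y (1⁻¹ * γ * h)‖ ^ 2) (ε ^ 2 * ‖y‖ ^ 2) := by
    have e1 : HasSum (fun γ => ‖permV (tr 1 h) y γ‖ ^ 2) (‖permV (tr 1 h) y‖ ^ 2) :=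
      lv_hasSum (permV (tr 1 h) y)
    rw [LinearIsometryEquiv.norm_map] at e1
    exact e1.mul_left (ε ^ 2)
  have s3 : ‖y‖ ≤ ‖x‖ := h67_sx_ind_le _ x
  refine (hasSum_le hpt s1 s2).trans ?_
  exact mul_le_mul_of_nonneg_left (pow_le_pow_left₀ (norm_nonneg _) s3 2) (sq_nonneg ε)

omit [CompleteSpace L] in
private theorem h67_sxT_main (D : Mul Γ Q ε) {h : G} (hh : h ∈ Q)
    (s : Finset G) {ξ : UE μ (Lv G L)} (hξ : ξ ∈ (XVp μ R L)) :
    ∑ t ∈ s, ‖UE.map μ (h67_sxT D h t) ξ‖ ^ 2 ≤ ε ^ 2 * ‖ξ‖ ^ 2 := by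
  have hcl : IsClosed {ξ : UE μ (Lv G L) | ∑ t ∈ s, ‖UE.map μ (h67_sxT D h t) ξ‖ ^ 2 ≤ ε ^ 2 * ‖ξ‖ ^ 2} :=
    isClosed_le (by fun_prop) (by fun_prop)
  refine closure_minimal ?_ hcl (xcarrier hξ)
  rintro η ⟨-, n, hη⟩
  obtain ⟨A, hA, hb⟩ := h67_sxT_bound D hh n
  have h1 := UE.sum_sq_le s (fun t => (h67_sxT D h t).comp (ind L A))
    (C := ε ^ 2) (fun x => hb x s) η
  change ∑ t ∈ s, ‖UE.map μ (h67_sxT D h t) η‖ ^ 2 ≤ ε ^ 2 * ‖η‖ ^ 2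
  refine le_trans (le_of_eq ?_) h1
  refine Finset.sum_congr rfl fun t _ => ?_
  rw [UE.map_comp, hη A hA]

end Aux

theorem exists_mul_opsX (μ : Measure X) (Γ : Coc R L) {Q : Finset G} {ε : ℝ} (D : Mul Γ Q ε) :
    ∃ M : G → (XVp μ R L →L[ℂ] XVp μ R L),
      (∀ t (x : XVp μ R L), ((M t x : XVp μ R L) : UE μ (Lv G L)) = UE.map μ (dg fun γ => D.mo γ t) (x : UE μ (Lv G L))) ∧
      (∀ t, t ∉ D.supp → M t = 0) ∧ (∀ x, ∑ t ∈ D.supp, ‖M t x‖ ^ 2 = ‖x‖ ^ 2) ∧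
      ∀ h ∈ Q, ∀ x, ∀ S' : Finset G, ∑ t ∈ S', ‖M t (XBV μ Γ h x) - XBV μ Γ h (M (h⁻¹ * t) x)‖ ^ 2 ≤ ε ^ 2 * ‖x‖ ^ 2 := by
  let M : G → (XVp μ R L →L[ℂ] XVp μ R L) := fun t =>
    rst (UE.map μ (h67_sxM D t)) (XVp μ R L) (XVp μ R L) (fun x hx => h67_sxM_mem D t hx)
  have hM : ∀ t (x : XVp μ R L), ((M t x : XVp μ R L) : UE μ (Lv G L)) = UE.map μ (h67_sxM D t) x :=
    fun t x => rfl
  refine ⟨M, ?_, ?_, ?_, ?_⟩
  · intro t x
    rfl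
  · intro t ht
    refine ContinuousLinearMap.ext fun x => Subtype.ext ?_
    rw [hM, h67_sxM_zero D ht, UE.map_zero]
    rfl
  · intro x
    exact UE.sum_sq_eq D.supp (fun t => h67_sxM D t) (h67_sxM_sum D) (x : UE μ (Lv G L))
  · intro h hh x S'
    have h1 := h67_sxT_main D hh S' x.2
    refine le_trans (le_of_eq ?_) h1
    refine Finset.sum_congr rfl fun t _ => ?_
    rw [h67_sxT_map]
    rfl

end Pool.Agent.Helper84.GN.S3.X
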