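import Pool.Agent.Helper9.S3X.W1

/-!
# Project S3X, block K1: the operators TT

Each identity holds for `WW (b n * v⁻¹)` at each `n` (block W1), so for `KU` (`KU_apply`, `UP.mk` of equal sequences), `KK` (`UE.eq`, `val_KK`) and, with `XPpr_B`, `hom_XPpr`, for `TT`. `TT_lam`: `XBlim μ G k = UE.rep μ (rhoR G) k` is `UE.map μ (rhoU k)` (`UE.rep_apply`), on `UP.mk`: `uxm_mk`. `TT_xE`: `WW_xE`: at `n` the set is `(fun x => (b n * v⁻¹)⁻¹ • x) ⁻¹' D = (fun x => (b n)⁻¹ • x) ⁻¹' ((fun x => v • x) ⁻¹' D)`,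
and `(pyU μ b R).p A (XPpr R ξ) = XPpr R ((xmU μ b (L2 G)).py.p A ξ)` (`(hom_XPpr b).y`), `xmU_py`, `UE.val_P`, `uxP` on `UP.mk` (see the proof of `Too_P0` in `Helper66/FR/Zt5.lean`). `TT_vg`: `b n * (f * v)⁻¹ = (b n * v⁻¹) * f⁻¹`, `WW_vg`. `TT_one`: `WW_one`, `vec_eq`. `norm_TT_le`: `norm_XPpr_le` (`Helper84/FR/ET.lean`), `‖KK φ‖ = lim ‖WW (b n) φ‖`.
-/

set_option autoImplicit false
set_option linter.unusedSectionVars false

open MeasureTheory Filter Topology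

namespace Pool.Agent.Helper84.GN.S3.X

open NI GVN Pool.Agent.Helper90.RK
open Pool.Agent.Helper96.RK Pool.Agent.Helper66.FR Pool.Agent.Helper84.FR Pool.Agent.Helper55.FR

variable {G1 X G Λ : Type} [Group G1] [MeasurableSpace X] [MulAction G1 X] [MeasurableConstSMul G1 X]
  [Group G] [Group Λ] [Countable Λ] {μ : Measure X} [SMulInvariantMeasure G1 X μ] [IsProbabilityMeasure μ]
  {a : Cocy G1 X Λ} {E : Emb Λ G}

variable {R : Reg G} {b : ℕ → G1}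

private theorem KK_lam77 (c : ℕ → G1) (k : G) (φ : XL μ (L2 G)) :
    KK μ a E c (cl μ ((lamU k).toContinuousLinearEquiv : L2 G →L[ℂ] L2 G) φ) =
      XBlim μ G k (KK μ a E c φ) := by
  refine UE.eq ?_
  have h1 : UE.val (XBlim μ G k (KK μ a E c φ)) =
      uxm μ ((rhoU k).toContinuousLinearEquiv : L2 G →L[ℂ] L2 G) (UP.mk (KS μ a E c φ)) := rfl
  rw [h1, uxm_mk, val_KK]
  exact congrArg UP.mk (Subtype.ext (funext fun n => WW_lam (c n) k φ))

private theorem KK_xE77 (c : ℕ → G1) {D : Set X} (hD : MeasurableSet D) (φ : XL μ (L2 G)) :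
    KK μ a E c (xE μ (L2 G) D φ) =
      UE.P μ (L2 G) (fun n => (fun x => (c n)⁻¹ • x) ⁻¹' D) (KK μ a E c φ) := by
  have hD' : ∀ n, MeasurableSet ((fun x => (c n)⁻¹ • x) ⁻¹' D) := fun n =>
    (measurable_const_smul _) hD
  refine UE.eq ?_
  rw [UE.val_P hD', val_KK, val_KK]
  unfold uxP ux
  rw [mapS_mk (BMS.ind hD').bo]
  exact congrArg UP.mk (Subtype.ext (funext fun n => WW_xE (c n) hD φ))

theorem TT_lam (v : G1) (k : G) (φ : XL μ (L2 G)) :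
    TT μ a E R b v (cl μ ((lamU k).toContinuousLinearEquiv : L2 G →L[ℂ] L2 G) φ) = XBU R k (TT μ a E R b v φ) := by
  change XPpr R (KK μ a E (fun n => b n * v⁻¹) _) =
    XBU R k (XPpr R (KK μ a E (fun n => b n * v⁻¹) φ))
  rw [KK_lam77, XPpr_B]

theorem TT_xE (v : G1) {D : Set X} (hD : MeasurableSet D) (φ : XL μ (L2 G)) :
    TT μ a E R b v (xE μ (L2 G) D φ) = (pyU μ b R).p ((fun x => v • x) ⁻¹' D) (TT μ a E R b v φ) := by
  change XPpr R (KK μ a E (fun n => b n * v⁻¹) (xE μ (L2 G) D φ)) =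
    (pyU μ b R).p ((fun x => v • x) ⁻¹' D) (XPpr R (KK μ a E (fun n => b n * v⁻¹) φ))
  rw [KK_xE77 _ hD]
  have hA : MeasurableSet ((fun x : X => v • x) ⁻¹' D) := (measurable_const_smul _) hD
  have e : (fun n => (fun x => (b n * v⁻¹)⁻¹ • x) ⁻¹' D) =
      fun n => (fun x => (b n)⁻¹ • x) ⁻¹' ((fun x => v • x) ⁻¹' D) := by
    funext n
    ext x
    change (b n * v⁻¹)⁻¹ • x ∈ D ↔ v • (b n)⁻¹ • x ∈ D
    rw [mul_inv_rev, inv_inv, mul_smul]
  rw [e]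
  exact (hom_XPpr (μ := μ) (R := R) b).y _ hA _

theorem TT_vg (f v : G1) (φ : XL μ (L2 G)) : TT μ a E R b (f * v) (vg μ a (jjR E) f φ) = TT μ a E R b v φ := by
  change XPpr R (KK μ a E (fun n => b n * (f * v)⁻¹) _) = XPpr R (KK μ a E (fun n => b n * v⁻¹) φ)
  congr 1
  refine UE.eq ?_
  rw [val_KK, val_KK]
  refine congrArg UP.mk (Subtype.ext (funext fun n => ?_))
  change WW μ a E (b n * (f * v)⁻¹) _ = WW μ a E (b n * v⁻¹) φ
  rw [mul_inv_rev, ← mul_assoc]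
  exact WW_vg (b n * v⁻¹) f φ

theorem TT_one (v : G1) : TT μ a E R b v (cst μ (dl 1)) = XPpr R (vec μ a E fun n => b n * v⁻¹) := by
  change XPpr R (KK μ a E (fun n => b n * v⁻¹) _) = _
  congr 1
  refine UE.eq ?_
  rw [val_KK, vec_eq]
  exact congrArg UP.mk (Subtype.ext (funext fun n => WW_one (b n * v⁻¹)))

theorem norm_TT_le (v : G1) (φ : XL μ (L2 G)) : ‖TT μ a E R b v φ‖ ≤ ‖φ‖ := by
  change ‖XPpr R (KK μ a E (fun n => b n * v⁻¹) φ)‖ ≤ _
  refine (norm_XPpr_le _).trans ?_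
  rw [← UE.norm_val, val_KK]
  refine UP.norm_mk_le _ fun n => ?_
  change ‖WW μ a E (b n * v⁻¹) φ‖ ≤ _
  rw [norm_WW]

end Pool.Agent.Helper84.GN.S3.X
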