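import Pool.Agent.Helper9.S3.A3b
import Pool.Agent.Helper9.S3X.K1

/-!
# Project S3X, block D1: the operators DD

`DD v = adjoint (tm τ' τ (TT v))`. `DD_V`: the operators `tm τ' τ (TT (f * v)) ∘ vg μ a V0 f` and `tm τ' τ (TT v)` agree on elementary tensors `τ'.t φ w = cl μ (mulF w) φ` (`tens_ext`, `tm_t`): `vg μ a V0 f (cl μ (mulF w) φ) = cl μ (mulF w) (vg μ a (jjR E) f φ)` (`cl_vg`, hypothesis `hV`) and `TT_vg`. Take adjoints; the adjoint of the unitary `vgR μ a V0 f` is its inverse.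
`DD_xE`: `tm τ' τ (TT v) (xE A y) = (pyV μ b R L).p ((fun x => v • x) ⁻¹' A) (tm τ' τ (TT v) y)` on elementary tensors: `xE A (cl μ (mulF w) φ) = cl μ (mulF w) (xE A φ)` (`cl_mx`), `TT_xE`, and `(pyV ..).p A' (τ.t x w) = τ.t ((pyU ..).p A' x) w` (`hτ`, `xmU_hom b (mulF fun _ => w)`, see `hom_XTR` in `Helper84/FR/XS.lean`); take adjoints (`PV.symm`, `xE_symm`). `DD_DD`: `tm_adjoint` (`S3/A3b`), `adjoint_adjoint`, and
`tm` of a composition is the composition (`tens_ext`). `inner_DD`: `adjoint_inner_left`, `tm_t`, `TT_one`.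
-/

set_option autoImplicit false
set_option linter.unusedSectionVars false

open MeasureTheory Filter Topology

namespace Pool.Agent.Helper84.GN.S3.X

open NI GVN Pool.Agent.Helper90.RK
open Pool.Agent.Helper96.RK Pool.Agent.Helper66.FR Pool.Agent.Helper84.FR Pool.Agent.Helper55.FR

variable {G1 X G Λ : Type} [Group G1] [MeasurableSpace X] [MulAction G1 X] [MeasurableConstSMul G1 X]
  [Group G] [Group Λ] [Countable Λ] {μ : Measure X} [SMulInvariantMeasure G1 X μ] [IsProbabilityMeasure μ]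
  {a : Cocy G1 X Λ} {E : Emb Λ G} {R : Reg G} {b : ℕ → G1}
  {L : Type} [NormedAddCommGroup L] [InnerProductSpace ℂ L] [CompleteSpace L]
  {τ : Tens (XUa μ R) L (XVp μ R L)} {τ' : Tens (XL μ (L2 G)) L (XL μ (Lv G L))}

/-- The operators `(TT v ⊗ 1)*`. -/
noncomputable def DD (a : Cocy G1 X Λ) (E : Emb Λ G) (b : ℕ → G1) (τ : Tens (XUa μ R) L (XVp μ R L))
    (τ' : Tens (XL μ (L2 G)) L (XL μ (Lv G L))) (v : G1) : XVp μ R L →L[ℂ] XL μ (Lv G L) :=
  ContinuousLinearMap.adjoint (tm τ' τ (TT μ a E R b v))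

private theorem inner_vg_h12 {V0 : Λ →* (Lv G L ≃ₗᵢ[ℂ] Lv G L)} (f : G1) (x y : XL μ (Lv G L)) :
    inner ℂ y (vg μ a V0 f x) = inner ℂ (vg μ a V0 f⁻¹ y) x := by
  have h1 : y = vg μ a V0 f (vg μ a V0 f⁻¹ y) := by rw [← vg_mul, mul_inv_cancel, vg_one]
  conv_lhs => rw [h1]
  exact (vgR μ a V0 f).inner_map_map _ _

private theorem tm_comp_h12 {H1 H2 H3 K1 K2 K3 : Type} [NormedAddCommGroup H1] [InnerProductSpace ℂ H1]
    [NormedAddCommGroup H2] [InnerProductSpace ℂ H2] [NormedAddCommGroup H3] [InnerProductSpace ℂ H3]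
    [NormedAddCommGroup K1] [InnerProductSpace ℂ K1] [CompleteSpace K1]
    [NormedAddCommGroup K2] [InnerProductSpace ℂ K2] [CompleteSpace K2]
    [NormedAddCommGroup K3] [InnerProductSpace ℂ K3] [CompleteSpace K3]
    (τ1 : Tens H1 L K1) (τ2 : Tens H2 L K2) (τ3 : Tens H3 L K3) (S : H2 →L[ℂ] H3) (T : H1 →L[ℂ] H2) (x : K1) :
    tm τ2 τ3 S (tm τ1 τ2 T x) = tm τ1 τ3 (S.comp T) x := by
  have h : (tm τ2 τ3 S).comp (tm τ1 τ2 T) = tm τ1 τ3 (S.comp T) := by
    refine tens_ext τ1 fun u w => ?_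
    rw [ContinuousLinearMap.comp_apply, tm_t, tm_t, tm_t, ContinuousLinearMap.comp_apply]
  exact congrArg (fun T => T x) h

private theorem py_t_h12 (hτ : IsTX τ) {A : Set X} (hA : MeasurableSet A) (x : XUa μ R) (w : L) :
    (pyV μ b R L).p A (τ.t x w) = τ.t ((pyU μ b R).p A x) w := by
  refine Subtype.ext ?_
  rw [hτ]
  change (xmU μ b (Lv G L)).py.p A ((τ.t x w : XVp μ R L) : UE μ (Lv G L)) =
    UE.map μ (mulF fun _ => w) ((xmU μ b (L2 G)).py.p A (x : UE μ (L2 G)))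
  rw [hτ]
  exact ((xmU_hom b (mulF fun _ => w)).y A hA _).symm

theorem DD_V (hτ' : ∀ φ w, τ'.t φ w = cl μ (mulF fun _ => w) φ) {V0 : Λ →* (Lv G L ≃ₗᵢ[ℂ] Lv G L)}
    (hV : ∀ (l : Λ) (f : L2 G) (w : L), V0 l (mulF (fun _ => w) f) = mulF (fun _ => w) (jjU (E.conj.U l) f)) (f v : G1) (x : XVp μ R L) :
    vg μ a V0 f (DD a E b τ τ' v x) = DD a E b τ τ' (f * v) x := by
  have hT : ∀ g v : G1, (tm τ' τ (TT μ a E R b (g * v))).comp (vg μ a V0 g) = tm τ' τ (TT μ a E R b v) := by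
    intro g v
    refine tens_ext τ' fun φ w => ?_
    have h1 : vg μ a V0 g (τ'.t φ w) = τ'.t (vg μ a (jjR E) g φ) w := by
      rw [hτ', hτ']
      exact (cl_vg a (fun l f => (hV l f w).symm) g φ).symm
    rw [ContinuousLinearMap.comp_apply, h1, tm_t, tm_t, TT_vg]
  refine ext_inner_left ℂ fun y => ?_
  have h2 := congrArg (fun T => T y) (hT f⁻¹ (f * v))
  simp only [ContinuousLinearMap.comp_apply, inv_mul_cancel_left] at h2
  rw [inner_vg_h12]
  unfold DD
  rw [ContinuousLinearMap.adjoint_inner_right, ContinuousLinearMap.adjoint_inner_right, h2]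

theorem DD_xE (hτ : IsTX τ) (hτ' : ∀ φ w, τ'.t φ w = cl μ (mulF fun _ => w) φ) (v : G1) {A : Set X} (hA : MeasurableSet A)
    (x : XVp μ R L) : xE μ (Lv G L) A (DD a E b τ τ' v x) =
      DD a E b τ τ' v ((pyV μ b R L).p ((fun x => v • x) ⁻¹' A) x) := by
  have hA' : MeasurableSet ((fun x : X => v • x) ⁻¹' A) := (measurable_const_smul v) hA
  have hT : (tm τ' τ (TT μ a E R b v)).comp (xE μ (Lv G L) A) =
      ((pyV μ b R L).p ((fun x => v • x) ⁻¹' A)).comp (tm τ' τ (TT μ a E R b v)) := by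
    refine tens_ext τ' fun φ w => ?_
    have h1 : xE μ (Lv G L) A (τ'.t φ w) = τ'.t (xE μ (L2 G) A φ) w := by
      rw [hτ', hτ']
      exact (cl_mx (mulF fun _ => w) (BM.ind hA) φ).symm
    rw [ContinuousLinearMap.comp_apply, ContinuousLinearMap.comp_apply, h1, tm_t, tm_t, TT_xE v hA, py_t_h12 hτ hA']
  refine ext_inner_left ℂ fun y => ?_
  have h2 := congrArg (fun T => T y) hT
  simp only [ContinuousLinearMap.comp_apply] at h2
  rw [← xE_symm hA]
  unfold DD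
  rw [ContinuousLinearMap.adjoint_inner_right, ContinuousLinearMap.adjoint_inner_right, h2]
  exact (pyV μ b R L).symm _ hA' _ _

theorem DD_DD (l m : G1) (x : XVp μ R L) : ContinuousLinearMap.adjoint (DD a E b τ τ' m) (DD a E b τ τ' l x) =
    tm τ τ ((TT μ a E R b m).comp (ContinuousLinearMap.adjoint (TT μ a E R b l))) x := by
  unfold DD
  rw [ContinuousLinearMap.adjoint_adjoint, tm_adjoint, tm_comp_h12]

theorem inner_DD (v : G1) (x : XVp μ R L) (w : L) :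
    inner ℂ (DD a E b τ τ' v x) (τ'.t (cst μ (dl 1)) w) = inner ℂ x (τ.t (XPpr R (vec μ a E fun n => b n * v⁻¹)) w) := by
  unfold DD
  rw [ContinuousLinearMap.adjoint_inner_left, tm_t, TT_one]

end Pool.Agent.Helper84.GN.S3.X
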