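import Pool.Agent.Helper9.S3X.Defs

/-!
# Project S3X, block K2: the twisted vectors

`tw_vecP`: on `UE μ (L2 G)`: `tw (xmU μ b (L2 G)).py (CRep.ext (BE μ G) E.conj) (a.a v) (vec μ a E b) = vec μ a E (fun n => b n * v⁻¹)`: `twy_zt` (`Helper66/FR/Zt3.lean`) and the cocycle identity `a.a (b n) (b n⁻¹ x) = a.a (b n * v⁻¹) (v b n⁻¹ x) * a.a v (b n⁻¹ x)`, see the proof of `opR_vec` (there `v` commutes with `b`, this is not needed before the last step). Then `XPpr R` intertwines (`opR_nat` is only for `opR`; use the lemma on `tw` behind it, in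
`Helper84/FR/TW.lean`, with `(hom_XPpr b).y` and `map_ext (XPpr_B R) E.conj`, compare `XPpr_opR` in `Helper84/FR/ET.lean`; `BE μ G = XBlim μ G`).
`norm_vecP`: with `η = XPpr R (vec b)`, `p_l = (pyU μ b R).p (a.a v ⁻¹' {l})`: `‖tw .. η‖^2 = ∑_l ‖p_l (tw .. η)‖^2` (`PV.norm_sq_sum`) `= ∑_l ‖ext (XBU R) E.conj l (p_l η)‖^2` (`tw_at`) `= ∑_l ‖p_l η‖^2` since `p_l η` is `XBU`-bounded (`bddX_vec`, `Bdd.map` by `XPpr R`; `norm_ext`, `Bdd.mem_VB` of `Helper84/NI`) `= ‖η‖^2`.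
-/

set_option autoImplicit false
set_option linter.unusedSectionVars false

open MeasureTheory Filter Topology

namespace Pool.Agent.Helper84.GN.S3.X

open NI GVN Pool.Agent.Helper90.RK
open Pool.Agent.Helper96.RK Pool.Agent.Helper66.FR Pool.Agent.Helper84.FR Pool.Agent.Helper55.FR

variable {G1 X G Λ : Type} [Group G1] [MeasurableSpace X] [MulAction G1 X] [MeasurableConstSMul G1 X]
  [Group G] [Group Λ] [Countable Λ] {μ : Measure X} [SMulInvariantMeasure G1 X μ] [IsProbabilityMeasure μ]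
  {a : Cocy G1 X Λ} {E : Emb Λ G}

variable {R : Reg G} {b : ℕ → G1}

private theorem tw_vec_h54 (v : G1) : tw (xmU μ b (L2 G)).py (CRep.ext (BE μ G) E.conj) (a.a v) (vec μ a E b) =
    vec μ a E fun n => b n * v⁻¹ := by
  unfold vec
  rw [twy_zt b (fun _ => mea_a _ _) (a.meas v)]
  congr 1
  funext n x
  have h1 := a.mul (b n) v⁻¹ (v • (b n)⁻¹ • x)
  rw [inv_smul_smul] at h1
  have h2 := a.inv v (v • (b n)⁻¹ • x)
  rw [inv_smul_smul] at h2
  rw [h2] at h1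
  rw [← h1]
  congr 1
  rw [mul_inv_rev, inv_inv, mul_smul]

theorem tw_vecP (v : G1) : tw (pyU μ b R) (CRep.ext (XBU R) E.conj) (a.a v) (XPpr R (vec μ a E b)) =
    XPpr R (vec μ a E fun n => b n * v⁻¹) := by
  rw [← tw_vec_h54 (b := b) v]
  exact (tw_nat (xmU μ b (L2 G)).py (CRep.ext (BE μ G) E.conj) (uhom_ext E.conj (mrep_UE (μ := μ) b).hB).py
    (a.meas v) (uhom_ext E.conj (mrep_XU (μ := μ) (R := R) b).hB).py (T := XPpr R)
    (fun A hA ξ => (hom_XPpr b).y A hA ξ)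
    (fun l ξ => map_ext (T := XPpr R) (XPpr_B R) E.conj l ξ) (vec μ a E b)).symm

theorem norm_vecP (v : G1) : ‖XPpr R (vec μ a E fun n => b n * v⁻¹)‖ = ‖XPpr R (vec μ a E b)‖ := by
  rw [← tw_vecP]
  have hP : PCom (pyU μ b R) (CRep.ext (XBU R) E.conj) :=
    (uhom_ext E.conj (mrep_XU (μ := μ) (R := R) b).hB).py
  have hm : ∀ l, MeasurableSet ((a.a v) ⁻¹' {l}) := a.meas v
  have h1 := (pyU μ b R).norm_sq_sum hm
    (tw (pyU μ b R) (CRep.ext (XBU R) E.conj) (a.a v) (XPpr R (vec μ a E b)))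
  have h2 := (pyU μ b R).norm_sq_sum hm (XPpr R (vec μ a E b))
  have h3 : (fun l => ‖(pyU μ b R).p ((a.a v) ⁻¹' {l})
      (tw (pyU μ b R) (CRep.ext (XBU R) E.conj) (a.a v) (XPpr R (vec μ a E b)))‖ ^ 2) =
      fun l => ‖(pyU μ b R).p ((a.a v) ⁻¹' {l}) (XPpr R (vec μ a E b))‖ ^ 2 := by
    funext l
    rw [tw_at (pyU μ b R) (CRep.ext (XBU R) E.conj) hP (a.meas v) l, hP _ (hm l)]
    congr 1
    have h4 := (hom_XPpr (μ := μ) (R := R) b).y _ (hm l) (vec μ a E b)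
    have h5 : Bdd (XBU R) (‖XPpr (μ := μ) R‖ * Real.sqrt (μ ((a.a v) ⁻¹' {l})).toReal)
        ((pyU μ b R).p ((a.a v) ⁻¹' {l}) (XPpr R (vec μ a E b))) := by
      have h6 := Bdd.map (A := BE μ G) (T := XPpr R) (XPpr_B R)
        (bddX_vec (b := b) (a := a) (E := E) (hm l))
      rw [h4] at h6
      exact h6
    exact norm_ext E.conj l h5.mem_VB
  rw [h3] at h1
  have h7 := h1.unique h2
  exact (sq_eq_sq₀ (norm_nonneg _) (norm_nonneg _)).1 h7

end Pool.Agent.Helper84.GN.S3.X
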