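import Pool.Agent.Helper9.S3X.Defs

/-!
# Project S3X, block T1: XVp and L²(X; ℓ²(G; L)) as tensor products

`exists_tXU`: `τ.t x w = ⟨UE.map μ (mulF fun _ => w) x, _⟩` (element of `XVp` by definition), bilinear (`UE.map_add`, `UE.map_smul` in `w`). `inner_t`: `UE.inner_map` with the adjoint of `mulF fun _ => v`: `(mulF v)* (mulF w) = ⟪v, w⟫ • id` (`lv_inner`), `UE.map_comp`, `UE.map_smul`, `UE.map_id`. `dense`: `XVp` is the closure of the span of these vectors (compare `Helper9/S3/A4b.lean`).
`exists_tXL`: `τ.t φ w = cl μ (mulF fun _ => w) φ`; `inner_t` in the same way (`inner_cl`, `cl_comp`). `dense`: let `x` be orthogonal to all `cl μ (mulF w) φ`. For `φ = xE μ (L2 G) s (cst μ f)` this vector is `xE μ (Lv G L) s (cst μ (mulF w f))` (`cl_mx`, `cl_cst`). The vectors `mulF w f` span a dense subspace of `Lv G L` (`exists_tG` of `Helper9/S3/A4a.lean`: a vector orthogonal to all of them is zero), so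
`⟪xE s (cst y), x⟫ = 0` for all `y : Lv G L` (continuity in `y`), and `x = 0` by `xl_induction` (`Helper66/FR/Zt5.lean`) for `P ψ := ⟪ψ, x⟫ = 0`.
-/

set_option autoImplicit false
set_option linter.unusedSectionVars false

open MeasureTheory Filter Topology

namespace Pool.Agent.Helper84.GN.S3.X

open NI GVN Pool.Agent.Helper90.RK
open Pool.Agent.Helper96.RK Pool.Agent.Helper66.FR Pool.Agent.Helper84.FR Pool.Agent.Helper55.FR

variable {G X : Type} [Group G] [MeasurableSpace X]

section Aux6

variable {L : Type} [NormedAddCommGroup L] [InnerProductSpace ℂ L]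

omit [Group G] [MeasurableSpace X] in
private theorem mulF_add6 (w w' : L) :
    (mulF (fun _ : G => w + w') : L2 G →L[ℂ] Lv G L) = mulF (fun _ => w) + mulF (fun _ => w') := by
  ext f : 1
  refine lv_ext fun γ => ?_
  change mulF (fun _ => w + w') f γ = mulF (fun _ => w) f γ + mulF (fun _ => w') f γ
  rw [mulF_apply (F := fun _ : G => w + w') (C := ‖w + w'‖) (fun _ => le_rfl),
    mulF_apply (F := fun _ : G => w) (C := ‖w‖) (fun _ => le_rfl),
    mulF_apply (F := fun _ : G => w') (C := ‖w'‖) (fun _ => le_rfl), smul_add]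

omit [Group G] [MeasurableSpace X] in
private theorem mulF_smul6 (c : ℂ) (w : L) :
    (mulF (fun _ : G => c • w) : L2 G →L[ℂ] Lv G L) = c • mulF (fun _ => w) := by
  ext f : 1
  refine lv_ext fun γ => ?_
  change mulF (fun _ => c • w) f γ = c • mulF (fun _ => w) f γ
  rw [mulF_apply (F := fun _ : G => c • w) (C := ‖c • w‖) (fun _ => le_rfl),
    mulF_apply (F := fun _ : G => w) (C := ‖w‖) (fun _ => le_rfl), smul_comm]

omit [Group G] [MeasurableSpace X] in
private theorem inner6 (v w : L) (x y : L2 G) :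
    inner ℂ (mulF (fun _ : G => v) x) (mulF (fun _ : G => w) y) = inner ℂ x y * inner ℂ v w := by
  refine (lv_inner _ _).unique ?_
  have e : (fun γ => inner ℂ (mulF (fun _ : G => v) x γ) (mulF (fun _ : G => w) y γ)) =
      fun γ => inner ℂ (x γ) (y γ) * inner ℂ v w := by
    funext γ
    rw [mulF_apply (F := fun _ : G => v) (C := ‖v‖) (fun _ => le_rfl),
      mulF_apply (F := fun _ : G => w) (C := ‖w‖) (fun _ => le_rfl), inner_smul_left, inner_smul_right,
      RCLike.inner_apply]
    ring
  rw [e]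
  exact (lv_inner x y).mul_right _

omit [Group G] [MeasurableSpace X] in
private theorem adj6 [CompleteSpace L] (v w : L) :
    (ContinuousLinearMap.adjoint (mulF (fun _ : G => v) : L2 G →L[ℂ] Lv G L)).comp
      (mulF (fun _ : G => w)) = (inner ℂ v w : ℂ) • ContinuousLinearMap.id ℂ (L2 G) := by
  ext y : 1
  refine ext_inner_left ℂ fun x => ?_
  change inner ℂ x (ContinuousLinearMap.adjoint (mulF (fun _ : G => v)) (mulF (fun _ : G => w) y)) =
    inner ℂ x ((inner ℂ v w : ℂ) • y)
  rw [ContinuousLinearMap.adjoint_inner_right, inner6, inner_smul_right, mul_comm]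

omit [Group G] [MeasurableSpace X] in
private theorem dense6 (x : Lv G L) (hx : ∀ (f : L2 G) (w : L), inner ℂ (mulF (fun _ : G => w) f) x = 0) :
    x = 0 := by
  classical
  have happ : ∀ (w : L) (f : L2 G) (γ : G), mulF (fun _ : G => w) f γ = f γ • w := fun w f γ =>
    mulF_apply (C := ‖w‖) (fun _ => le_rfl) f γ
  refine lv_ext fun γ => ?_
  have h1 := hx (dl γ) (x γ)
  have h2 := lv_inner (mulF (fun _ : G => x γ) (dl γ)) x
  rw [h1] at h2
  have h3 : HasSum (fun γ' => inner ℂ (mulF (fun _ : G => x γ) (dl γ) γ') (x γ'))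
      (inner ℂ (mulF (fun _ : G => x γ) (dl γ) γ) (x γ)) := by
    refine hasSum_single γ fun γ' hne => ?_
    rw [happ, dl_apply, if_neg hne, zero_smul, inner_zero_left]
  have h4 := h3.unique h2
  rw [happ, dl_self, one_smul] at h4
  exact inner_self_eq_zero.1 h4

private theorem memX6 {μ : Measure X} (R : Reg G) (w : L) (a : XUa μ R) :
    UE.map μ (mulF fun _ => w) (a : UE μ (L2 G)) ∈ XVp μ R L :=
  Submodule.le_topologicalClosure _ (Submodule.subset_span ⟨w, a, a.2, rfl⟩)

omit [Group G] in
private theorem innerX6 [CompleteSpace L] {μ : Measure X} (v w : L) (a b : UE μ (L2 G)) :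
    inner ℂ (UE.map μ (mulF fun _ => v) a : UE μ (Lv G L)) (UE.map μ (mulF fun _ => w) b) =
      inner ℂ a b * inner ℂ v w := by
  rw [UE.inner_map, ← UE.map_comp, adj6, UE.map_smul, UE.map_id, inner_smul_right, mul_comm]

omit [Group G] in
private theorem innerL6 [CompleteSpace L] {μ : Measure X} (v w : L) (a b : XL μ (L2 G)) :
    inner ℂ (cl μ (mulF fun _ => v) a : XL μ (Lv G L)) (cl μ (mulF fun _ => w) b) =
      inner ℂ a b * inner ℂ v w := by
  rw [inner_cl, ← cl_comp, adj6, cl_smul]
  change inner ℂ a ((inner ℂ v w : ℂ) • cl μ (ContinuousLinearMap.id ℂ (L2 G)) b) = _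
  rw [cl_id, inner_smul_right, mul_comm]

end Aux6

theorem exists_tXU (μ : Measure X) (R : Reg G) (L : Type) [NormedAddCommGroup L] [InnerProductSpace ℂ L] [CompleteSpace L] :
    ∃ τ : Tens (XUa μ R) L (XVp μ R L), IsTX τ := by
  refine ⟨⟨LinearMap.mk₂ ℂ (fun (a : XUa μ R) (w : L) => (⟨UE.map μ (mulF fun _ => w) (a : UE μ (L2 G)), memX6 R w a⟩ : XVp μ R L))
    (fun a a' w => Subtype.ext (map_add (UE.map μ (mulF fun _ => w)) _ _))
    (fun c a w => Subtype.ext (map_smul (UE.map μ (mulF fun _ => w)) _ _))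
    (fun a w w' => Subtype.ext ?_) (fun c a w => Subtype.ext ?_), ?_, ?_⟩, fun a w => rfl⟩
  · change UE.map μ (mulF fun _ => w + w') (a : UE μ (L2 G)) = UE.map μ (mulF fun _ => w) (a : UE μ (L2 G)) +
      UE.map μ (mulF fun _ => w') (a : UE μ (L2 G))
    rw [← UE.map_add, mulF_add6]
  · change UE.map μ (mulF fun _ => c • w) (a : UE μ (L2 G)) = c • UE.map μ (mulF fun _ => w) (a : UE μ (L2 G))
    rw [← UE.map_smul, mulF_smul6]
  · intro a b v w
    exact innerX6 v w (a : UE μ (L2 G)) (b : UE μ (L2 G))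
  · intro x hx
    have h1 : (x : UE μ (Lv G L)) ∈ (Submodule.span ℂ {ξ | ∃ (w : L) (a : UE μ (L2 G)), a ∈ XUa μ R ∧
        ξ = UE.map μ (mulF fun _ => w) a})ᗮ := by
      rw [Submodule.mem_orthogonal]
      intro u hu
      induction hu using Submodule.span_induction with
      | mem y hy =>
        obtain ⟨w, a, ha, rfl⟩ := hy
        exact hx ⟨a, ha⟩ w
      | zero => exact inner_zero_left _
      | add y z _ _ hy hz => rw [inner_add_left, hy, hz, add_zero]
      | smul c y _ hy => rw [inner_smul_left, hy, mul_zero]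
    rw [← Submodule.orthogonal_closure] at h1
    have h2 : inner ℂ (x : UE μ (Lv G L)) (x : UE μ (Lv G L)) = 0 :=
      Submodule.inner_right_of_mem_orthogonal x.2 h1
    exact Subtype.ext (inner_self_eq_zero.1 h2)

theorem exists_tXL (μ : Measure X) [IsProbabilityMeasure μ] (G L : Type) [Group G] [NormedAddCommGroup L] [InnerProductSpace ℂ L]
    [CompleteSpace L] : ∃ τ : Tens (XL μ (L2 G)) L (XL μ (Lv G L)), ∀ φ w, τ.t φ w = cl μ (mulF fun _ => w) φ := by
  refine ⟨⟨LinearMap.mk₂ ℂ (fun (a : XL μ (L2 G)) (w : L) => cl μ (mulF fun _ => w) a)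
    (fun a a' w => map_add _ _ _) (fun c a w => map_smul _ _ _) (fun a w w' => ?_) (fun c a w => ?_), ?_, ?_⟩,
    fun a w => rfl⟩
  · rw [mulF_add6, cl_add]
    rfl
  · rw [mulF_smul6, cl_smul]
    rfl
  · intro a b v w
    exact innerL6 v w a b
  · intro x hx
    have h1 : ∀ ψ : XL μ (Lv G L), inner ℂ ψ x = 0 := by
      intro ψ
      refine xl_induction (P := fun ψ => inner ℂ ψ x = 0) (fun s hs v => ?_) (fun f g h1 h2 => by
        rw [inner_add_left, h1, h2, add_zero])
        (isClosed_eq (continuous_id.inner continuous_const) continuous_const) ψ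
      let T : Lv G L →L[ℂ] XL μ (Lv G L) := (xE μ (Lv G L) s).comp (cst μ).toContinuousLinearMap
      have h2 : ContinuousLinearMap.adjoint T x = 0 := by
        refine dense6 _ fun f w => ?_
        rw [ContinuousLinearMap.adjoint_inner_right]
        have h3 : T (mulF (fun _ : G => w) f) = cl μ (mulF fun _ => w) (xE μ (L2 G) s (cst μ f)) := by
          change xE μ (Lv G L) s (cst μ (mulF (fun _ : G => w) f)) = _
          unfold xE
          rw [cl_mx _ (BM.ind hs), cl_cst]
        rw [h3]
        exact hx _ w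
      have h4 : inner ℂ (T v) x = inner ℂ v (ContinuousLinearMap.adjoint T x) :=
        (ContinuousLinearMap.adjoint_inner_right T v x).symm
      rw [h2, inner_zero_right] at h4
      exact h4
    exact inner_self_eq_zero.1 (h1 x)

end Pool.Agent.Helper84.GN.S3.X
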