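import Pool.Agent.Helper9.S3X.Defs

/-!
# Project S3X, block XJ: the fibrewise intertwiner J

`exists_J0` (`Helper84/NI/J3.lean`) gives `Y` and an isometry `J0 : K0 → L2 (Λ × Y)` with `J0 (U0 m v) (l, y) = J0 v (m⁻¹ * l, y)`. `j y : K0 →L[ℂ] L2 Λ`, `j y v l = J0 v (l, y)` (norm at most one; `∑_y ‖j y v‖^2 = ‖v‖^2` by `HasSum` over `Λ × Y`, `lv_hasSum`, `HasSum.prod_fiberwise` after swapping), `j y (U0 m v) = lamU m (j y v)`.
Put `J ξ y = cl μ (j y) ξ`. It is in `Lv Y _` with `‖J ξ‖ ≤ ‖ξ‖`: for finite `t ⊆ Y` `∑_{y ∈ t} ‖cl μ (j y) ξ‖^2 ≤ ‖ξ‖^2` (`cl_sum_sq_le`). Isometry: it is enough that `⟪J ξ, J η⟫ = ⟪ξ, η⟫` for all `ξ`, `η`; both sides are continuous and additive in `ξ` and `η`, so by `xl_induction` (`Helper66/FR/Zt5.lean`) twice one may take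
`ξ = xE s (cst v)`, `η = xE s' (cst v')`: `⟪J ξ, J η⟫ = ∑_y ⟪cl (j y) ξ, cl (j y) η⟫ = ∑_y μ(s ∩ s') ⟪j y v, j y v'⟫ = μ(s ∩ s') ⟪v, v'⟫` (`cl_xE`-type lemma `cl_mx`, `cl_cst`, `xl_inner`, `lv_inner`; the polarised form of `∑_y ‖j y v‖^2 = ‖v‖^2` is `J0.inner_map_map`). (`Y` may be uncountable, so do not interchange sum and integral directly.)
The two intertwining relations: pointwise a.e. as in block V1: `cl μ (j y) (vg μ a U0 f x) = vop μ a f (cl μ (j y) x)` (`vop_apply`, `Helper66/FR/Zt4.lean`) and `cl_mx`.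
-/

set_option autoImplicit false
set_option linter.unusedSectionVars false

open MeasureTheory Filter Topology

namespace Pool.Agent.Helper84.GN.S3.X

open NI GVN Pool.Agent.Helper90.RK
open Pool.Agent.Helper96.RK Pool.Agent.Helper66.FR Pool.Agent.Helper84.FR Pool.Agent.Helper55.FR

section Aux50

private theorem col50 {I H L : Type} [NormedAddCommGroup H] [InnerProductSpace ℂ H] [NormedAddCommGroup L]
    [InnerProductSpace ℂ L] (T : I → (H →L[ℂ] L)) (hT : ∀ (s : Finset I) (x : H), ∑ i ∈ s, ‖T i x‖ ^ 2 ≤ ‖x‖ ^ 2) :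
    ∃ B : H →L[ℂ] Lv I L, ∀ x i, B x i = T i x := by
  have hs : ∀ x, Summable fun i => ‖T i x‖ ^ 2 := fun x =>
    summable_of_sum_le (fun i => sq_nonneg _) fun s => hT s x
  let B0 : H →ₗ[ℂ] Lv I L :=
    { toFun := fun x => ⟨fun i => T i x, lv_mem (hs x)⟩
      map_add' := fun x y => by
        apply lv_ext
        intro i
        exact map_add (T i) x y
      map_smul' := fun c x => by
        apply lv_ext
        intro i
        exact map_smul (T i) c x }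
  refine ⟨B0.mkContinuous 1 fun x => ?_, fun x i => rfl⟩
  rw [one_mul]
  have h1 : ‖B0 x‖ ^ 2 ≤ ‖x‖ ^ 2 := by
    rw [lv_norm_sq]
    exact (hs x).tsum_le_of_sum_le fun s => hT s x
  exact le_of_sq_le_sq h1 (norm_nonneg _)

private theorem slice50 {Λ Y : Type} (f : L2 (Λ × Y)) :
    ∃ g : Y → L2 Λ, (∀ y l, g y l = f (l, y)) ∧ HasSum (fun y => ‖g y‖ ^ 2) (‖f‖ ^ 2) := by
  have h1 : HasSum (fun p : Y × Λ => ‖f (p.2, p.1)‖ ^ 2) (‖f‖ ^ 2) :=
    (Equiv.prodComm Y Λ).hasSum_iff.2 (lv_hasSum f)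
  have h2 : ∀ y, Summable fun l => ‖f (l, y)‖ ^ 2 := fun y => h1.summable.prod_factor y
  let g : Y → L2 Λ := fun y => ⟨fun l => f (l, y), lv_mem (h2 y)⟩
  exact ⟨g, fun y l => rfl, h1.prod_fiberwise fun y => lv_hasSum (g y)⟩

private theorem xE_inner50 {X H : Type} [MeasurableSpace X] {μ : Measure X} [IsProbabilityMeasure μ]
    [NormedAddCommGroup H] [InnerProductSpace ℂ H] [CompleteSpace H] {s t : Set X} (hs : MeasurableSet s)
    (ht : MeasurableSet t) (v w : H) :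
    inner ℂ (xE μ H s (cst μ v)) (xE μ H t (cst μ w)) = (μ.real (s ∩ t) : ℂ) * inner ℂ v w := by
  rw [xl_inner]
  have h1 : ∫ x, inner ℂ (xE μ H s (cst μ v) x) (xE μ H t (cst μ w) x) ∂μ =
      ∫ x, (s ∩ t).indicator (fun _ => inner ℂ v w) x ∂μ := by
    refine integral_congr_ae ?_
    filter_upwards [xE_apply hs (cst μ v), xE_apply ht (cst μ w), cst_apply (μ := μ) v, cst_apply (μ := μ) w]
      with x h1 h2 h3 h4
    rw [h1, h2, h3, h4]
    by_cases h5 : x ∈ s <;> by_cases h6 : x ∈ t <;> simp [h5, h6]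
  rw [h1, integral_indicator_const _ (hs.inter ht), Complex.real_smul]

end Aux50

variable {F X Λ : Type} [Group F] [MeasurableSpace X] [MulAction F X] [MeasurableConstSMul F X] [Group Λ] [Countable Λ]
variable {μ : Measure X} [SMulInvariantMeasure F X μ] [IsProbabilityMeasure μ]
variable {K0 : Type} [NormedAddCommGroup K0] [InnerProductSpace ℂ K0] [CompleteSpace K0]

theorem exists_XJ (U0 : Λ →* (K0 ≃ₗᵢ[ℂ] K0)) (hd : Dense (BddSub U0 : Set K0)) (a : Cocy F X Λ) :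
    ∃ (Y : Type) (J : XL μ K0 →ₗᵢ[ℂ] Lv Y (XL μ (L2 Λ))),
      (∀ (f : F) x y, J (vg μ a U0 f x) y = vop μ a f (J x y)) ∧
        ∀ (D : Set X), MeasurableSet D → ∀ x y, J (xE μ K0 D x) y = xE μ (L2 Λ) D (J x y) := by
  obtain ⟨Y, J0, hJ0⟩ := exists_J0 U0 hd
  have hsl : ∀ v : K0, ∃ g : Y → L2 Λ, (∀ y l, g y l = J0 v (l, y)) ∧ HasSum (fun y => ‖g y‖ ^ 2) (‖v‖ ^ 2) := by
    intro v
    obtain ⟨g, h1, h2⟩ := slice50 (J0 v)
    rw [J0.norm_map] at h2
    exact ⟨g, h1, h2⟩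
  choose g hg hgs using hsl
  have hle : ∀ y v, ‖g v y‖ ≤ ‖v‖ := by
    intro y v
    have h1 : ‖g v y‖ ^ 2 ≤ ‖v‖ ^ 2 := le_hasSum (hgs v) y fun _ _ => sq_nonneg _
    exact le_of_sq_le_sq h1 (norm_nonneg _)
  let j : Y → (K0 →L[ℂ] L2 Λ) := fun y =>
    LinearMap.mkContinuous
      { toFun := fun v => g v y
        map_add' := fun v w => by
          apply lv_ext
          intro l
          change g (v + w) y l = g v y l + g w y l
          rw [hg, hg, hg, map_add]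
          rfl
        map_smul' := fun c v => by
          apply lv_ext
          intro l
          change g (c • v) y l = c • g v y l
          rw [hg, hg, map_smul]
          rfl } 1 (fun v => by
        rw [one_mul]
        exact hle y v)
  have hj : ∀ y v l, j y v l = J0 v (l, y) := fun y v l => hg v y l
  have hjs : ∀ v, HasSum (fun y => ‖j y v‖ ^ 2) (‖v‖ ^ 2) := hgs
  have hjf : ∀ (s : Finset Y) (v : K0), ∑ y ∈ s, ‖j y v‖ ^ 2 ≤ ‖v‖ ^ 2 := fun s v =>
    sum_le_hasSum s (fun _ _ => sq_nonneg _) (hjs v)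
  obtain ⟨B1, hB1⟩ := col50 j hjf
  have hB1n : ∀ v, ‖B1 v‖ = ‖v‖ := by
    intro v
    have h1 := lv_hasSum (B1 v)
    simp_rw [hB1] at h1
    exact (sq_eq_sq₀ (norm_nonneg _) (norm_nonneg _)).1 (h1.unique (hjs v))
  let B1i : K0 →ₗᵢ[ℂ] Lv Y (L2 Λ) := ⟨B1.toLinearMap, hB1n⟩
  have hjin : ∀ v w, HasSum (fun y => inner ℂ (j y v) (j y w)) (inner ℂ v w) := by
    intro v w
    have h1 := lv_inner (B1i v) (B1i w)
    rw [B1i.inner_map_map] at h1
    have h2 : ∀ v y, B1i v y = j y v := hB1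
    simp_rw [h2] at h1
    exact h1
  obtain ⟨B, hB⟩ := col50 (fun y => cl μ (j y)) (fun s ξ => by
    have h1 := cl_sum_sq_le (μ := μ) s j (C := 1) (fun v => by
      rw [one_mul]
      exact hjf s v) ξ
    rwa [one_mul] at h1)
  have hin : ∀ ξ η, inner ℂ (B ξ) (B η) = inner ℂ ξ η := by
    intro ξ η
    refine xl_induction (P := fun ξ => inner ℂ (B ξ) (B η) = inner ℂ ξ η) (fun s hs v => ?_)
      (fun ξ1 ξ2 h1 h2 => by rw [map_add, inner_add_left, inner_add_left, h1, h2])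
      (isClosed_eq (B.continuous.inner continuous_const) (continuous_id.inner continuous_const)) ξ
    refine xl_induction (P := fun η => inner ℂ (B (xE μ K0 s (cst μ v))) (B η) =
      inner ℂ (xE μ K0 s (cst μ v)) η) (fun t ht w => ?_)
      (fun ξ1 ξ2 h1 h2 => by rw [map_add, inner_add_right, inner_add_right, h1, h2])
      (isClosed_eq (continuous_const.inner B.continuous) (continuous_const.inner continuous_id)) η
    rw [xE_inner50 hs ht]
    have h1 := lv_inner (B (xE μ K0 s (cst μ v))) (B (xE μ K0 t (cst μ w)))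
    have h2 : ∀ y, inner ℂ (B (xE μ K0 s (cst μ v)) y) (B (xE μ K0 t (cst μ w)) y) =
        (μ.real (s ∩ t) : ℂ) * inner ℂ (j y v) (j y w) := by
      intro y
      rw [hB, hB]
      have h3 : ∀ (s : Set X), MeasurableSet s → ∀ v, cl μ (j y) (xE μ K0 s (cst μ v)) =
          xE μ (L2 Λ) s (cst μ (j y v)) := by
        intro s hs v
        unfold xE
        rw [cl_mx (j y) (BM.ind hs), cl_cst]
      rw [h3 s hs, h3 t ht, xE_inner50 hs ht]
    simp_rw [h2] at h1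
    exact h1.unique ((hjin v w).mul_left _)
  have hBn : ∀ ξ, ‖B ξ‖ = ‖ξ‖ := by
    intro ξ
    have h1 : ‖B ξ‖ ^ 2 = ‖ξ‖ ^ 2 := by
      rw [norm_sq_eq_re_inner (𝕜 := ℂ) (B ξ), norm_sq_eq_re_inner (𝕜 := ℂ) ξ, hin]
    exact (sq_eq_sq₀ (norm_nonneg _) (norm_nonneg _)).1 h1
  have hjl : ∀ y m v, j y (U0 m v) = lamU m (j y v) := by
    intro y m v
    apply lv_ext
    intro l
    rw [hj, hJ0]
    exact (hj y v (m⁻¹ * l)).symm
  refine ⟨Y, ⟨B.toLinearMap, hBn⟩, fun f ξ y => ?_, fun D hD ξ y => ?_⟩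
  · change B (vg μ a U0 f ξ) y = vop μ a f (B ξ y)
    rw [hB, hB]
    refine xl_ext ?_
    filter_upwards [cl_apply (j y) (vg μ a U0 f ξ), vg_apply a U0 f ξ, vop_apply a f (cl μ (j y) ξ),
      (measurePreserving_smul f⁻¹ μ).quasiMeasurePreserving.ae (cl_apply (j y) ξ)] with x h1 h2 h3 h4
    rw [h1, h2, h3, h4, hjl]
  · change B (xE μ K0 D ξ) y = xE μ (L2 Λ) D (B ξ y)
    rw [hB, hB]
    unfold xE
    exact cl_mx (j y) (BM.ind hD) ξ

end Pool.Agent.Helper84.GN.S3.X
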