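import Pool.Agent.Helper9.S3.A4a
import Pool.Agent.Helper9.S3.A5b
import Pool.Agent.Helper9.S3.A6a
import Pool.Agent.Helper9.S3X.XJ
import Pool.Agent.Helper9.S3X.H2
import Pool.Agent.Helper9.S3X.T1
import Pool.Agent.Helper9.S3X.K2
import Pool.Agent.Helper9.S3X.A7c
import Pool.Agent.Helper9.S3X.A7d
import Pool.Agent.Helper9.S3X.D1

/-!
# Project S3X, block D2: the dilation theorem

See `Helper9/S3/A9.lean`: `D v = DD v`, `nn D`, the system `xmX` restricted to `nn D`, `hull3`, `final3`.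
-/

set_option autoImplicit false
set_option linter.unusedSectionVars false

open MeasureTheory Filter Topology

namespace Pool.Agent.Helper84.GN.S3.X

open NI GVN Pool.Agent.Helper90.RK
open Pool.Agent.Helper96.RK Pool.Agent.Helper66.FR Pool.Agent.Helper84.FR Pool.Agent.Helper55.FR

section Aux

variable {K1 K2 ι : Type} [NormedAddCommGroup K1] [InnerProductSpace ℂ K1] [CompleteSpace K1]
  [NormedAddCommGroup K2] [InnerProductSpace ℂ K2] [CompleteSpace K2]

private theorem d2_comp {D : ι → (K1 →L[ℂ] K2)} {N N' : K1 →L[ℂ] K1} (h : CommD D N)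
    (h' : CommD D N') : CommD D (N.comp N') := by
  intro l m x
  rw [ContinuousLinearMap.comp_apply, h' l m x, h l m (N' x)]
  rfl

private theorem d2_sub {D : ι → (K1 →L[ℂ] K2)} {N N' : K1 →L[ℂ] K1} (h : CommD D N)
    (h' : CommD D N') : CommD D (N - N') := by
  intro l m x
  rw [_root_.sub_apply, h l m x, h' l m x, _root_.sub_apply, map_sub, map_sub]

/-- Invariance of the closed span of the ranges. -/
private theorem d2_inv {D : ι → (K1 →L[ℂ] K2)} {T : K2 →L[ℂ] K2} (h : ∀ l x, T (D l x) ∈ nn D) :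
    ∀ y ∈ nn D, T y ∈ nn D := by
  have hle : nn D ≤ (nn D).comap (T : K2 →ₗ[ℂ] K2) := by
    refine Submodule.topologicalClosure_minimal _ (Submodule.span_le.2 ?_) ?_
    · rintro _ ⟨l, x, rfl⟩
      exact h l x
    · exact (Submodule.isClosed_topologicalClosure _).preimage T.continuous
  exact fun y hy => hle hy

end Aux

section Aux2

variable {X : Type} [MeasurableSpace X] {μ : Measure X} {H : Type} [NormedAddCommGroup H] [InnerProductSpace ℂ H]

private theorem d2_xE {A : Set X} (hA : ¬ MeasurableSet A) : xE μ H A = 0 := by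
  unfold xE mx
  rw [dif_neg]
  rintro ⟨C, hC, -⟩
  apply hA
  have h1 : MeasurableSet ((A.indicator fun _ => (1 : ℂ)) ⁻¹' {1}) := hC (measurableSet_singleton 1)
  convert h1 using 1
  ext x
  by_cases hx : x ∈ A <;> simp [hx]

end Aux2

variable {G1 X G Λ : Type} [Group G1] [MeasurableSpace X] [MulAction G1 X] [MeasurableConstSMul G1 X]
  [Group G] [Group Λ] [Countable Λ] {μ : Measure X} [SMulInvariantMeasure G1 X μ] [IsProbabilityMeasure μ]
  {a : Cocy G1 X Λ} {E : Emb Λ G} {R : Reg G} {b : ℕ → G1}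
  {L : Type} [NormedAddCommGroup L] [InnerProductSpace ℂ L] [CompleteSpace L]

/-- The dilation theorem. -/
theorem dilationX (F : Subgroup G1) [Countable F] (Γ : Coc R L) (b : ℕ → G1) (pd : PD G)
    (hloc : ∀ l ∈ F, ∀ m ∈ F, LocX R pd ((TT μ a E R b m).comp (ContinuousLinearMap.adjoint (TT μ a E R b l))))
    (hpi : ∀ h, PCF R pd fun γ => ((Γ.pi 1 h γ).toContinuousLinearEquiv : L →L[ℂ] L))
    (hD : ∀ (Q : Finset G) (ε : ℝ), 0 < ε → ∃ D : Mul Γ Q ε, ∀ t, PCF R pd fun γ => D.mo γ t)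
    (p : X → Λ → F) (hp : ∀ l g, MeasurableSet {x | p x l = g})
    (hpe : ∀ (f : F) (x : X) (l : Λ), p ((f : G1) • x) (a.a f x * l) = f * p x l)
    {c : ℝ} (hc : 0 < c)
    (hlow : ∀ v ∈ F, c ≤ (inner ℂ (XTL μ Γ (XPpr R (vec μ a E fun n => b n * v⁻¹)))
      (XTR μ Γ (XPpr R (vec μ a E fun n => b n * v⁻¹))) : ℂ).re) :
    ¬ NonAm F := by
  intro hΛ
  obtain ⟨τG, hτG⟩ := exists_tG G L
  obtain ⟨τ, hτ⟩ := exists_tXU μ R L
  obtain ⟨τ', hτ'⟩ := exists_tXL μ G L
  obtain ⟨V0, hV0, hVd⟩ := exists_V E τG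
  have hmt : ∀ (f : L2 G) (w : L), mulF (fun _ => w) f = τG.t f w := by
    intro f w
    refine lv_ext fun γ => ?_
    rw [mulF_apply (C := ‖w‖) (fun _ => le_rfl), hτG]
  have hV : ∀ (l : Λ) (f : L2 G) (w : L), V0 l (mulF (fun _ => w) f) = mulF (fun _ => w) (jjU (E.conj.U l) f) := by
    intro l f w
    rw [hmt, hmt, hV0]
  let aF : Cocy F X Λ := cres a F
  have i1 : MeasurableConstSMul F X := ⟨fun g => measurable_const_smul (g : G1)⟩
  have i2 : SMulInvariantMeasure F X μ := ⟨fun g _ hs => SMulInvariantMeasure.measure_preimage_smul (g : G1) hs⟩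
  obtain ⟨Y, J0, hJV, hJP⟩ := exists_XJ (μ := μ) V0 hVd aF
  -- the operators `D v`
  let D : F → (XVp μ R L →L[ℂ] XL μ (Lv G L)) := fun v => DD a E b τ τ' (v : G1)
  have hTn : ∀ v : G1, ‖TT μ a E R b v‖ ≤ 1 := fun v => (TT μ a E R b v).opNorm_le_bound zero_le_one fun f => by
    rw [one_mul]
    exact norm_TT_le v f
  have hDn : ∀ (v : F) x, ‖D v x‖ ≤ ‖x‖ := by
    intro v x
    have h1 : ‖tm τ' τ (TT μ a E R b (v : G1))‖ ≤ 1 := ContinuousLinearMap.opNorm_le_bound _ zero_le_one fun y =>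
      (norm_tm_le τ' τ _ y).trans (mul_le_mul_of_nonneg_right (hTn _) (norm_nonneg _))
    have h2 := (ContinuousLinearMap.adjoint (tm τ' τ (TT μ a E R b (v : G1)))).le_opNorm x
    rw [LinearIsometryEquiv.norm_map] at h2
    calc ‖D v x‖ ≤ ‖tm τ' τ (TT μ a E R b (v : G1))‖ * ‖x‖ := h2
      _ ≤ 1 * ‖x‖ := mul_le_mul_of_nonneg_right h1 (norm_nonneg x)
      _ = ‖x‖ := one_mul _
  -- the system on `L²(X; ℓ²(G; L))`
  let M0 : XM F X (XL μ (Lv G L)) := xmX μ aF V0
  have hM0S : ∀ (f v : F) x, M0.S f (D v x) = D (f * v) x := fun f v x => DD_V hτ' hV (f : G1) (v : G1) x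
  have hM0p : ∀ (v : F) (A : Set X), MeasurableSet A → ∀ x, M0.py.p A (D v x) =
      D v ((pyV μ b R L).p ((fun x => (v : G1) • x) ⁻¹' A) x) := fun v A hA x => DD_xE hτ hτ' (v : G1) hA x
  have hpn : ∀ (A : Set X), ∀ x ∈ nn D, M0.py.p A x ∈ nn D := by
    intro A
    by_cases hA : MeasurableSet A
    · refine d2_inv fun v x => ?_
      rw [hM0p v A hA]
      exact mem_nn D _ _
    · intro x _
      have h : M0.py.p A = 0 := d2_xE hA
      rw [h]
      exact (nn D).zero_mem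
  have hInv : M0.Inv (nn D) := ⟨fun f => d2_inv (T := ((M0.S f).toContinuousLinearEquiv : XL μ (Lv G L) →L[ℂ] XL μ (Lv G L)))
    fun v x => by
      change M0.S f (D v x) ∈ nn D
      rw [hM0S]
      exact mem_nn D _ _, hpn, hpn⟩
  let M : XM F X (nn D) := M0.restrict (nn D) hInv
  have hMS : ∀ (f v : F) x, M.S f (Dn D v x) = Dn D (f * v) x := fun f v x => Subtype.ext (hM0S f v x)
  have hMp : ∀ (v : F) (A : Set X), MeasurableSet A → ∀ x, M.py.p A (Dn D v x) =
      Dn D v ((pyV μ b R L).p ((fun x => (v : G1) • x) ⁻¹' A) x) := fun v A hA x => Subtype.ext (hM0p v A hA x)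
  -- operators commuting with `D m* D l`
  have hDD : ∀ (l m : F) x, ContinuousLinearMap.adjoint (D m) (D l x) =
      tm τ τ ((TT μ a E R b (m : G1)).comp (ContinuousLinearMap.adjoint (TT μ a E R b (l : G1)))) x :=
    fun l m x => DD_DD (l : G1) (m : G1) x
  have hTadj : ∀ (l : G1) g (y : XUa μ R), ContinuousLinearMap.adjoint (TT μ a E R b l) (XBU R g y) =
      cl μ ((lamU g).toContinuousLinearEquiv : L2 G →L[ℂ] L2 G) (ContinuousLinearMap.adjoint (TT μ a E R b l) y) := by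
    intro l g y
    refine ext_inner_right ℂ fun f => ?_
    obtain ⟨f, rfl⟩ := (clU μ (lamU g)).surjective f
    change _ = inner ℂ (clU μ (lamU g) _) (clU μ (lamU g) f)
    rw [LinearIsometryEquiv.inner_map_map, ContinuousLinearMap.adjoint_inner_left,
      ContinuousLinearMap.adjoint_inner_left]
    have h1 : TT μ a E R b l (clU μ (lamU g) f) = XBU R g (TT μ a E R b l f) := TT_lam l g f
    rw [h1, LinearIsometryEquiv.inner_map_map]
  have hBc : ∀ h, CommD D ((XBV μ Γ h).toContinuousLinearEquiv : XVp μ R L →L[ℂ] XVp μ R L) := by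
    intro h l m x
    rw [hDD]
    have e := commD_XBV Γ τ hτ (hloc l l.2 m m.2) (h := h) (fun x => by
      rw [ContinuousLinearMap.comp_apply, hTadj, TT_lam]
      rfl) (hpi h) x
    exact e.symm.trans (hDD l m _).symm
  have hMc : ∀ {Q : Finset G} {ε : ℝ} (D' : Mul Γ Q ε), (∀ t, PCF R pd fun γ => D'.mo γ t) →
      ∀ M : G → (XVp μ R L →L[ℂ] XVp μ R L),
      (∀ t (x : XVp μ R L), ((M t x : XVp μ R L) : UE μ (Lv G L)) = UE.map μ (dg fun γ => D'.mo γ t) (x : UE μ (Lv G L))) →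
      ∀ t, CommD D (M t) := by
    intro Q ε D' hP M hM t l m x
    have hb : ∀ γ (f : L), ‖D'.mo γ t f‖ ≤ 1 * ‖f‖ := by
      intro γ f
      by_cases ht : t ∈ D'.supp
      · have h := Finset.single_le_sum (f := fun t => ‖D'.mo γ t f‖ ^ 2) (fun _ _ => sq_nonneg _) ht
        rw [D'.sum] at h
        rw [one_mul]
        exact (sq_le_sq₀ (norm_nonneg _) (norm_nonneg _)).1 h
      · rw [D'.off γ t ht, _root_.zero_apply, norm_zero, one_mul]
        exact norm_nonneg _
    rw [hDD, hDD]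
    exact (loc_fieldX τ hτ (hloc l l.2 m m.2) (hP t) hb (M t) (hM t) x).symm
  -- the representation on `nn D`
  obtain ⟨B', hB'⟩ := exists_rep D (XBV μ Γ) hBc
  have hBp : ∀ (h : G) (A : Set X), MeasurableSet A → ∀ x : XVp μ R L, XBV μ Γ h ((pyV μ b R L).p A x) =
      (pyV μ b R L).p A (XBV μ Γ h x) := fun h A hA x => ((mrep_XV b Γ).hB h).y A hA x
  have hBM : ∀ g, M.Hom M ((B' g).toContinuousLinearEquiv : nn D →L[ℂ] nn D) := by
    intro g
    have hy : ∀ A : Set X, MeasurableSet A → ∀ y, B' g (M.py.p A y) = M.py.p A (B' g y) := by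
      intro A hA y
      have h : (((B' g).toContinuousLinearEquiv : nn D →L[ℂ] nn D)).comp (M.py.p A) =
          (M.py.p A).comp ((B' g).toContinuousLinearEquiv : nn D →L[ℂ] nn D) := by
        refine nn_ext D fun l x => ?_
        change B' g (M.py.p A (Dn D l x)) = M.py.p A (B' g (Dn D l x))
        rw [hMp l A hA, hB', hB', hMp l A hA, hBp _ _ (measurable_const_smul (l : G1) hA)]
      exact DFunLike.congr_fun h y
    refine ⟨fun f y => ?_, hy, hy⟩
    have h : (((B' g).toContinuousLinearEquiv : nn D →L[ℂ] nn D)).comp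
        ((M.S f).toContinuousLinearEquiv : nn D →L[ℂ] nn D) =
        (((M.S f).toContinuousLinearEquiv : nn D →L[ℂ] nn D)).comp
        ((B' g).toContinuousLinearEquiv : nn D →L[ℂ] nn D) := by
      refine nn_ext D fun l x => ?_
      change B' g (M.S f (Dn D l x)) = M.S f (B' g (Dn D l x))
      rw [hB', hMS, hMS, hB']
    exact DFunLike.congr_fun h y
  -- the vector `η₀`
  set z0 : XUa μ R := XPpr R (vec μ a E b) with hz0
  let η₀ : nn D := Dn D 1 (XTL μ Γ z0)
  have hη₀ : BddX M μ B' η₀ := by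
    intro A hA
    have e0 : (fun x => ((1 : F) : G1) • x) ⁻¹' A = A := by
      ext x
      simp
    have e1 : M.py.p A η₀ = Dn D 1 (XTL μ Γ (XPpr R ((xmU μ b (L2 G)).py.p A (vec μ a E b)))) := by
      rw [hMp 1 A hA, e0]
      congr 1
      have h1 := (hom_XPpr (R := R) b).y A hA (vec μ a E b)
      have h2 := (hom_XTL b Γ).y A hA z0
      rw [h1]
      exact h2.symm
    rw [e1]
    have h0 := bddX_vec (μ := μ) (a := a) (E := E) (b := b) hA
    have h1 := Bdd.map (T := XPpr R) (A' := XBU R) (fun g x => XPpr_B R g x) h0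
    have h1' : Bdd (XBU R) (Real.sqrt (μ A).toReal) (XPpr R ((xmU μ b (L2 G)).py.p A (vec μ a E b))) := by
      refine h1.mono ?_
      exact mul_le_of_le_one_left (Real.sqrt_nonneg _) (norm_XPpr R)
    have h2 := Bdd.map (T := (XTL μ Γ).toContinuousLinearMap) (fun g x => XTL_B μ Γ g x) h1'
    have h2' : Bdd (XBV μ Γ) (Real.sqrt (μ A).toReal)
        (XTL μ Γ (XPpr R ((xmU μ b (L2 G)).py.p A (vec μ a E b)))) := by
      refine h2.mono ?_
      exact mul_le_of_le_one_left (Real.sqrt_nonneg _) (XTL μ Γ).norm_toContinuousLinearMap_le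
    have h3 := Bdd.map (T := Dn D 1) (A' := B') (fun g x => (hB' g 1 x).symm) h2'
    refine h3.mono ?_
    refine mul_le_of_le_one_left (Real.sqrt_nonneg _) ?_
    refine (Dn D 1).opNorm_le_bound zero_le_one fun x => ?_
    rw [one_mul]
    exact hDn 1 x
  have hUV : PCom (pyV μ b R L) (CRep.ext (XBV μ Γ) E.conj) := (uhom_ext E.conj (mrep_XV b Γ).hB).py
  have hUU : PCom (pyU μ b R) (CRep.ext (XBU R) E.conj) := (uhom_ext E.conj (mrep_XU b).hB).py
  have hUM : PCom M.py (CRep.ext B' E.conj) := (uhom_ext E.conj hBM).py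
  have e0' : ∀ A : Set X, (fun x => ((1 : F) : G1) • x) ⁻¹' A = A := fun A => by
    ext x
    simp
  have hR : ∀ v : F, opR M aF (CRep.ext B' E.conj) v η₀ =
      Dn D 1 (XTL μ Γ (XPpr R (vec μ a E fun n => b n * (v : G1)⁻¹))) := by
    intro v
    have hm : Mea (a.a (v : G1)) := a.meas v
    have h1 := tw_nat (pyV μ b R L) (CRep.ext (XBV μ Γ) E.conj) hUV hm (P' := M.py) (U' := CRep.ext B' E.conj)
      hUM (T := Dn D 1) (fun A hA x => by rw [hMp 1 A hA, e0'])
      (fun l x => map_ext (T := Dn D 1) (A' := B') (fun g x => (hB' g 1 x).symm) E.conj l x) (XTL μ Γ z0)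
    have h2 := tw_nat (pyU μ b R) (CRep.ext (XBU R) E.conj) hUU hm (P' := pyV μ b R L)
      (U' := CRep.ext (XBV μ Γ) E.conj) hUV (T := (XTL μ Γ).toContinuousLinearMap)
      (fun A hA x => (hom_XTL b Γ).y A hA x)
      (fun l x => map_ext (T := (XTL μ Γ).toContinuousLinearMap) (fun g x => XTL_B μ Γ g x) E.conj l x) z0
    have h2' : XTL μ Γ (tw (pyU μ b R) (CRep.ext (XBU R) E.conj) (a.a (v : G1)) z0) =
      tw (pyV μ b R L) (CRep.ext (XBV μ Γ) E.conj) (a.a (v : G1)) (XTL μ Γ z0) := h2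
    rw [hz0, tw_vecP] at h2'
    change tw M.py (CRep.ext B' E.conj) (a.a (v : G1)) (Dn D 1 (XTL μ Γ z0)) = _
    rw [← h1, ← h2']
  have hTR : ∀ y : XUa μ R, τ.t y Γ.v = XTR μ Γ y := by
    intro y
    apply Subtype.ext
    rw [hτ]
    rfl
  let ξ₀ : nn D := (nn D).orthogonalProjectionOnto (τ'.t (cst μ (dl 1)) Γ.v)
  have hinner : ∀ v : F, inner ℂ (sgm M aF (cTriv Λ (nn D)) (CRep.ext B' E.conj) v η₀) ξ₀ =
      (inner ℂ (XTL μ Γ (XPpr R (vec μ a E fun n => b n * (v : G1)⁻¹)))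
        (XTR μ Γ (XPpr R (vec μ a E fun n => b n * (v : G1)⁻¹))) : ℂ) := by
    intro v
    have h0 : sgm M aF (cTriv Λ (nn D)) (CRep.ext B' E.conj) v η₀ =
        Dn D v (XTL μ Γ (XPpr R (vec μ a E fun n => b n * (v : G1)⁻¹))) := by
      change opL M aF (cTriv Λ (nn D)) v (opR M aF (CRep.ext B' E.conj) v η₀) = _
      rw [opL_triv, hR, hMS, mul_one]
    rw [h0]
    set y := XTL μ Γ (XPpr R (vec μ a E fun n => b n * (v : G1)⁻¹)) with hy
    have h1 : inner ℂ (Dn D v y) ξ₀ = (inner ℂ (D v y) (τ'.t (cst μ (dl 1)) Γ.v) : ℂ) := by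
      have h2 := (Submodule.mem_orthogonal _ _).1 (Submodule.sub_starProjection_mem_orthogonal
        (K := nn D) (τ'.t (cst μ (dl 1)) Γ.v)) (D v y) (mem_nn D _ _)
      rw [inner_sub_right, sub_eq_zero] at h2
      exact h2.symm
    rw [h1]
    have h2 : inner ℂ (D v y) (τ'.t (cst μ (dl 1)) Γ.v) =
      (inner ℂ y (τ.t (XPpr R (vec μ a E fun n => b n * (v : G1)⁻¹)) Γ.v) : ℂ) := inner_DD (v : G1) y Γ.v
    rw [h2, hTR]
  obtain ⟨η, e1, e2, e3⟩ := hull3 aF E hBM hη₀ hc (ξ₀ := ξ₀) (fun v => by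
    rw [hinner]
    exact hlow v v.2)
  -- almost invariant vectors
  have hapx : ApxM M (1 : G →* (nn D ≃ₗᵢ[ℂ] nn D)) B' := by
    intro Q ε hε
    obtain ⟨D', hD'⟩ := hD Q ε hε
    obtain ⟨m0, m1, m2, m3, m4⟩ := exists_mul_opsX μ Γ D'
    have hMC := hMc D' hD' m0 m1
    have hmp : ∀ (t : G) (A : Set X), MeasurableSet A → ∀ x : XVp μ R L, m0 t ((pyV μ b R L).p A x) =
        (pyV μ b R L).p A (m0 t x) := by
      intro t A hA x
      apply Subtype.ext
      have h1 := (xmU_hom (μ := μ) b (dg fun γ => D'.mo γ t)).y A hA (x : UE μ (Lv G L))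
      have h2 := m1 t ((pyV μ b R L).p A x)
      rw [h2]
      refine h1.trans ?_
      rw [← m1 t x]
      rfl
    choose M' hM' using fun t => exists_hat D (hMC t)
    refine ⟨D'.supp, M', ?_, ?_, ?_, ?_, ?_⟩
    · intro t
      have hy : ∀ A : Set X, MeasurableSet A → ∀ y, M' t (M.py.p A y) = M.py.p A (M' t y) := by
        intro A hA y
        have h : (M' t).comp (M.py.p A) = (M.py.p A).comp (M' t) := by
          refine nn_ext D fun l x => ?_
          rw [ContinuousLinearMap.comp_apply, ContinuousLinearMap.comp_apply, hMp l A hA, hM', hM', hMp l A hA,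
            hmp t _ (measurable_const_smul (l : G1) hA)]
        exact DFunLike.congr_fun h y
      refine ⟨fun f y => ?_, hy, hy⟩
      have h : (M' t).comp ((M.S f).toContinuousLinearEquiv : nn D →L[ℂ] nn D) =
          (((M.S f).toContinuousLinearEquiv : nn D →L[ℂ] nn D)).comp (M' t) := by
        refine nn_ext D fun m x => ?_
        change M' t (M.S f (Dn D m x)) = M.S f (M' t (Dn D m x))
        rw [hMS, hM', hM', hMS]
      exact DFunLike.congr_fun h y
    · intro t g x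
      rfl
    · intro t ht
      refine nn_ext D fun m x => ?_
      rw [hM', m2 t ht, _root_.zero_apply, _root_.zero_apply, map_zero]
    · intro x
      exact hat_eq D D'.supp m0 M' (fun t _ => hMC t) (fun t _ => hM' t) m3 x
    · intro h hh x S'
      let B1 : XVp μ R L →L[ℂ] XVp μ R L := ((XBV μ Γ h).toContinuousLinearEquiv : XVp μ R L →L[ℂ] XVp μ R L)
      let B2 : nn D →L[ℂ] nn D := ((B' h).toContinuousLinearEquiv : nn D →L[ℂ] nn D)
      exact hat_le D S' (fun t => (m0 t).comp B1 - B1.comp (m0 (h⁻¹ * t)))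
        (fun t => (M' t).comp B2 - B2.comp (M' (h⁻¹ * t)))
        (fun t _ => d2_sub (d2_comp (hMC t) (hBc h)) (d2_comp (hBc h) (hMC _)))
        (fun t _ l x => by
          change M' t (B' h (Dn D l x)) - B' h (M' (h⁻¹ * t) (Dn D l x)) =
            Dn D l (m0 t (XBV μ Γ h x) - XBV μ Γ h (m0 (h⁻¹ * t) x))
          rw [hB', hM', hM', hB', map_sub])
        (fun x => m4 h hh x S') x
  let I0 : Imp F X (XL μ (L2 Λ)) := impX μ aF p hp hpe
  obtain ⟨Q, ε₀, hε₀, hF⟩ := hΛ
  obtain ⟨q, hq, hq2⟩ := final3 aF E hBM hapx I0 (J0.comp (nn D).subtypeₗᵢ)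
    (fun f x y => hJV f (x : XL μ (Lv G L)) y) (fun A hA x y => hJP A hA (x : XL μ (Lv G L)) y) e2 e1 e3 Q
    (half_pos hε₀)
  obtain ⟨g, hg, hg2⟩ := hF q hq
  have h5 := hq2 g hg
  linarith

end Pool.Agent.Helper84.GN.S3.X
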