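import Pool.Agent.Helper9.S3X.Defs

/-!
# Project S3X, block C1: carriers

ADAPT `Helper9/S3/L1.lean`. `XUa` is the closure of the span of `XUaSet`, so there is `x1` in the span with `‖x - x1‖ < ε/2`; a finite sum of elements of `XUaSet` is carried by all the sets of one filter `F r` (`R.monoF`; for `toReg (chStr S J [])`: `F n = FC S J [] n`, `mem_FC`, and `WC S J r ∩ TC S [J] m ∈ F r`). By `UE.induction`/`ei_closure` there is a class `UE.mk y hy`, `EB c y`, with `‖x1 - UE.mk y hy‖` as small as we want. For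
each `m` let `A m = WC S J r ∩ TC S [J] m` (decreasing in `m`: `TC_anti`); `UE.map (ind (A m)) x1 = x1`, so `‖x1 - UE.map (ind (A m)) (UE.mk y hy)‖ ≤ ‖x1 - UE.mk y hy‖ =: η < ε/4`, hence `‖cl μ (ind (A m)ᶜ) (y n)‖ < 2 η` for hyperfilter-many `n`, for each `m`. Diagonal: let `M n` = the largest `m ≤ n` such that this holds for `m` (0 if none) and `b n = cl μ (ind (A (M n))) (y n)`; for each `m`, `m ≤ M n` for hyperfilter-many `n`
(the sets are monotone in `m`). `EB c b` (`cl_ind_le`-type bound: `‖ind A f‖ ≤ ‖f‖` pointwise). `‖UE.mk b - UE.mk y‖ ≤ 2 η`. `UE.mk b ∈ XUa`: it is carried by every `s ∈ F r` (`s ⊇ A m` for some `m`). Pointwise support: `cl_apply`, `ind_apply`.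
-/

set_option autoImplicit false
set_option linter.unusedSectionVars false

open MeasureTheory Filter Topology

namespace Pool.Agent.Helper84.GN.S3.X

open NI GVN Pool.Agent.Helper90.RK
open Pool.Agent.Helper96.RK Pool.Agent.Helper66.FR Pool.Agent.Helper84.FR Pool.Agent.Helper55.FR

variable {G X : Type} [Group G] [MeasurableSpace X] {μ : Measure X} [IsProbabilityMeasure μ] {N : ℕ} {P : PH G N}

private theorem l1_F_le93 {R : Reg G} {m n : ℕ} (h : m ≤ n) : R.F m ≤ R.F n := by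
  induction n, h using Nat.le_induction with
  | base => exact le_rfl
  | succ n _ ih => exact ih.trans (R.monoF n)

/-- A vector of the span is carried by the sets of one filter. -/
private theorem l1_span93 {R : Reg G} {b : UE μ (L2 G)} (hb : b ∈ Submodule.span ℂ (XUaSet μ R)) :
    ∃ n : ℕ, ∀ s ∈ R.F n, UE.map μ (ind ℂ s) b = b := by
  induction hb using Submodule.span_induction with
  | mem x hx => exact hx
  | zero => exact ⟨0, fun s _ => by rw [_root_.map_zero]⟩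
  | add x y _ _ hx hy =>
    obtain ⟨n, hn⟩ := hx
    obtain ⟨m, hm⟩ := hy
    refine ⟨max n m, fun s hs => ?_⟩
    rw [_root_.map_add, hn s (l1_F_le93 (le_max_left _ _) hs), hm s (l1_F_le93 (le_max_right _ _) hs)]
  | smul c x _ hx =>
    obtain ⟨n, hn⟩ := hx
    exact ⟨n, fun s hs => by rw [_root_.map_smul, hn s hs]⟩

private theorem l1_mk_sub93 {H : Type} [NormedAddCommGroup H] [InnerProductSpace ℂ H] (x y : BSeq H) :
    UP.mk (x - y) = UP.mk x - UP.mk y := by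
  have h := UP.mk_add (x - y) y
  rw [sub_add_cancel] at h
  rw [h, add_sub_cancel_right]

private theorem l1_tend93 (x y : BSeq (XL μ (L2 G))) {c d : ℝ} (hx : EB c x) (hy : EB d y) :
    Tendsto (fun n => ‖x.1 n - y.1 n‖) (hyperfilter ℕ : Filter ℕ) (𝓝 ‖UE.mk x hx - UE.mk y hy‖) := by
  have h1 := UP.tendsto_norm (x - y)
  rw [l1_mk_sub93] at h1
  exact h1

private theorem l1_congr93 {x y : BSeq (XL μ (L2 G))} {c d : ℝ} (hx : EB c x) (hy : EB d y)
    (h : ∀ᶠ n in (hyperfilter ℕ : Filter ℕ), x.1 n = y.1 n) : UE.mk x hx = UE.mk y hy := by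
  have h1 := l1_tend93 x y hx hy
  have h2 : Tendsto (fun n => ‖x.1 n - y.1 n‖) (hyperfilter ℕ : Filter ℕ) (𝓝 0) := by
    refine tendsto_const_nhds.congr' ?_
    filter_upwards [h] with n hn
    rw [hn, sub_self, norm_zero]
  have h3 := tendsto_nhds_unique h1 h2
  rw [norm_eq_zero] at h3
  exact sub_eq_zero.1 h3

private theorem norm_ind93 (A : Set G) (v : L2 G) : ‖ind ℂ A v‖ ≤ ‖v‖ := by
  classical
  have h := norm_dg_le (T := fun i => if i ∈ A then ContinuousLinearMap.id ℂ ℂ else 0) zero_le_one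
    (fun i x => by
      split_ifs
      · simp
      · simp) v
  rw [one_mul] at h
  exact h

private theorem norm_cl93 (A : Set G) (f : XL μ (L2 G)) : ‖cl μ (ind ℂ A) f‖ ≤ ‖f‖ := by
  have h := norm_cl_le_of (μ := μ) (T := ind ℂ A) zero_le_one (fun x => by
    rw [one_mul]
    exact norm_ind93 A x) f
  rwa [one_mul] at h

theorem exists_carrierX (S : Sv P) (J : Finset (Fin N)) (x : XUa μ (toReg (chStr S J []))) {ε : ℝ} (hε : 0 < ε) :
    ∃ (r : ℕ) (c : ℝ) (b : BSeq (XL μ (L2 G))) (hb : EB c b) (hb' : UE.mk b hb ∈ XUa μ (toReg (chStr S J []))),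
      ‖x - ⟨UE.mk b hb, hb'⟩‖ < ε ∧ ∀ m : ℕ, ∀ᶠ n in (hyperfilter ℕ : Filter ℕ), ∀ᵐ z ∂μ, ∀ γ,
        γ ∉ WC S J r ∩ TC S [J] m → b.1 n z γ = 0 := by
  classical
  have hx : (x : UE μ (L2 G)) ∈ closure ((Submodule.span ℂ (XUaSet μ (toReg (chStr S J []))) :
      Submodule ℂ (UE μ (L2 G))) : Set (UE μ (L2 G))) := x.2
  obtain ⟨y, hy, hxy⟩ := Metric.mem_closure_iff.1 hx (ε / 8) (by positivity)
  obtain ⟨r, hr⟩ := l1_span93 hy
  -- approximation by a class of a uniformly bounded sequence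
  obtain ⟨c, c0, hcE, hc⟩ : ∃ (c : BSeq (XL μ (L2 G))) (c0 : ℝ) (hcE : EB c0 c), ‖y - UE.mk c hcE‖ < ε / 8 := by
    have h2 := ei_closure (show EI μ (L2 G) from y)
    obtain ⟨η, ⟨c0, c, hcE, hη⟩, hdist⟩ := Metric.mem_closure_iff.1 h2 (ε / 8) (by positivity)
    refine ⟨c, c0, hcE, ?_⟩
    rw [dist_eq_norm] at hdist
    have h3 : (UE.mk c hcE : UE μ (L2 G)) = η := Subtype.ext hη
    rw [h3]
    exact hdist
  rw [dist_eq_norm] at hxy
  let s : ℕ → Set G := fun m => WC S J r ∩ TC S [J] m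
  have hs : ∀ m, s m ∈ (toReg (chStr S J [])).F r := fun m => (mem_FC S).2 ⟨m, subset_rfl⟩
  have hanti : ∀ {m m' : ℕ}, m ≤ m' → s m' ⊆ s m := fun h =>
    Set.inter_subset_inter_right _ (TC_anti S _ h)
  -- the remainders
  have hrem : ∀ m, ∀ᶠ n in (hyperfilter ℕ : Filter ℕ), ‖c.1 n - cl μ (ind ℂ (s m)) (c.1 n)‖ < ε / 2 := by
    intro m
    have h1 := l1_tend93 c (BSeq.map (cl μ (ind ℂ (s m))) c) hcE (hcE.map (ind ℂ (s m)))
    have h2 : ‖UE.mk c hcE - UE.mk (BSeq.map (cl μ (ind ℂ (s m))) c) (hcE.map (ind ℂ (s m)))‖ < ε / 2 := by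
      rw [← UE.map_mk (ind ℂ (s m)) c hcE]
      have h3 : UE.mk c hcE - UE.map μ (ind ℂ (s m)) (UE.mk c hcE) =
          UE.map μ (ind ℂ (s m)) (y - UE.mk c hcE) - (y - UE.mk c hcE) := by
        rw [_root_.map_sub, hr _ (hs m)]
        abel
      rw [h3]
      have h4 := norm_sub_le (UE.map μ (ind ℂ (s m)) (y - UE.mk c hcE)) (y - UE.mk c hcE)
      have h5 := xnorm_ind_le (s m) (y - UE.mk c hcE)
      linarith
    exact h1.eventually (gt_mem_nhds h2)
  let k : ℕ → ℕ := fun n =>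
    Nat.findGreatest (fun j => ‖c.1 n - cl μ (ind ℂ (s j)) (c.1 n)‖ < ε / 2) n
  obtain ⟨C, hC⟩ := c.2
  have hb0 : ∃ C, ∀ n, ‖cl μ (ind ℂ (s (k n))) (c.1 n)‖ ≤ C := ⟨C, fun n => (norm_cl93 _ _).trans (hC n)⟩
  let b : BSeq (XL μ (L2 G)) := ⟨fun n => cl μ (ind ℂ (s (k n))) (c.1 n), hb0⟩
  have hbE : EB c0 b := by
    refine ⟨hcE.1, fun n => ?_⟩
    filter_upwards [hcE.2 n, cl_apply (μ := μ) (ind ℂ (s (k n))) (c.1 n)] with z h1 h2
    change ‖cl μ (ind ℂ (s (k n))) (c.1 n) z‖ ≤ c0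
    rw [h2]
    exact (norm_ind93 _ _).trans h1
  have hk : ∀ m, ∀ᶠ n in (hyperfilter ℕ : Filter ℕ), m ≤ k n := by
    intro m
    have h1 : ∀ᶠ n in (hyperfilter ℕ : Filter ℕ), m ≤ n :=
      (eventually_ge_atTop m).filter_mono Nat.hyperfilter_le_atTop
    filter_upwards [hrem m, h1] with n h2 h3
    exact Nat.le_findGreatest h3 h2
  have hvan : ∀ m : ℕ, ∀ᶠ n in (hyperfilter ℕ : Filter ℕ), ∀ᵐ z ∂μ, ∀ γ, γ ∉ s m → b.1 n z γ = 0 := by
    intro m
    filter_upwards [hk m] with n hn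
    filter_upwards [cl_apply (μ := μ) (ind ℂ (s (k n))) (c.1 n)] with z hz γ hγ
    change cl μ (ind ℂ (s (k n))) (c.1 n) z γ = 0
    rw [hz, ind_apply, if_neg fun h => hγ (hanti hn h)]
  have hset : UE.mk b hbE ∈ XUaSet μ (toReg (chStr S J [])) := by
    refine ⟨r, fun t ht => ?_⟩
    obtain ⟨m, hm⟩ := (mem_FC S).1 (show t ∈ FC S J [] r from ht)
    rw [UE.map_mk]
    refine l1_congr93 _ _ ?_
    filter_upwards [hvan m] with n hn
    change cl μ (ind ℂ t) (b.1 n) = b.1 n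
    refine xl_ext ?_
    filter_upwards [hn, cl_apply (μ := μ) (ind ℂ t) (b.1 n)] with z hz h2
    rw [h2]
    apply lv_ext
    intro γ
    rw [ind_apply]
    by_cases hγ : γ ∈ t
    · rw [if_pos hγ]
    · rw [if_neg hγ, hz γ fun h => hγ (hm h)]
  have hb : UE.mk b hbE ∈ XUa μ (toReg (chStr S J [])) :=
    Submodule.le_topologicalClosure _ (Submodule.subset_span hset)
  refine ⟨r, c0, b, hbE, hb, ?_, hvan⟩
  have hcb : ‖UE.mk c hcE - UE.mk b hbE‖ ≤ ε / 2 := by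
    refine le_of_tendsto (l1_tend93 c b hcE hbE) ?_
    filter_upwards [hrem 0] with n hn
    have h1 : ‖c.1 n - cl μ (ind ℂ (s (k n))) (c.1 n)‖ < ε / 2 :=
      Nat.findGreatest_spec (P := fun j => ‖c.1 n - cl μ (ind ℂ (s j)) (c.1 n)‖ < ε / 2) (Nat.zero_le n) hn
    exact h1.le
  have h1 : ‖x - ⟨UE.mk b hbE, hb⟩‖ = ‖(x : UE μ (L2 G)) - UE.mk b hbE‖ := rfl
  have h2 : (x : UE μ (L2 G)) - UE.mk b hbE =
      ((x : UE μ (L2 G)) - y) + (y - UE.mk c hcE) + (UE.mk c hcE - UE.mk b hbE) := by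
    abel
  rw [h1, h2]
  have h3 := norm_add_le (((x : UE μ (L2 G)) - y) + (y - UE.mk c hcE)) (UE.mk c hcE - UE.mk b hbE)
  have h4 := norm_add_le ((x : UE μ (L2 G)) - y) (y - UE.mk c hcE)
  linarith

end Pool.Agent.Helper84.GN.S3.X
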