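import Pool.Agent.Helper9.S3X.W2

/-!
# Project S3X, block K3: the double limit

Let `x' = adjoint (TT l) ⟨mk x⟩`, `y' = adjoint (TT m) ⟨mk y⟩` in `XL μ (L2 G)`. For all `φ`: `⟪φ, x'⟫ = ⟪TT l φ, mk x⟫ = ⟪XPpr (KK φ), mk x⟫ = ⟪KK φ, mk x⟫ = lim_n ⟪WW (b n l⁻¹) φ, x.1 n⟫ = lim_n ⟪φ, adjoint (WW (b n l⁻¹)) (x.1 n)⟫` (`inner_XPpr`, `UP.tendsto_inner`, `UE.inner_val`), the same for `y'`. So `⟪y', x'⟫ = lim_n ⟪y', adjoint (WW (b n l⁻¹)) (x.1 n)⟫` and for each `n`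
`⟪y', ψ⟫ = lim_k ⟪adjoint (WW (b k m⁻¹)) (y.1 k), ψ⟫ = lim_k ⟪y.1 k, WW (b k m⁻¹) ψ⟫` with `ψ = adjoint (WW (b n l⁻¹)) (x.1 n)`, and `WW (b k m⁻¹) ψ = ZZ (b k m⁻¹ * (b n l⁻¹)⁻¹) (x.1 n)` (`WW_adj`), `b k m⁻¹ (b n l⁻¹)⁻¹ = b k m⁻¹ l (b n)⁻¹`. Norms of limits are at most `C` (`le_of_tendsto` twice). Compare `Helper9/S3/L4.lean`.
-/

set_option autoImplicit false
set_option linter.unusedSectionVars false

open MeasureTheory Filter Topology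

namespace Pool.Agent.Helper84.GN.S3.X

open NI GVN Pool.Agent.Helper90.RK
open Pool.Agent.Helper96.RK Pool.Agent.Helper66.FR Pool.Agent.Helper84.FR Pool.Agent.Helper55.FR

variable {G1 X G Λ : Type} [Group G1] [MeasurableSpace X] [MulAction G1 X] [MeasurableConstSMul G1 X]
  [Group G] [Group Λ] [Countable Λ] {μ : Measure X} [SMulInvariantMeasure G1 X μ] [IsProbabilityMeasure μ]
  {a : Cocy G1 X Λ} {E : Emb Λ G}

variable {R : Reg G} {b : ℕ → G1}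

private theorem keyX3 (l : G1) (x : BSeq (XL μ (L2 G))) {cx : ℝ} (hx : EB cx x) (hx' : UE.mk x hx ∈ XUa μ R)
    (φ : XL μ (L2 G)) :
    Tendsto (fun n => inner ℂ φ (ContinuousLinearMap.adjoint (WW μ a E (b n * l⁻¹)) (x.1 n)))
      (hyperfilter ℕ : Filter ℕ)
      (𝓝 (inner ℂ φ (ContinuousLinearMap.adjoint (TT μ a E R b l) (⟨UE.mk x hx, hx'⟩ : XUa μ R)))) := by
  have h1 : inner ℂ φ (ContinuousLinearMap.adjoint (TT μ a E R b l) (⟨UE.mk x hx, hx'⟩ : XUa μ R)) =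
      inner ℂ (UP.mk (KS μ a E (fun n => b n * l⁻¹) φ)) (UP.mk x) := by
    rw [ContinuousLinearMap.adjoint_inner_right]
    change inner ℂ (XPpr R (KK μ a E (fun n => b n * l⁻¹) φ)) (⟨UE.mk x hx, hx'⟩ : XUa μ R) = _
    rw [← inner_conj_symm, ← inner_XPpr R _ (⟨UE.mk x hx, hx'⟩ : XUa μ R), inner_conj_symm,
      ← UE.inner_val, val_KK, UE.val_mk]
  rw [h1]
  refine (UP.tendsto_inner _ x).congr fun n => ?_
  exact (ContinuousLinearMap.adjoint_inner_right (WW μ a E (b n * l⁻¹)) φ (x.1 n)).symm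

theorem double_limitX (l m : G1) (x y : BSeq (XL μ (L2 G))) {cx cy : ℝ} (hx : EB cx x) (hy : EB cy y)
    (hx' : UE.mk x hx ∈ XUa μ R) (hy' : UE.mk y hy ∈ XUa μ R) {C : ℝ}
    (h : ∀ᶠ n in (hyperfilter ℕ : Filter ℕ), ∀ᶠ k in (hyperfilter ℕ : Filter ℕ),
      ‖inner ℂ (y.1 k) (ZZ μ a E (b k * m⁻¹ * l * (b n)⁻¹) (x.1 n))‖ ≤ C) :
    ‖inner ℂ (ContinuousLinearMap.adjoint (TT μ a E R b m) (⟨UE.mk y hy, hy'⟩ : XUa μ R))
      (ContinuousLinearMap.adjoint (TT μ a E R b l) (⟨UE.mk x hx, hx'⟩ : XUa μ R))‖ ≤ C := by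
  have hA := keyX3 (a := a) (E := E) (R := R) (b := b) l x hx hx'
    (ContinuousLinearMap.adjoint (TT μ a E R b m) (⟨UE.mk y hy, hy'⟩ : XUa μ R))
  refine le_of_tendsto hA.norm (h.mono fun n hn => ?_)
  have hB := keyX3 (a := a) (E := E) (R := R) (b := b) m y hy hy'
    (ContinuousLinearMap.adjoint (WW μ a E (b n * l⁻¹)) (x.1 n))
  rw [norm_inner_symm]
  refine le_of_tendsto hB.norm (hn.mono fun k hk => ?_)
  have h1 : inner ℂ (ContinuousLinearMap.adjoint (WW μ a E (b n * l⁻¹)) (x.1 n))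
      (ContinuousLinearMap.adjoint (WW μ a E (b k * m⁻¹)) (y.1 k)) =
      inner ℂ (ZZ μ a E (b k * m⁻¹ * l * (b n)⁻¹) (x.1 n)) (y.1 k) := by
    rw [ContinuousLinearMap.adjoint_inner_right, WW_adj]
    have h2 : b k * m⁻¹ * (b n * l⁻¹)⁻¹ = b k * m⁻¹ * l * (b n)⁻¹ := by group
    rw [h2]
  rw [h1, norm_inner_symm]
  exact hk

end Pool.Agent.Helper84.GN.S3.X
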