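import Pool.Agent.Helper9.S3X.Defs

/-!
# Project S3X, block W3: pointwise estimate

`⟪y, ZZ g x⟫ = ∫ ⟪y z, E.U (a.a g (g⁻¹ z)) (x (g⁻¹ z))⟫ dz` (`xl_inner`, `vg_apply`). For almost all `z` the integrand has norm at most `C * cy * cx * ‖ind Q (cf (E.U (a.a g (g⁻¹ z))))‖` (`hfl` with `E.comm`; the hypotheses on `x` hold at `g⁻¹ z` for almost all `z`: `(measurePreserving_smul g⁻¹ μ).quasiMeasurePreserving.ae`), and `‖ind Q (cf ..)‖ = ‖cl μ (ind Q) (zx g) z‖` (`cl_apply`, `zv_apply`).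
`∫ ‖f z‖ dz ≤ ‖f‖` for `f : XL μ H`, `μ` a probability measure (Cauchy-Schwarz: `(∫ ‖f‖)^2 ≤ ∫ ‖f‖^2`, or `eLpNorm_le_eLpNorm_of_exponent_le`, or `∫ ‖f‖ ≤ ∫ (t/2 + ‖f‖^2/(2t))` with `t = ‖f‖`).
-/

set_option autoImplicit false
set_option linter.unusedSectionVars false

open MeasureTheory Filter Topology

namespace Pool.Agent.Helper84.GN.S3.X

open NI GVN Pool.Agent.Helper90.RK
open Pool.Agent.Helper96.RK Pool.Agent.Helper66.FR Pool.Agent.Helper84.FR Pool.Agent.Helper55.FR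

variable {G1 X G Λ : Type} [Group G1] [MeasurableSpace X] [MulAction G1 X] [MeasurableConstSMul G1 X]
  [Group G] [Group Λ] [Countable Λ] {μ : Measure X} [SMulInvariantMeasure G1 X μ] [IsProbabilityMeasure μ]
  {a : Cocy G1 X Λ} {E : Emb Λ G}

private theorem int_norm_le63 {H : Type} [NormedAddCommGroup H] [InnerProductSpace ℂ H] (f : XL μ H) :
    Integrable (fun z => ‖f z‖) μ ∧ ∫ z, ‖f z‖ ∂μ ≤ ‖f‖ := by
  have h1 : Integrable (fun z => ‖f z‖) μ := ((Lp.memLp f).integrable one_le_two).norm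
  refine ⟨h1, ?_⟩
  set m : ℝ := ∫ z, ‖f z‖ ∂μ with hm
  have hm0 : 0 ≤ m := integral_nonneg fun z => norm_nonneg _
  have h2 := xl_int f
  have h3 : 0 ≤ ∫ z, (‖f z‖ - m) ^ 2 ∂μ := integral_nonneg fun z => sq_nonneg _
  have h4 : ∫ z, (‖f z‖ - m) ^ 2 ∂μ = ‖f‖ ^ 2 - m ^ 2 := by
    have e1 : (fun z => (‖f z‖ - m) ^ 2) = fun z => ‖f z‖ ^ 2 - 2 * m * ‖f z‖ + m ^ 2 := by
      funext z
      ring
    have e2 : Integrable (fun z => ‖f z‖ ^ 2 - 2 * m * ‖f z‖) μ := h2.sub (h1.const_mul (2 * m))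
    rw [e1, integral_add e2 (integrable_const _),
      integral_sub h2 (h1.const_mul (2 * m)), integral_const_mul, ← hm, ← xl_norm_sq, integral_const]
    simp
    ring
  have h5 : m ^ 2 ≤ ‖f‖ ^ 2 := by linarith
  exact (pow_le_pow_iff_left₀ hm0 (norm_nonneg f) two_ne_zero).1 h5

theorem ZZ_apply_le (g : G1) {A B Q : Set G} {C : ℝ} (hC : 0 ≤ C)
    (hfl : ∀ (w : L2 G ≃ₗᵢ[ℂ] L2 G), CommR w → ∀ b b' : L2 G, (∀ γ, γ ∉ A → b γ = 0) → (∀ γ, γ ∉ B → b' γ = 0) →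
      ‖inner ℂ b (w b')‖ ≤ C * ‖b‖ * ‖b'‖ * ‖ind ℂ Q (cf w)‖) {x y : XL μ (L2 G)} {cx cy : ℝ} (h0 : 0 ≤ cx) (h0' : 0 ≤ cy)
    (hx : ∀ᵐ z ∂μ, ‖x z‖ ≤ cx) (hy : ∀ᵐ z ∂μ, ‖y z‖ ≤ cy) (hxB : ∀ᵐ z ∂μ, ∀ γ, γ ∉ B → x z γ = 0)
    (hyA : ∀ᵐ z ∂μ, ∀ γ, γ ∉ A → y z γ = 0) :
    ‖inner ℂ y (ZZ μ a E g x)‖ ≤ C * cy * cx * ‖cl μ (ind ℂ Q) (zx μ a E g)‖ := by
  have hq := (measurePreserving_smul g⁻¹ μ).quasiMeasurePreserving
  obtain ⟨hi, hn⟩ := int_norm_le63 (μ := μ) (cl μ (ind ℂ Q) (zx μ a E g))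
  rw [xl_inner]
  have h1 : ‖∫ z, inner ℂ (y z) (ZZ μ a E g x z) ∂μ‖ ≤
      ∫ z, C * cy * cx * ‖cl μ (ind ℂ Q) (zx μ a E g) z‖ ∂μ := by
    refine norm_integral_le_of_norm_le (hi.const_mul _) ?_
    filter_upwards [vg_apply a E.U g x, cl_apply (ind ℂ Q) (zx μ a E g),
      zv_apply (μ := μ) (E := E) (mea_a (a := a) g g⁻¹), hq.ae hx, hq.ae hxB, hy, hyA] with z e1 e2 e3 e4 e5 e6 e7
    have e8 : ZZ μ a E g x z = E.U (a.a g (g⁻¹ • z)) (x (g⁻¹ • z)) := e1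
    have e9 : cl μ (ind ℂ Q) (zx μ a E g) z = ind ℂ Q (cf (E.U (a.a g (g⁻¹ • z)))) := by
      rw [e2, zx_eq, e3]
    rw [e8, e9]
    refine (hfl _ (E.comm _) (y z) (x (g⁻¹ • z)) e7 e5).trans ?_
    refine mul_le_mul_of_nonneg_right ?_ (norm_nonneg _)
    rw [mul_assoc, mul_assoc]
    exact mul_le_mul_of_nonneg_left (mul_le_mul e6 e4 (norm_nonneg _) h0') hC
  refine h1.trans ?_
  rw [integral_const_mul]
  exact mul_le_mul_of_nonneg_left hn (by positivity)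

end Pool.Agent.Helper84.GN.S3.X
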