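import Pool.Agent.Helper9.S3.P0
import Pool.Agent.Helper9.S3.F6
import Pool.Agent.Helper9.S3.L2
import Pool.Agent.Helper9.S3X.W3
import Pool.Agent.Helper9.S3X.K3
import Pool.Agent.Helper9.S3X.C1

/-!
# Project S3X, block LM: locality

ADAPT `Helper9/S3/L5.lean` (same structure). Let `A`, `B`, `δ` as in `LocX`, `T = TT m ∘ (TT l)*`. It is enough that `⟪iUX B y, T (iUX A x)⟫ = 0` for all `x`, `y`, that is `⟪(TT m)* (iUX B y), (TT l)* (iUX A x)⟫ = 0`; by `exists_carrierX` (`J = Jm N`, `Sm S = chStr S (Jm N) []`) and continuity one may take `x = UE.mk b`, `y = UE.mk b'` as there with constants `c`, `c'` and `r`; `iUX A x` is the class of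
`cl μ (ind A) (b n)`, supported (a.e. pointwise) in `A ∩ WC S J r ∩ TC S [J] m'` for hyperfilter-many `n`. `WC_Te` (`S3/L2`): `r' ≥ 1` such that for every `L` there is `m'` with `WC S J r ∩ TC S [J] m' ⊆ Te S r' L`. `fl` (`S3/F6`) with `r'`, `δ` gives `C`. Let `ε > 0`; `hH ε` gives `R`, then `fl` gives `L`. For hyperfilter-many `n`, and for each such `n` for hyperfilter-many `k`: `ZZ_apply_le` with the sets
`B ∩ Te S r' L` and `A ∩ Te S r' L` (note the order: `y` is in the first place), `Q = Bad S R` and `g = b k m⁻¹ l (b n)⁻¹ ∈ F` gives `‖⟪y k, ZZ g (x n)⟫‖ ≤ C c' c ε`. So `double_limitX` gives `‖⟪..⟫‖ ≤ C c' c ε` for all `ε > 0`. (`(posPD S b).d = pdist S b`, symmetric in the two arguments.)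
-/

set_option autoImplicit false
set_option linter.unusedSectionVars false

open MeasureTheory Filter Topology

namespace Pool.Agent.Helper84.GN.S3.X

open NI GVN Pool.Agent.Helper90.RK
open Pool.Agent.Helper96.RK Pool.Agent.Helper66.FR Pool.Agent.Helper84.FR Pool.Agent.Helper55.FR

/-- A class approximated by sequences in a set, carried by the regions. -/
private theorem h94_carrierA {N : ℕ} {G X : Type} [Group G] [MeasurableSpace X] {μ : Measure X}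
    [IsProbabilityMeasure μ] {P : PH G N} (S : Sv P) (J : Finset (Fin N)) (A : Set G)
    (x : XUa μ (toReg (chStr S J []))) (hx : iUX (toReg (chStr S J [])) A x = x) {ε : ℝ} (hε : 0 < ε) :
    ∃ (r : ℕ) (c : ℝ) (b : BSeq (XL μ (L2 G))) (hb : EB c b) (hb' : UE.mk b hb ∈ XUa μ (toReg (chStr S J []))),
      ‖x - ⟨UE.mk b hb, hb'⟩‖ < ε ∧ ∀ r' : ℕ, r ≤ r' → ∀ m : ℕ, ∀ᶠ n in (hyperfilter ℕ : Filter ℕ), ∀ᵐ z ∂μ, ∀ γ,
        γ ∉ A ∩ (WC S J r' ∩ TC S [J] m) → b.1 n z γ = 0 := by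
  classical
  obtain ⟨r, c, b, hb, hbm, h1, h2⟩ := exists_carrierX S J x hε
  have e1 : UE.mk (BSeq.map (cl μ (ind ℂ A)) b) (hb.map (ind ℂ A)) = UE.map μ (ind ℂ A) (UE.mk b hb) :=
    (UE.map_mk (ind ℂ A) b hb).symm
  have hb' : UE.mk (BSeq.map (cl μ (ind ℂ A)) b) (hb.map (ind ℂ A)) ∈ XUa μ (toReg (chStr S J [])) := by
    rw [e1]
    exact ind_mem_XUa _ A hbm
  refine ⟨r, _, BSeq.map (cl μ (ind ℂ A)) b, hb.map (ind ℂ A), hb', ?_, fun r' hr m => ?_⟩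
  · have e2 : x - ⟨UE.mk (BSeq.map (cl μ (ind ℂ A)) b) (hb.map (ind ℂ A)), hb'⟩ =
        iUX (toReg (chStr S J [])) A (x - ⟨UE.mk b hb, hbm⟩) := by
      rw [map_sub, hx]
      congr 1
      apply Subtype.ext
      rw [coe_iUX]
      exact e1
    have h5 : ∀ d : XUa μ (toReg (chStr S J [])), ‖iUX (toReg (chStr S J [])) A d‖ ≤ ‖d‖ := by
      intro d
      have h6 := xnorm_ind_le A (d : UE μ (L2 G))
      rw [← coe_iUX] at h6
      exact h6
    have h3 : ‖iUX (toReg (chStr S J [])) A (x - ⟨UE.mk b hb, hbm⟩)‖ ≤ ‖x - ⟨UE.mk b hb, hbm⟩‖ := h5 _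
    rw [e2]
    exact lt_of_le_of_lt h3 h1
  · filter_upwards [h2 m] with n hn
    filter_upwards [hn, cl_apply (μ := μ) (ind ℂ A) (b.1 n)] with z hz hz2 γ hγ
    change (cl μ (ind ℂ A) (b.1 n)) z γ = 0
    rw [hz2, ind_apply]
    split_ifs with hA
    · exact hz γ fun h => hγ ⟨hA, WC_mono S J hr h.1, h.2⟩
    · rfl

variable {G1 X G Λ : Type} [Group G1] [MeasurableSpace X] [MulAction G1 X] [MeasurableConstSMul G1 X]
  [Group G] [Group Λ] [Countable Λ] {μ : Measure X} [SMulInvariantMeasure G1 X μ] [IsProbabilityMeasure μ]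
  {a : Cocy G1 X Λ} {E : Emb Λ G} {N : ℕ} {P : PH G N}

private theorem h94_loc_zero (hN : 3 ≤ N) (S : Sv P) (F : Subgroup G1)
    (hH : ∀ β : ℝ, 0 < β → ∃ R : ℝ, ∀ f ∈ F, ‖cl μ (ind ℂ (Bad S R)) (zx μ a E f)‖ ≤ β) {b : ℕ → G1} (hb : ∀ n, b n ∈ F)
    {l m : G1} (hl : l ∈ F) (hm : m ∈ F) {A B : Set G} {δ : ℝ} (hδ : 0 < δ)
    (hAB : ∀ γ ∈ B, ∀ γ' ∈ A, δ ≤ pdist S (Sm S).b γ γ') {r : ℕ} {c c' : ℝ}
    {u u' : BSeq (XL μ (L2 G))} (hu : EB c u) (hu' : EB c' u') (hum : UE.mk u hu ∈ XUa μ (toReg (Sm S)))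
    (hum' : UE.mk u' hu' ∈ XUa μ (toReg (Sm S)))
    (h1 : ∀ m : ℕ, ∀ᶠ n in (hyperfilter ℕ : Filter ℕ), ∀ᵐ z ∂μ, ∀ γ,
        γ ∉ A ∩ (WC S (Jm N) r ∩ TC S [Jm N] m) → u.1 n z γ = 0)
    (h2 : ∀ m : ℕ, ∀ᶠ n in (hyperfilter ℕ : Filter ℕ), ∀ᵐ z ∂μ, ∀ γ,
        γ ∉ B ∩ (WC S (Jm N) r ∩ TC S [Jm N] m) → u'.1 n z γ = 0) :
    inner ℂ (ContinuousLinearMap.adjoint (TT μ a E (toReg (Sm S)) b m) (⟨UE.mk u' hu', hum'⟩ : XUa μ (toReg (Sm S))))
      (ContinuousLinearMap.adjoint (TT μ a E (toReg (Sm S)) b l) (⟨UE.mk u hu, hum⟩ : XUa μ (toReg (Sm S)))) = 0 := by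
  have hc0 : 0 ≤ c := hu.1
  have hc0' : 0 ≤ c' := hu'.1
  obtain ⟨ρ, hρ, hWT⟩ := WC_Te hN S r
  obtain ⟨C, hC, hfl⟩ := fl hN S hρ hδ
  have key : ∀ β : ℝ, 0 < β → ‖inner ℂ (ContinuousLinearMap.adjoint (TT μ a E (toReg (Sm S)) b m)
        (⟨UE.mk u' hu', hum'⟩ : XUa μ (toReg (Sm S))))
      (ContinuousLinearMap.adjoint (TT μ a E (toReg (Sm S)) b l) (⟨UE.mk u hu, hum⟩ : XUa μ (toReg (Sm S))))‖ ≤
        C * c' * c * β := by
    intro β hβ
    obtain ⟨R, hR⟩ := hH β hβ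
    obtain ⟨L, hL, hL'⟩ := hfl R
    obtain ⟨m0, hm0⟩ := hWT L
    refine double_limitX l m u u' hu hu' hum hum' ?_
    filter_upwards [h1 m0] with n hn
    filter_upwards [h2 m0] with k hk
    have hg : b k * m⁻¹ * l * (b n)⁻¹ ∈ F :=
      F.mul_mem (F.mul_mem (F.mul_mem (hb k) (F.inv_mem hm)) hl) (F.inv_mem (hb n))
    refine (ZZ_apply_le (b k * m⁻¹ * l * (b n)⁻¹) (A := B ∩ Te S ρ L) (B := A ∩ Te S ρ L) (Q := Bad S R)
      hC (hL' B A hAB) hc0 hc0' (hu.2 n) (hu'.2 k) ?_ ?_).trans ?_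
    · filter_upwards [hn] with z hz γ hγ
      exact hz γ fun h => hγ ⟨h.1, hm0 h.2⟩
    · filter_upwards [hk] with z hz γ hγ
      exact hz γ fun h => hγ ⟨h.1, hm0 h.2⟩
    · exact mul_le_mul_of_nonneg_left (hR _ hg) (mul_nonneg (mul_nonneg hC hc0') hc0)
  rw [← norm_le_zero_iff]
  refine le_of_forall_pos_le_add fun ε hε => ?_
  have hK : 0 ≤ C * c' * c := mul_nonneg (mul_nonneg hC hc0') hc0
  refine (key (ε / (C * c' * c + 1)) (by positivity)).trans ?_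
  rw [zero_add, ← mul_div_assoc, div_le_iff₀ (by positivity)]
  nlinarith

theorem loc_mainX (hN : 3 ≤ N) (S : Sv P) (F : Subgroup G1)
    (hH : ∀ β : ℝ, 0 < β → ∃ R : ℝ, ∀ f ∈ F, ‖cl μ (ind ℂ (Bad S R)) (zx μ a E f)‖ ≤ β) {b : ℕ → G1} (hb : ∀ n, b n ∈ F)
    {l m : G1} (hl : l ∈ F) (hm : m ∈ F) :
    LocX (toReg (Sm S)) (posPD S (Sm S).b) ((TT μ a E (toReg (Sm S)) b m).comp
      (ContinuousLinearMap.adjoint (TT μ a E (toReg (Sm S)) b l))) := by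
  classical
  intro A B δ hδ hAB x
  have hAB' : ∀ γ ∈ B, ∀ γ' ∈ A, δ ≤ pdist S (Sm S).b γ γ' := fun γ hγ γ' hγ' => by
    have h1 := hAB γ' hγ' γ hγ
    rwa [(posPD S (Sm S).b).symm] at h1
  -- vanishing of the inner products
  have key : ∀ x' y' : XUa μ (toReg (Sm S)), iUX (toReg (Sm S)) A x' = x' → iUX (toReg (Sm S)) B y' = y' →
      inner ℂ (ContinuousLinearMap.adjoint (TT μ a E (toReg (Sm S)) b m) y')
        (ContinuousLinearMap.adjoint (TT μ a E (toReg (Sm S)) b l) x') = 0 := by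
    intro x' y' hx' hy'
    have ha : ∀ k : ℕ, ∃ (u v : XUa μ (toReg (Sm S))), ‖x' - u‖ < 1 / ((k : ℝ) + 1) ∧
        ‖y' - v‖ < 1 / ((k : ℝ) + 1) ∧
        inner ℂ (ContinuousLinearMap.adjoint (TT μ a E (toReg (Sm S)) b m) v)
          (ContinuousLinearMap.adjoint (TT μ a E (toReg (Sm S)) b l) u) = 0 := by
      intro k
      obtain ⟨r, c, u, hu, hum, h1, h2⟩ := h94_carrierA S (Jm N) A x' hx' (ε := 1 / ((k : ℝ) + 1)) (by positivity)
      obtain ⟨r', c', u', hu', hum', h1', h2'⟩ := h94_carrierA S (Jm N) B y' hy' (ε := 1 / ((k : ℝ) + 1)) (by positivity)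
      exact ⟨⟨UE.mk u hu, hum⟩, ⟨UE.mk u' hu', hum'⟩, h1, h1', h94_loc_zero hN S F hH hb hl hm hδ hAB' hu hu' hum hum'
        (h2 (max r r') (le_max_left _ _)) (h2' (max r r') (le_max_right _ _))⟩
    choose u v hu hv huv using ha
    have hu' : Tendsto u atTop (𝓝 x') := by
      refine tendsto_iff_norm_sub_tendsto_zero.2 (squeeze_zero (fun _ => norm_nonneg _) (fun k => ?_)
        tendsto_one_div_add_atTop_nhds_zero_nat)
      rw [norm_sub_rev]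
      exact (hu k).le
    have hv' : Tendsto v atTop (𝓝 y') := by
      refine tendsto_iff_norm_sub_tendsto_zero.2 (squeeze_zero (fun _ => norm_nonneg _) (fun k => ?_)
        tendsto_one_div_add_atTop_nhds_zero_nat)
      rw [norm_sub_rev]
      exact (hv k).le
    have h3 := (((ContinuousLinearMap.adjoint (TT μ a E (toReg (Sm S)) b m)).continuous.tendsto y').comp hv').inner
      (𝕜 := ℂ) (((ContinuousLinearMap.adjoint (TT μ a E (toReg (Sm S)) b l)).continuous.tendsto x').comp hu')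
    refine tendsto_nhds_unique h3 ?_
    refine tendsto_const_nhds.congr fun k => ?_
    exact (huv k).symm
  have idem : ∀ (C : Set G) (z : XUa μ (toReg (Sm S))), iUX (toReg (Sm S)) C (iUX (toReg (Sm S)) C z) =
      iUX (toReg (Sm S)) C z := by
    intro C z
    apply Subtype.ext
    rw [coe_iUX, coe_iUX, xind_ind, Set.inter_self]
  set Y : XUa μ (toReg (Sm S)) := ((TT μ a E (toReg (Sm S)) b m).comp
    (ContinuousLinearMap.adjoint (TT μ a E (toReg (Sm S)) b l))) (iUX (toReg (Sm S)) A x) with hY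
  have h4 : inner ℂ (iUX (toReg (Sm S)) B Y) (iUX (toReg (Sm S)) B Y) = (0 : ℂ) := by
    have h5 : inner ℂ (iUX (toReg (Sm S)) B Y) (iUX (toReg (Sm S)) B Y) =
        (inner ℂ (iUX (toReg (Sm S)) B Y) Y : ℂ) := by
      conv_rhs => rw [← idem B Y]
      rw [Submodule.coe_inner, Submodule.coe_inner, coe_iUX _ B (iUX (toReg (Sm S)) B Y), xinner_ind]
      rfl
    rw [h5, hY, ContinuousLinearMap.comp_apply, ← ContinuousLinearMap.adjoint_inner_left]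
    exact key _ _ (idem A x) (idem B Y)
  exact inner_self_eq_zero.1 h4

end Pool.Agent.Helper84.GN.S3.X
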