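import Pool.Agent.Helper9.S3.A3
import Pool.Agent.Helper84.FR.EV

/-!
# Project S3X (MP_0f6f3f_an): the sharp theorem for cocycles, definitions

Measure equivalence version of project S3, over the FR layer. `iUX R A`: restriction to a subset of `G`, on `XUa μ R`. `LocX`: local operators. `cTriv`: the trivial representation. `vg μ a A0 f`: the operator `ξ ↦ (x ↦ A0 (a(f, f⁻¹x)) ξ(f⁻¹x))` of `L²(X; H)`, `vgR` the
representation, `xmX` the corresponding system. `WW μ a E g ξ = (x ↦ U_(a(g, g⁻¹x)) I ξ(g⁻¹x))`, `ZZ μ a E g ξ = (x ↦ U_(a(g, g⁻¹x)) ξ(g⁻¹x))`. `KK μ a E b ξ`: the class of the sequence `WW (b n) ξ`. `TT R b v = XPpr R ∘ KK (b n v⁻¹)`.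
-/

set_option autoImplicit false
set_option linter.unusedSectionVars false

open MeasureTheory Filter Topology

namespace Pool.Agent.Helper84.GN.S3.X

open NI GVN Pool.Agent.Helper90.RK
open Pool.Agent.Helper96.RK Pool.Agent.Helper66.FR Pool.Agent.Helper84.FR

section Loc

variable {G X : Type} [Group G] [MeasurableSpace X] {μ : Measure X}

/-- Restriction to a subset of `G`, on `XUa μ R`. -/
noncomputable def iUX (R : Reg G) (A : Set G) : XUa μ R →L[ℂ] XUa μ R :=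
  rst (UE.map μ (ind ℂ A)) (XUa μ R) (XUa μ R) fun _ hx => ind_mem_XUa R A hx

theorem coe_iUX (R : Reg G) (A : Set G) (x : XUa μ R) :
    (iUX R A x : UE μ (L2 G)) = UE.map μ (ind ℂ A) (x : UE μ (L2 G)) := rfl

/-- The operators on `XUa μ R` which vanish between sets at positive distance. -/
def LocX (R : Reg G) (pd : PD G) (T : XUa μ R →L[ℂ] XUa μ R) : Prop :=
  ∀ (A B : Set G) (δ : ℝ), 0 < δ → (∀ γ ∈ A, ∀ γ' ∈ B, δ ≤ pd.d γ γ') → ∀ x, iUX R B (T (iUX R A x)) = 0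

/-- The property of the tensor product structure of `XVp`. -/
def IsTX {R : Reg G} {L : Type} [NormedAddCommGroup L] [InnerProductSpace ℂ L]
    (τ : Tens (XUa μ R) L (XVp μ R L)) : Prop :=
  ∀ (x : XUa μ R) (w : L), ((τ.t x w : XVp μ R L) : UE μ (Lv G L)) = UE.map μ (mulF fun _ => w) (x : UE μ (L2 G))

end Loc

section Triv

/-- The trivial representation. -/
noncomputable def cTriv (Λ H : Type) [Group Λ] [NormedAddCommGroup H] [InnerProductSpace ℂ H] : CRep Λ H where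
  U _ := ContinuousLinearMap.id ℂ H
  mul _ _ _ := rfl
  norm_le _ _ := le_rfl
  adj _ _ _ := rfl

end Triv

section Vg

variable {F X Λ : Type} [Group F] [MeasurableSpace X] [MulAction F X] [MeasurableConstSMul F X] [Group Λ] [Countable Λ]
variable {H : Type} [NormedAddCommGroup H] [InnerProductSpace ℂ H]

/-- The operator `ξ ↦ (x ↦ A0 (a(f, f⁻¹x)) ξ(f⁻¹x))`. -/
noncomputable def vg (μ : Measure X) [SMulInvariantMeasure F X μ] (a : Cocy F X Λ) (A0 : Λ →* (H ≃ₗᵢ[ℂ] H)) (f : F) :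
    XL μ H →L[ℂ] XL μ H :=
  (fop μ fun x => ((A0 (a.a f (f⁻¹ • x))).toContinuousLinearEquiv : H →L[ℂ] H)).comp
    ((kp μ H f).toContinuousLinearEquiv : XL μ H →L[ℂ] XL μ H)

theorem fm_vg (a : Cocy F X Λ) (A0 : Λ →* (H ≃ₗᵢ[ℂ] H)) (f : F) :
    FM 1 fun x => ((A0 (a.a f (f⁻¹ • x))).toContinuousLinearEquiv : H →L[ℂ] H) :=
  FM.mea (c := fun x => a.a f (f⁻¹ • x)) (fun l => (measurable_const_smul f⁻¹) (a.meas f l))
    (w := fun l => ((A0 l).toContinuousLinearEquiv : H →L[ℂ] H)) zero_le_one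
    fun l v => by
      rw [one_mul]
      exact (LinearIsometryEquiv.norm_map (A0 l) v).le

theorem vg_apply {μ : Measure X} [SMulInvariantMeasure F X μ] (a : Cocy F X Λ) (A0 : Λ →* (H ≃ₗᵢ[ℂ] H)) (f : F)
    (φ : XL μ H) : ∀ᵐ x ∂μ, vg μ a A0 f φ x = A0 (a.a f (f⁻¹ • x)) (φ (f⁻¹ • x)) := by
  filter_upwards [fop_apply (fm_vg a A0 f) (kp μ H f φ), kp_apply f φ] with x h1 h2
  change fop μ _ (kp μ H f φ) x = _
  rw [h1, h2]
  rfl

theorem norm_vg {μ : Measure X} [SMulInvariantMeasure F X μ] (a : Cocy F X Λ) (A0 : Λ →* (H ≃ₗᵢ[ℂ] H)) (f : F)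
    (φ : XL μ H) : ‖vg μ a A0 f φ‖ = ‖φ‖ := by
  change ‖fop μ _ (kp μ H f φ)‖ = _
  rw [norm_fop (fm_vg a A0 f) (fun x v => LinearIsometryEquiv.norm_map (A0 (a.a f (f⁻¹ • x))) v),
    LinearIsometryEquiv.norm_map]

theorem vg_mul {μ : Measure X} [SMulInvariantMeasure F X μ] (a : Cocy F X Λ) (A0 : Λ →* (H ≃ₗᵢ[ℂ] H)) (f g : F)
    (φ : XL μ H) : vg μ a A0 (f * g) φ = vg μ a A0 f (vg μ a A0 g φ) := by
  refine xl_ext ?_
  filter_upwards [vg_apply a A0 (f * g) φ, vg_apply a A0 f (vg μ a A0 g φ),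
    (measurePreserving_smul f⁻¹ μ).quasiMeasurePreserving.ae (vg_apply a A0 g φ)] with x h1 h2 h3
  rw [h1, h2, h3]
  have h4 := a.mul f g (g⁻¹ • f⁻¹ • x)
  rw [smul_inv_smul] at h4
  rw [mul_inv_rev, mul_smul, h4, map_mul]
  rfl

theorem vg_one {μ : Measure X} [SMulInvariantMeasure F X μ] (a : Cocy F X Λ) (A0 : Λ →* (H ≃ₗᵢ[ℂ] H))
    (φ : XL μ H) : vg μ a A0 1 φ = φ := by
  refine xl_ext ?_
  filter_upwards [vg_apply a A0 1 φ] with x h1
  rw [h1, inv_one, one_smul, a.one, map_one]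
  rfl

/-- The unitary representation `vg`. -/
noncomputable def vgR (μ : Measure X) [SMulInvariantMeasure F X μ] (a : Cocy F X Λ) (A0 : Λ →* (H ≃ₗᵢ[ℂ] H)) :
    F →* (XL μ H ≃ₗᵢ[ℂ] XL μ H) where
  toFun f :=
    { toFun := vg μ a A0 f
      invFun := vg μ a A0 f⁻¹
      map_add' := map_add _
      map_smul' := map_smul _
      left_inv := fun φ => by rw [← vg_mul, inv_mul_cancel, vg_one]
      right_inv := fun φ => by rw [← vg_mul, mul_inv_cancel, vg_one]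
      norm_map' := fun φ => norm_vg a A0 f φ }
  map_one' := by
    ext φ : 1
    exact vg_one a A0 φ
  map_mul' f g := by
    ext φ : 1
    exact vg_mul a A0 f g φ

theorem vgR_apply {μ : Measure X} [SMulInvariantMeasure F X μ] (a : Cocy F X Λ) (A0 : Λ →* (H ≃ₗᵢ[ℂ] H)) (f : F)
    (φ : XL μ H) : vgR μ a A0 f φ = vg μ a A0 f φ := rfl

end Vg

section Cj

variable {G Λ : Type} [Group G] [Group Λ]

/-- The representation `l ↦ jjU (E.conj.U l)`. -/
noncomputable def jjR (E : Emb Λ G) : Λ →* (L2 G ≃ₗᵢ[ℂ] L2 G) where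
  toFun l := jjU (E.conj.U l)
  map_one' := by rw [map_one, jjU_one]
  map_mul' l m := by rw [map_mul, jjU_mul]

end Cj

section W

variable {G1 X G Λ : Type} [Group G1] [MeasurableSpace X] [MulAction G1 X] [MeasurableConstSMul G1 X]
  [Group G] [Group Λ] [Countable Λ]

/-- The operator `ξ ↦ (x ↦ U_(a(g, g⁻¹x)) I ξ(g⁻¹x))`. -/
noncomputable def WW (μ : Measure X) [SMulInvariantMeasure G1 X μ] (a : Cocy G1 X Λ) (E : Emb Λ G) (g : G1) :
    XL μ (L2 G) →L[ℂ] XL μ (L2 G) :=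
  (vg μ a E.U g).comp (cl μ ((ivU G).toContinuousLinearEquiv : L2 G →L[ℂ] L2 G))

/-- The operator `ξ ↦ (x ↦ U_(a(g, g⁻¹x)) ξ(g⁻¹x))`. -/
noncomputable abbrev ZZ (μ : Measure X) [SMulInvariantMeasure G1 X μ] (a : Cocy G1 X Λ) (E : Emb Λ G) (g : G1) :
    XL μ (L2 G) →L[ℂ] XL μ (L2 G) := vg μ a E.U g

theorem norm_WW {μ : Measure X} [SMulInvariantMeasure G1 X μ] (a : Cocy G1 X Λ) (E : Emb Λ G) (g : G1)
    (φ : XL μ (L2 G)) : ‖WW μ a E g φ‖ = ‖φ‖ := by
  change ‖vg μ a E.U g (clU μ (ivU G) φ)‖ = _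
  rw [norm_vg, LinearIsometryEquiv.norm_map]

variable {μ : Measure X} [SMulInvariantMeasure G1 X μ] [IsProbabilityMeasure μ]

/-- The sequence `WW (b n) φ`. -/
noncomputable def KS (μ : Measure X) [SMulInvariantMeasure G1 X μ] [IsProbabilityMeasure μ] (a : Cocy G1 X Λ)
    (E : Emb Λ G) (b : ℕ → G1) (φ : XL μ (L2 G)) : BSeq (XL μ (L2 G)) :=
  ⟨fun n => WW μ a E (b n) φ, 1 * ‖φ‖, fun n => by rw [norm_WW, one_mul]⟩

/-- The operator with values in `UX`. -/
noncomputable def KU (μ : Measure X) [SMulInvariantMeasure G1 X μ] [IsProbabilityMeasure μ] (a : Cocy G1 X Λ)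
    (E : Emb Λ G) (b : ℕ → G1) : XL μ (L2 G) →L[ℂ] UX μ (L2 G) :=
  LinearMap.mkContinuous
    { toFun := fun φ => UP.mk (KS μ a E b φ)
      map_add' := fun φ ψ => by
        rw [← UP.mk_add]
        exact congrArg UP.mk (Subtype.ext (funext fun n => map_add (WW μ a E (b n)) φ ψ))
      map_smul' := fun c φ => by
        rw [RingHom.id_apply, ← UP.mk_smul]
        exact congrArg UP.mk (Subtype.ext (funext fun n => map_smul (WW μ a E (b n)) c φ)) }
    1 (fun φ => UP.norm_mk_le (KS μ a E b φ) (C := 1 * ‖φ‖) fun n => by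
      change ‖WW μ a E (b n) φ‖ ≤ _
      rw [norm_WW, one_mul])

theorem KU_apply (a : Cocy G1 X Λ) (E : Emb Λ G) (b : ℕ → G1) (φ : XL μ (L2 G)) :
    KU μ a E b φ = UP.mk (KS μ a E b φ) := rfl

theorem WW_apply (a : Cocy G1 X Λ) (E : Emb Λ G) (g : G1) (φ : XL μ (L2 G)) :
    ∀ᵐ x ∂μ, WW μ a E g φ x = E.U (a.a g (g⁻¹ • x)) (ivU G (φ (g⁻¹ • x))) := by
  filter_upwards [vg_apply a E.U g (cl μ ((ivU G).toContinuousLinearEquiv : L2 G →L[ℂ] L2 G) φ),
    (measurePreserving_smul g⁻¹ μ).quasiMeasurePreserving.ae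
      (cl_apply ((ivU G).toContinuousLinearEquiv : L2 G →L[ℂ] L2 G) φ)] with x h1 h2
  change vg μ a E.U g (cl μ _ φ) x = _
  rw [h1, h2]
  rfl

theorem KU_mem (a : Cocy G1 X Λ) (E : Emb Λ G) (b : ℕ → G1) (φ : XL μ (L2 G)) : KU μ a E b φ ∈ EI μ (L2 G) := by
  refine xl_induction (P := fun φ => KU μ a E b φ ∈ EI μ (L2 G)) (fun s hs v => ?_) (fun f g h1 h2 => by
    rw [map_add]
    exact (EI μ (L2 G)).add_mem h1 h2) (isClosed_EI.preimage (KU μ a E b).continuous) φ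
  rw [KU_apply]
  refine mk_mem_EI (c := ‖v‖) ⟨norm_nonneg _, fun n => ?_⟩
  filter_upwards [WW_apply (μ := μ) a E (b n) (xE μ (L2 G) s (cst μ v)),
    (measurePreserving_smul (b n)⁻¹ μ).quasiMeasurePreserving.ae (xE_apply hs (cst μ v)),
    (measurePreserving_smul (b n)⁻¹ μ).quasiMeasurePreserving.ae (cst_apply (μ := μ) v)] with x h1 h2 h3
  change ‖WW μ a E (b n) (xE μ (L2 G) s (cst μ v)) x‖ ≤ _
  rw [h1, LinearIsometryEquiv.norm_map, LinearIsometryEquiv.norm_map, h2, h3, norm_smul]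
  refine mul_le_of_le_one_left (norm_nonneg _) ?_
  by_cases h : (b n)⁻¹ • x ∈ s <;> simp [h]

/-- The class of the sequence `WW (b n) φ`. -/
noncomputable def KK (μ : Measure X) [SMulInvariantMeasure G1 X μ] [IsProbabilityMeasure μ] (a : Cocy G1 X Λ)
    (E : Emb Λ G) (b : ℕ → G1) : XL μ (L2 G) →L[ℂ] UE μ (L2 G) :=
  (KU μ a E b).codRestrict (EI μ (L2 G)) (KU_mem a E b)

theorem val_KK (a : Cocy G1 X Λ) (E : Emb Λ G) (b : ℕ → G1) (φ : XL μ (L2 G)) :
    UE.val (KK μ a E b φ) = UP.mk (KS μ a E b φ) := rfl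

/-- The operators `XPpr R ∘ KK (b n v⁻¹)`. -/
noncomputable def TT (μ : Measure X) [SMulInvariantMeasure G1 X μ] [IsProbabilityMeasure μ] (a : Cocy G1 X Λ)
    (E : Emb Λ G) (R : Reg G) (b : ℕ → G1) (v : G1) : XL μ (L2 G) →L[ℂ] XUa μ R :=
  (XPpr R).comp (KK μ a E fun n => b n * v⁻¹)

/-- The projections given by the functions of the source point, on `XUa`. -/
noncomputable abbrev pyU (μ : Measure X) [SMulInvariantMeasure G1 X μ] [IsProbabilityMeasure μ] (b : ℕ → G1) (R : Reg G) :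
    PV X (XUa μ R) := (xmUa μ b R).py

/-- The projections given by the functions of the source point, on `XVp`. -/
noncomputable abbrev pyV (μ : Measure X) [SMulInvariantMeasure G1 X μ] [IsProbabilityMeasure μ] (b : ℕ → G1) (R : Reg G)
    (L : Type) [NormedAddCommGroup L] [InnerProductSpace ℂ L] [CompleteSpace L] :
    PV X (XVp μ R L) := (xmVp μ b R L).py

end W

end Pool.Agent.Helper84.GN.S3.X
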