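import Pool.Agent.Helper9.S3.Z0
import Pool.Agent.Helper9.S3X.Defs

/-!
# Project S3X, block W4: inversion

`‖cl μ (ind A) (zx g⁻¹)‖^2 = ∫ ‖ind A (cf (E.U (a.a g⁻¹ (g • x))))‖^2 dx` (`xl_norm_sq`, `cl_apply`, `zv_apply`, `inv_inv`), `a.a g⁻¹ (g • x) = (a.a g x)⁻¹` (`Cocy.a_inv`), `cf (E.U l⁻¹)` and `mass_inv` of `Helper9/S3/Z0.lean` (`‖ind A (cf w⁻¹)‖ = ‖ind {γ | γ⁻¹ ∈ A} (cf w)‖`), so it is `∫ ‖ind A' (cf (E.U (a.a g x)))‖^2 dx = ∫ ‖ind A' (cf (E.U (a.a g (g⁻¹ x))))‖^2 dx`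
by invariance of `μ` (`(measurePreserving_smul g μ)` or `kp` and `LinearIsometryEquiv.norm_map`).
-/

set_option autoImplicit false
set_option linter.unusedSectionVars false

open MeasureTheory Filter Topology

namespace Pool.Agent.Helper84.GN.S3.X

open NI GVN Pool.Agent.Helper90.RK
open Pool.Agent.Helper96.RK Pool.Agent.Helper66.FR Pool.Agent.Helper84.FR Pool.Agent.Helper55.FR

variable {G1 X G Λ : Type} [Group G1] [MeasurableSpace X] [MulAction G1 X] [MeasurableConstSMul G1 X]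
  [Group G] [Group Λ] [Countable Λ] {μ : Measure X} [SMulInvariantMeasure G1 X μ] [IsProbabilityMeasure μ]
  {a : Cocy G1 X Λ} {E : Emb Λ G}

omit [Group G1] [MulAction G1 X] [MeasurableConstSMul G1 X] [SMulInvariantMeasure G1 X μ] in
private theorem cl_zv_inv23 {c : X → Λ} (hc : Mea c) (A : Set G) :
    ‖cl μ (ind ℂ A) (zv μ E fun x => (c x)⁻¹)‖ = ‖cl μ (ind ℂ {γ | γ⁻¹ ∈ A}) (zv μ E c)‖ := by
  refine (sq_eq_sq₀ (norm_nonneg _) (norm_nonneg _)).1 ?_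
  rw [xl_norm_sq, xl_norm_sq]
  refine integral_congr_ae ?_
  filter_upwards [cl_apply (μ := μ) (ind ℂ A) (zv μ E fun x => (c x)⁻¹),
    cl_apply (μ := μ) (ind ℂ {γ | γ⁻¹ ∈ A}) (zv μ E c), zv_apply (μ := μ) (E := E) hc.inv,
    zv_apply (μ := μ) (E := E) hc] with x h1 h2 h3 h4
  rw [h1, h2, h3, h4, map_inv, mass_inv _ (E.comm _)]

theorem mass_invX (g : G1) (A : Set G) :
    ‖cl μ (ind ℂ A) (zx μ a E g⁻¹)‖ = ‖cl μ (ind ℂ {γ | γ⁻¹ ∈ A}) (zx μ a E g)‖ := by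
  have h1 : zx μ a E g⁻¹ = zv μ E fun x => (a.a g x)⁻¹ := by
    rw [zx_eq]
    congr 1
    funext x
    have h := a.a_inv g (g • x)
    rw [inv_smul_smul] at h
    rw [inv_inv, h]
  have h2 : kp μ (L2 G) g⁻¹ (zx μ a E g) = zv μ E (a.a g) := by
    rw [zx_eq, kp_zv g⁻¹ (mea_a g g⁻¹)]
    congr 1
    funext x
    rw [inv_inv, inv_smul_smul]
  rw [h1, cl_zv_inv23 (a.meas g), ← h2, cl_kp, LinearIsometryEquiv.norm_map]

end Pool.Agent.Helper84.GN.S3.X
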