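import Pool.Agent.Helper9.S3X.Defs

/-!
# Project S3X, block C2: masses and components

`mass_of_PprX`: `XPpr R` commutes with `UE.map μ (ind ℂ B)` (`hom`-type lemma: `proj_comm` in `Helper84/FR/XR.lean` with `T = T' = UE.map μ (ind ℂ B)`, `xinner_ind`, `ind_mem_XUa`), `XUa_ind` for `A`: so `UE.map (ind B) (XPpr ζ) = UE.map (ind B) (UE.map (ind A) (XPpr ζ)) = XPpr (UE.map (ind (A ∩ B)) ζ)`, norm `≤ ‖UE.map (ind (A ∩ B)) ζ‖ ≤ β` (`norm_XPpr_le`, `UE.map_mk`, `UE.tendsto_norm`, `le_of_tendsto'`).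
`Ppr_of_massX`: `ξ = tru (fun m => WC S J r ∩ TC S [J] m) (fun n => z (b n)) _` (`Helper55/FR/Sel.lean`); `ind_tru`, `tru_congr`: for `s ∈ F r`, `s ⊇ WC S J r ∩ TC S [J] m0` (`mem_FC`), `TC_anti`: `UE.map (ind s) ξ = ξ`, so `ξ ∈ XUaSet`; `inner_tru`, `le_norm_tru`, `XPpr_ne_zero`. `hasComp_of_Ppr`: if `⟪ξ, ζ⟫ = 0` for all `ξ ∈ XUaSet` then for all `ξ ∈ XUa` (closure of the span), so `⟪XPpr ζ, ζ⟫ = ⟪XPpr ζ, XPpr ζ⟫ = 0` (`inner_XPpr`).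
-/

set_option autoImplicit false
set_option linter.unusedSectionVars false

open MeasureTheory Filter Topology

namespace Pool.Agent.Helper84.GN.S3.X

open NI GVN Pool.Agent.Helper90.RK
open Pool.Agent.Helper96.RK Pool.Agent.Helper66.FR Pool.Agent.Helper84.FR Pool.Agent.Helper55.FR

variable {G X : Type} [Group G] [MeasurableSpace X] {μ : Measure X} [IsProbabilityMeasure μ] {N : ℕ} {P : PH G N}
variable {I : Type} {z : I → XL μ (L2 G)} {hz : ∀ i, ∀ᵐ y ∂μ, ‖z i y‖ ≤ 1}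

theorem mass_of_PprX (R : Reg G) {b : ℕ → I} {A : Set G} (hA : ∀ n, A ∈ R.F n) {B : Set G} {β : ℝ}
    (hβ : ∀ n, ‖cl μ (ind ℂ (A ∩ B)) (z (b n))‖ ≤ β) :
    ‖UE.map μ (ind ℂ B) ((XPpr R (cls (fun n => z (b n)) fun n => hz (b n)) : XUa μ R) : UE μ (L2 G))‖ ≤ β := by
  set ζ : UE μ (L2 G) := cls (fun n => z (b n)) fun n => hz (b n) with hζ
  have h1 : UE.map μ (ind ℂ B) ((XPpr R ζ : XUa μ R) : UE μ (L2 G)) =
      UE.map μ (ind ℂ (A ∩ B)) ((XPpr R ζ : XUa μ R) : UE μ (L2 G)) := by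
    conv_lhs => rw [← XUa_ind R hA (XPpr R ζ).2]
    rw [xind_ind, Set.inter_comm]
  have h2 : UE.map μ (ind ℂ (A ∩ B)) ((XPpr R ζ : XUa μ R) : UE μ (L2 G)) =
      ((XPpr R (UE.map μ (ind ℂ (A ∩ B)) ζ) : XUa μ R) : UE μ (L2 G)) :=
    (proj_comm (V := XUa μ R) (T := UE.map μ (ind ℂ (A ∩ B))) (T' := UE.map μ (ind ℂ (A ∩ B)))
      (fun x y => xinner_ind _ x y) (fun x hx => ind_mem_XUa R _ hx) (fun x hx => ind_mem_XUa R _ hx) ζ).symm
  have h3 : UE.map μ (ind ℂ (A ∩ B)) ζ = tru (fun _ => A ∩ B) (fun n => z (b n)) (fun n => hz (b n)) := by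
    rw [hζ]
    unfold Pool.Agent.Helper55.FR.tru cls
    rw [UE.map_mk]
    rfl
  rw [h1, h2]
  refine (norm_XPpr_le (μ := μ) (R := R) _).trans ?_
  rw [h3]
  exact le_of_tendsto' (UE.tendsto_norm _ (eb_bs _ _)) fun n => hβ n

theorem Ppr_of_massX (S : Sv P) (J : Finset (Fin N)) {b : ℕ → I} {β : ℝ} {r : ℕ} (hβ : 0 < β)
    (h : ∀ m : ℕ, β ≤ ‖cl μ (ind ℂ (WC S J r ∩ TC S [J] m)) (z (b m))‖) :
    XPpr (toReg (chStr S J [])) (cls (fun n => z (b n)) fun n => hz (b n)) ≠ 0 := by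
  set ξ : UE μ (L2 G) := tru (fun m => WC S J r ∩ TC S [J] m) (fun n => z (b n)) (fun n => hz (b n)) with hξ
  have h1 : β ≤ ‖ξ‖ := le_norm_tru h
  have h2 : ξ ∈ XUa μ (toReg (chStr S J [])) := by
    refine Submodule.le_topologicalClosure _ (Submodule.subset_span ⟨r, fun s hs => ?_⟩)
    obtain ⟨m0, hm0⟩ := (mem_FC S).1 (show s ∈ FC S J [] r from hs)
    rw [hξ, Pool.Agent.Helper55.FR.ind_tru]
    refine Pool.Agent.Helper55.FR.tru_congr _ _ m0 fun m hm => ?_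
    refine Set.inter_eq_right.2 fun γ hγ => ?_
    exact hm0 ⟨hγ.1, TC_anti S [J] hm hγ.2⟩
  refine XPpr_ne_zero _ h2 ?_
  rw [Pool.Agent.Helper55.FR.inner_tru]
  have h3 : ‖ξ‖ ≠ 0 := (hβ.trans_le h1).ne'
  exact_mod_cast pow_ne_zero 2 h3

theorem hasComp_of_Ppr (R : Reg G) {b : ℕ → I} (h : XPpr R (cls (fun n => z (b n)) fun n => hz (b n)) ≠ 0) :
    HasComp R z hz b := by
  by_contra hcon
  refine h ?_
  set ζ : UE μ (L2 G) := cls (fun n => z (b n)) fun n => hz (b n) with hζ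
  have h1 : ∀ ξ ∈ XUaSet μ R, inner ℂ ξ ζ = 0 := by
    intro ξ hξ
    by_contra h2
    exact hcon ⟨ξ, hξ, h2⟩
  have h2 : XUa μ R ≤ (ℂ ∙ ζ)ᗮ := by
    refine Submodule.topologicalClosure_minimal _ ?_ (Submodule.isClosed_orthogonal _)
    rw [Submodule.span_le]
    intro ξ hξ
    exact (Submodule.mem_orthogonal_singleton_iff_inner_left).2 (h1 ξ hξ)
  have h3 := (Submodule.mem_orthogonal_singleton_iff_inner_left).1 (h2 (XPpr R ζ).2)
  rw [inner_XPpr, inner_self_eq_zero] at h3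
  exact h3

end Pool.Agent.Helper84.GN.S3.X
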