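import Pool.Agent.Helper9.S3.Z4
import Pool.Agent.Helper9.S3X.K2
import Pool.Agent.Helper9.S3X.C2

/-!
# Project S3X, block ZL: the lower bound

ADAPT `Helper9/S3/Z4.lean`. Let `α = ‖XPpr (vec b)‖ > 0`, `a_v = XPpr (vec (b n v⁻¹))`, `‖a_v‖ = α` (`norm_vecP`). `hH (α/2)` gives `R0`. `A = Last S R0` belongs to all the filters `F n` (see `Z4.lean`), `B = {γ | some gap other than the last one is > R0}`, `A ∩ B ⊆ Bad S R0`: `mass_of_PprX` (`z = zx μ a E`, the sequence `b n v⁻¹` in `F`): `‖UE.map (ind B) a_v‖ ≤ α/2`, so `‖UE.map (ind Bᶜ) a_v‖^2 ≥ (3/4) α^2` (`xind_ind`, Pythagoras).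
`Bᶜ ⊆ WC S (Jm N) n` for `n ≥ log R0`. The lower bound of the cocycle `Γ` on `W n` (`Coc` field used in `Helper84/FR/ET.lean`, `escapeX`, together with `xlower`, `inner_XTL_XTR`) gives `Re ⟪XTL a_v, XTR a_v⟫ ≥ c_n (3/4) α^2`.
-/

set_option autoImplicit false
set_option linter.unusedSectionVars false

open MeasureTheory Filter Topology

namespace Pool.Agent.Helper84.GN.S3.X

open NI GVN Pool.Agent.Helper90.RK
open Pool.Agent.Helper96.RK Pool.Agent.Helper66.FR Pool.Agent.Helper84.FR Pool.Agent.Helper55.FR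

variable {G1 X G Λ : Type} [Group G1] [MeasurableSpace X] [MulAction G1 X] [MeasurableConstSMul G1 X]
  [Group G] [Group Λ] [Countable Λ] {μ : Measure X} [SMulInvariantMeasure G1 X μ] [IsProbabilityMeasure μ]
  {a : Cocy G1 X Λ} {E : Emb Λ G} {N : ℕ} {P : PH G N}

private theorem cl_ind_mono87 {A B : Set G} (h : A ⊆ B) (f : XL μ (L2 G)) :
    ‖cl μ (ind ℂ A) f‖ ≤ ‖cl μ (ind ℂ B) f‖ := by
  have h1 := cl_ind_ind A B f
  rw [Set.inter_eq_left.2 h] at h1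
  rw [← h1]
  have h2 := norm_cl_le_of (μ := μ) (T := ind ℂ A) (C := 1) zero_le_one (fun x => by
    rw [one_mul]
    exact norm_ind2 _ _) (cl μ (ind ℂ B) f)
  rwa [one_mul] at h2

private theorem split87 (A : Set G) (ξ : UE μ (L2 G)) :
    ξ = UE.map μ (ind ℂ A) ξ + UE.map μ (ind ℂ Aᶜ) ξ := by
  classical
  have h1 : (ContinuousLinearMap.id ℂ (L2 G)) = ind ℂ A + ind ℂ Aᶜ := by
    ext1 f
    apply lv_ext
    intro i
    rw [_root_.add_apply, lp.coeFn_add, Pi.add_apply, ContinuousLinearMap.id_apply, ind_apply, ind_apply]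
    by_cases h4 : i ∈ A <;> simp [h4]
  rw [← UE.map_add, ← h1, UE.map_id]

theorem lowX (hN : 3 ≤ N) (S : Sv P) (F : Subgroup G1)
    (hH : ∀ β : ℝ, 0 < β → ∃ R : ℝ, ∀ f ∈ F, ‖cl μ (ind ℂ (Bad S R)) (zx μ a E f)‖ ≤ β) {b : ℕ → G1} (hb : ∀ n, b n ∈ F)
    (h0 : XPpr (toReg (Sm S)) (vec μ a E b) ≠ 0) {L : Type} [NormedAddCommGroup L] [InnerProductSpace ℂ L]
    [CompleteSpace L] (Γ : Coc (toReg (Sm S)) L) : ∃ c : ℝ, 0 < c ∧ ∀ v ∈ F, c ≤ (inner ℂ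
      (XTL μ Γ (XPpr (toReg (Sm S)) (vec μ a E fun n => b n * v⁻¹)))
      (XTR μ Γ (XPpr (toReg (Sm S)) (vec μ a E fun n => b n * v⁻¹))) : ℂ).re := by
  have hα : 0 < ‖XPpr (toReg (Sm S)) (vec μ a E b)‖ := norm_pos_iff.2 h0
  set α : ℝ := ‖XPpr (toReg (Sm S)) (vec μ a E b)‖ with hαd
  obtain ⟨R0, hR0⟩ := hH (α / 2) (half_pos hα)
  obtain ⟨n, hn⟩ : ∃ n : ℕ, R0 ≤ n := ⟨⌈R0⌉₊, Nat.le_ceil R0⟩
  have hexp : R0 < Real.exp n := by
    have := Real.add_one_le_exp (n : ℝ)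
    linarith
  obtain ⟨c, hc, hpos⟩ := Γ.pos n
  have hW : (toReg (Sm S)).W n = WC S (Jm N) n := rfl
  rw [hW] at hpos
  refine ⟨c * (α / 2) ^ 2, by positivity, fun v hv => ?_⟩
  have hna : ‖XPpr (toReg (Sm S)) (vec μ a E fun n => b n * v⁻¹)‖ = α := norm_vecP v
  have hsub : TC S [Jm N] n ∩ (WC S (Jm N) n)ᶜ ⊆ Bad S R0 := by
    rintro γ ⟨h1, h2⟩
    have h3 : ∃ i ∈ Jm N, (n : ℝ) < lg S γ i := by
      by_contra hcon
      push Not at hcon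
      exact h2 hcon
    obtain ⟨i, hi, hlt⟩ := h3
    have hi2 : (i : ℕ) + 2 ≠ N := (Finset.mem_filter.1 hi).2
    have hj : N - 2 < N := by omega
    have hj2 : ((⟨N - 2, hj⟩ : Fin N) : ℕ) + 2 = N := by
      change N - 2 + 2 = N
      omega
    refine ⟨i, ⟨N - 2, hj⟩, hj2, hi2, ?_, ?_⟩
    · rw [gp_eq_exp]
      exact hexp.trans (Real.exp_lt_exp.2 hlt)
    · rw [gp_eq_exp]
      have h4 := h1 (Jm N) (List.mem_singleton.2 rfl) ⟨N - 2, hj⟩ (by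
        intro h5
        exact (Finset.mem_filter.1 h5).2 hj2)
      have h6 := sum_lg_nonneg S γ (Jm N)
      have h7 : (n : ℝ) ≤ lg S γ ⟨N - 2, hj⟩ := by
        refine le_trans ?_ h4
        have h8 : (0 : ℝ) ≤ n := Nat.cast_nonneg n
        nlinarith
      exact hexp.trans_le (Real.exp_le_exp.2 h7)
  have hm : ‖UE.map μ (ind ℂ (WC S (Jm N) n)ᶜ)
      ((XPpr (toReg (Sm S)) (vec μ a E fun n => b n * v⁻¹) : XUa μ (toReg (Sm S))) : UE μ (L2 G))‖ ≤ α / 2 := by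
    have h1 := mass_of_PprX (μ := μ) (z := zx μ a E) (hz := fun g => zx_bound g) (toReg (Sm S))
      (b := fun n => b n * v⁻¹) (A := TC S [Jm N] n) (fun k => TC_mem_FC S (Jm N) [] n k)
      (B := (WC S (Jm N) n)ᶜ) (β := α / 2) (fun k =>
        (cl_ind_mono87 hsub _).trans (hR0 _ (F.mul_mem (hb k) (F.inv_mem hv))))
    exact h1
  have hw : α / 2 ≤ ‖UE.map μ (ind ℂ (WC S (Jm N) n))
      ((XPpr (toReg (Sm S)) (vec μ a E fun n => b n * v⁻¹) : XUa μ (toReg (Sm S))) : UE μ (L2 G))‖ := by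
    have h1 := norm_add_le (UE.map μ (ind ℂ (WC S (Jm N) n))
      ((XPpr (toReg (Sm S)) (vec μ a E fun n => b n * v⁻¹) : XUa μ (toReg (Sm S))) : UE μ (L2 G)))
      (UE.map μ (ind ℂ (WC S (Jm N) n)ᶜ)
      ((XPpr (toReg (Sm S)) (vec μ a E fun n => b n * v⁻¹) : XUa μ (toReg (Sm S))) : UE μ (L2 G)))
    rw [← split87] at h1
    have h2 : ‖((XPpr (toReg (Sm S)) (vec μ a E fun n => b n * v⁻¹) : XUa μ (toReg (Sm S))) : UE μ (L2 G))‖ = α := hna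
    linarith
  rw [inner_XTL_XTR]
  refine le_trans ?_ (xlower (W := WC S (Jm N) n) (c := c) (fun γ => ?_) (fun γ => Γ.nonneg γ)
    (fun γ hγ => hpos γ hγ) _)
  · exact mul_le_mul_of_nonneg_left (pow_le_pow_left₀ (half_pos hα).le hw 2) hc.le
  · refine (norm_inner_le_norm _ _).trans ?_
    rw [Γ.nvX, Γ.nv, mul_one]

end Pool.Agent.Helper84.GN.S3.X
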