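import Pool.Agent.Helper9.S3.Z3
import Pool.Agent.Helper9.S3X.C2

/-!
# Project S3X, block ZS: start

ADAPT `Helper9/S3/Z3.lean`. `hH (β/2)` gives `R0`. For `R ≥ R0` on `Last S R \ Bad S R0` all gaps except the last one are at most `R0`, so this set is contained in `WC S (Jm N) r` for `r ≥ log R0`, and in `TC S [Jm N] m` for `R ≥ exp (m (1 + N r))`. Its mass is at least `β/2` for the element `f ∈ F` of `hL R` (`‖ind A f‖ ≤ ‖ind (A \ B) f‖ + ‖ind B f‖` pointwise, `cl_add` or Minkowski). `Ppr_of_massX` with `z = zx μ a E : G1 → _`, and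
`vec μ a E b = cls (fun n => zx μ a E (b n)) _` (`vec_eq`, `rfl`).
-/

set_option autoImplicit false
set_option linter.unusedSectionVars false

open MeasureTheory Filter Topology

namespace Pool.Agent.Helper84.GN.S3.X

open NI GVN Pool.Agent.Helper90.RK
open Pool.Agent.Helper96.RK Pool.Agent.Helper66.FR Pool.Agent.Helper84.FR Pool.Agent.Helper55.FR

section Geo34

variable {G : Type} [Group G] {N : ℕ} {P : PH G N}

private theorem geo34zs (hN : 3 ≤ N) (S : Sv P) {R₀ R : ℝ} {n m : ℕ} (hn : R₀ ≤ Real.exp n)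
    (hR : R₀ ≤ R) (hR' : Real.exp ((m : ℝ) * (1 + N * n)) ≤ R) :
    Last S R \ Bad S R₀ ⊆ WC S (Jm N) n ∩ TC S [Jm N] m := by
  rintro γ ⟨h1, h2⟩
  have hj : N - 2 < N := by omega
  have hg : ∀ i : Fin N, (i : ℕ) + 2 ≠ N → lg S γ i ≤ n := by
    intro i hi
    have hle : gp S γ i ≤ R₀ := by
      by_contra hcon
      push Not at hcon
      apply h2
      refine ⟨i, ⟨N - 2, hj⟩, ?_, hi, hcon, ?_⟩
      · show N - 2 + 2 = N
        omega
      · refine lt_of_le_of_lt hR (h1 _ ?_)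
        show N - 2 + 2 = N
        omega
    have hpos : 0 < gp S γ i := lt_of_lt_of_le one_pos (one_le_gp S γ i)
    have := Real.log_le_log hpos (hle.trans hn)
    rwa [Real.log_exp] at this
  refine ⟨?_, ?_⟩
  · intro i hi
    exact hg i (Finset.mem_filter.1 hi).2
  · intro I hI j hjI
    rw [List.mem_singleton] at hI
    subst hI
    have hj2 : (j : ℕ) + 2 = N := by
      by_contra hcon
      exact hjI (Finset.mem_filter.2 ⟨Finset.mem_univ _, hcon⟩)
    have hlt := h1 j hj2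
    have hlg : (m : ℝ) * (1 + N * n) ≤ lg S γ j := by
      unfold lg
      rw [Real.le_log_iff_exp_le (lt_of_lt_of_le one_pos (one_le_gp S γ j))]
      exact hR'.trans hlt.le
    have hsum : ∑ i ∈ Jm N, lg S γ i ≤ (N : ℝ) * n := by
      calc ∑ i ∈ Jm N, lg S γ i ≤ ∑ i ∈ Jm N, (n : ℝ) :=
            Finset.sum_le_sum fun i hi => hg i (Finset.mem_filter.1 hi).2
        _ = ((Jm N).card : ℝ) * n := by rw [Finset.sum_const, nsmul_eq_mul]
        _ ≤ (N : ℝ) * n := by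
            have h4 : ((Jm N).card : ℝ) ≤ N := by
              have := Finset.card_le_univ (Jm N)
              rw [Fintype.card_fin] at this
              exact_mod_cast this
            exact mul_le_mul_of_nonneg_right h4 (Nat.cast_nonneg n)
    refine le_trans (mul_le_mul_of_nonneg_left ?_ (Nat.cast_nonneg m)) hlg
    linarith

end Geo34

section Ind34

variable {G X : Type} [MeasurableSpace X] {μ : Measure X}

private theorem clind_mono34 {A B : Set G} (h : A ⊆ B) (f : XL μ (L2 G)) :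
    ‖cl μ (ind ℂ A) f‖ ≤ ‖cl μ (ind ℂ B) f‖ := by
  have h1 : cl μ (ind ℂ A) f = cl μ (ind ℂ A) (cl μ (ind ℂ B) f) := by
    rw [← cl_comp]
    congr 2
    ext1 v
    change ind ℂ A v = ind ℂ A (ind ℂ B v)
    rw [ind_ind2, Set.inter_eq_left.2 h]
  rw [h1]
  have h2 := norm_cl_le_of (μ := μ) (T := (ind ℂ A : L2 G →L[ℂ] L2 G)) zero_le_one
    (fun v => by rw [one_mul]; exact norm_ind2 _ _) (cl μ (ind ℂ B) f)
  rwa [one_mul] at h2

private theorem clind_split34 (A B : Set G) (f : XL μ (L2 G)) :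
    cl μ (ind ℂ A) f = cl μ (ind ℂ (A \ B)) f + cl μ (ind ℂ (A ∩ B)) f := by
  classical
  have h1 : (ind ℂ A : L2 G →L[ℂ] L2 G) = ind ℂ (A \ B) + ind ℂ (A ∩ B) := by
    ext1 v
    apply lv_ext
    intro i
    have h : ((ind ℂ (A \ B) + ind ℂ (A ∩ B) : L2 G →L[ℂ] L2 G) v) i = ind ℂ (A \ B) v i + ind ℂ (A ∩ B) v i := rfl
    rw [h, ind_apply, ind_apply, ind_apply]
    by_cases h1 : i ∈ A <;> by_cases h2 : i ∈ B <;> simp [h1, h2]
  rw [h1, cl_add]
  rfl

end Ind34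

variable {G1 X G Λ : Type} [Group G1] [MeasurableSpace X] [MulAction G1 X] [MeasurableConstSMul G1 X]
  [Group G] [Group Λ] [Countable Λ] {μ : Measure X} [SMulInvariantMeasure G1 X μ] [IsProbabilityMeasure μ]
  {a : Cocy G1 X Λ} {E : Emb Λ G} {N : ℕ} {P : PH G N}

theorem exists_startX (hN : 3 ≤ N) (S : Sv P) (F : Subgroup G1)
    (hH : ∀ β : ℝ, 0 < β → ∃ R : ℝ, ∀ f ∈ F, ‖cl μ (ind ℂ (Bad S R)) (zx μ a E f)‖ ≤ β) {β : ℝ} (hβ : 0 < β)
    (hL : ∀ R : ℝ, ∃ f ∈ F, β ≤ ‖cl μ (ind ℂ (Last S R)) (zx μ a E f)‖) :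
    ∃ b : ℕ → G1, (∀ n, b n ∈ F) ∧ XPpr (toReg (Sm S)) (vec μ a E b) ≠ 0 := by
  obtain ⟨R₀, hR₀⟩ := hH (β / 2) (by linarith)
  obtain ⟨n, hn⟩ : ∃ n : ℕ, R₀ ≤ Real.exp n := by
    obtain ⟨n, hn⟩ := exists_nat_ge R₀
    refine ⟨n, hn.trans ?_⟩
    have := Real.add_one_le_exp (n : ℝ)
    linarith
  choose b hbF he using fun m : ℕ => hL (max R₀ (Real.exp ((m : ℝ) * (1 + N * n))))
  refine ⟨b, hbF, ?_⟩
  have key := Ppr_of_massX (μ := μ) S (Jm N) (z := fun g : G1 => zx μ a E g) (hz := fun g => zx_bound g)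
    (b := b) (β := β / 2) (r := n) (by linarith) ?_
  · exact key
  intro m
  have hsub := geo34zs hN S (m := m) hn (le_max_left R₀ (Real.exp ((m : ℝ) * (1 + N * n))))
    (le_max_right _ _)
  refine le_trans ?_ (clind_mono34 hsub _)
  have h1 := he m
  rw [clind_split34 _ (Bad S R₀)] at h1
  have h2 := h1.trans (norm_add_le _ _)
  have h3 : ‖cl μ (ind ℂ (Last S (max R₀ (Real.exp ((m : ℝ) * (1 + N * n)))) ∩ Bad S R₀)) (zx μ a E (b m))‖
      ≤ β / 2 := (clind_mono34 Set.inter_subset_right _).trans (hR₀ (b m) (hbF m))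
  linarith

end Pool.Agent.Helper84.GN.S3.X
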