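import Pool.Agent.Helper9.S3.E0
import Pool.Agent.Helper9.S3.E1
import Pool.Agent.Helper9.S3.E2
import Pool.Agent.Helper9.S3.P3
import Pool.Agent.Helper9.S3.P4
import Pool.Agent.Helper9.S3.F0
import Pool.Agent.Helper9.S3X.D2
import Pool.Agent.Helper9.S3X.LM
import Pool.Agent.Helper9.S3X.ZS
import Pool.Agent.Helper9.S3X.ZL
import Pool.Agent.Helper9.S3X.W4

/-!
# Project S3X, block Z5: the main theorem

See `Helper9/S3/Z5.lean`.
-/

set_option autoImplicit false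
set_option linter.unusedSectionVars false

open MeasureTheory Filter Topology

namespace Pool.Agent.Helper84.GN.S3.X

open NI GVN Pool.Agent.Helper90.RK
open Pool.Agent.Helper96.RK Pool.Agent.Helper66.FR Pool.Agent.Helper84.FR Pool.Agent.Helper55.FR

variable {G1 X G Λ : Type} [Group G1] [MeasurableSpace X] [MulAction G1 X] [MeasurableConstSMul G1 X]
  [Group G] [Group Λ] [Countable Λ] {μ : Measure X} [SMulInvariantMeasure G1 X μ] [IsProbabilityMeasure μ]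
  {a : Cocy G1 X Λ} {E : Emb Λ G} {N : ℕ} {P : PH G N}

/-- If the last gap is reached on `F`, then the last gap is reached together with another one. -/
theorem reach_lastX (hN : 3 ≤ N) (S : Sv P) (F : Subgroup G1) [Countable F] (hF : NonAm F)
    (p : X → Λ → F) (hp : ∀ l g, MeasurableSet {x | p x l = g})
    (hpe : ∀ (f : F) (x : X) (l : Λ), p ((f : G1) • x) (a.a f x * l) = f * p x l) {β : ℝ} (hβ : 0 < β)
    (hL : ∀ R : ℝ, ∃ f ∈ F, β ≤ ‖cl μ (ind ℂ (Last S R)) (zx μ a E f)‖) :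
    ∃ β : ℝ, 0 < β ∧ ∀ R : ℝ, ∃ f ∈ F, β ≤ ‖cl μ (ind ℂ (Bad S R)) (zx μ a E f)‖ := by
  by_contra hcon
  push Not at hcon
  have hH : ∀ β : ℝ, 0 < β → ∃ R : ℝ, ∀ f ∈ F, ‖cl μ (ind ℂ (Bad S R)) (zx μ a E f)‖ ≤ β := by
    intro β hβ
    obtain ⟨R, hR⟩ := hcon β hβ
    exact ⟨R, fun f hf => (hR f hf).le⟩
  obtain ⟨b, hb, h0⟩ := exists_startX hN S F hH hβ hL
  obtain ⟨L, i1, i2, i3, ⟨Ψ⟩⟩ := exists_fibX N
  obtain ⟨Γ, hΓ, -, -⟩ := exists_xcoc (Sm S) Ψ.toFibM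
  obtain ⟨c, hc, hlow⟩ := lowX hN S F hH hb h0 Γ
  refine dilationX F Γ b (posPD S (Sm S).b) (fun l hl m hm => loc_mainX hN S F hH hb hl hm)
    (fun h => pcf_pi (Sm S) Ψ.toFibM Γ hΓ h) (fun Q ε hε => ?_) p hp hpe hc hlow hF
  obtain ⟨D, A, hD⟩ := exists_xmul (Sm S) Ψ Γ hΓ Q hε
  exact ⟨D, fun t => pcf_mo (Sm S) Ψ A t _ fun γ w => hD γ t w⟩

private theorem cl_ind_mono {A B : Set G} (h : A ⊆ B) (f : XL μ (L2 G)) :
    ‖cl μ (ind ℂ A) f‖ ≤ ‖cl μ (ind ℂ B) f‖ := by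
  have h1 := cl_ind_ind A B f
  rw [Set.inter_eq_left.2 h] at h1
  rw [← h1]
  have h2 := norm_cl_le_of (μ := μ) (T := ind ℂ A) (C := 1) zero_le_one (fun x => by
    rw [one_mul]
    exact norm_ind2 _ _) (cl μ (ind ℂ B) f)
  rwa [one_mul] at h2

/-- Main theorem. -/
theorem reachX (hN : 3 ≤ N) (S : Sv P) (F : Subgroup G1) [Countable F] (hF : NonAm F)
    (p : X → Λ → F) (hp : ∀ l g, MeasurableSet {x | p x l = g})
    (hpe : ∀ (f : F) (x : X) (l : Λ), p ((f : G1) • x) (a.a f x * l) = f * p x l) {β : ℝ} (hβ : 0 < β)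
    (hL : (∀ R : ℝ, ∃ f ∈ F, β ≤ ‖cl μ (ind ℂ (Last S R)) (zx μ a E f)‖) ∨
      ∀ R : ℝ, ∃ f ∈ F, β ≤ ‖cl μ (ind ℂ (First S R)) (zx μ a E f)‖) :
    ∃ β : ℝ, 0 < β ∧ ∀ R : ℝ, ∃ f ∈ F, β ≤ ‖cl μ (ind ℂ (Two S R)) (zx μ a E f)‖ := by
  have hL2 : ∀ R : ℝ, ∃ f ∈ F, β ≤ ‖cl μ (ind ℂ (Last S R)) (zx μ a E f)‖ := by
    rcases hL with hL | hL
    · exact hL
    · intro R
      obtain ⟨f, hf, hl⟩ := hL R
      refine ⟨f⁻¹, F.inv_mem hf, ?_⟩
      rw [mass_invX]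
      have h1 : {γ | γ⁻¹ ∈ Last S R} = First S R := by
        ext γ
        constructor
        · intro h j hj
          have hj2 : N - 2 < N := by omega
          have h2 := h ⟨N - 2, hj2⟩ (by simp only; omega)
          rw [gp_inv S γ (i := ⟨N - 2, hj2⟩) (j := j) (by simp only; omega)] at h2
          exact h2
        · intro h j hj
          have h0 : 0 < N := by omega
          have h2 := h ⟨0, h0⟩ rfl
          rw [gp_inv S γ (i := j) (j := ⟨0, h0⟩) (by simp only; omega)]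
          exact h2
      rw [h1]
      exact hl
  obtain ⟨β', hβ', h⟩ := reach_lastX hN S F hF p hp hpe hβ hL2
  refine ⟨β', hβ', fun R => ?_⟩
  obtain ⟨f, hf, hl⟩ := h R
  refine ⟨f, hf, hl.trans (cl_ind_mono ?_ _)⟩
  rintro γ ⟨i, j, hj, hi, h1, h2⟩
  refine ⟨i, j, ?_, h1, h2⟩
  rintro rfl
  exact hi hj

end Pool.Agent.Helper84.GN.S3.X
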