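import Pool.Agent.Helper9.S3X.Defs

/-!
# Project S3X, block H1: a fixed vector from the convex hull

`opL_triv`: `opL M a U f = (M.S f) ∘ tw M.px U (a.a f)` and `tw M.px (cTriv Λ K) c = id` (`hasSum_tw` or the definition of `tw`, `M.px.sum`, uniqueness of sums). Put `σ f = sgm M a (cTriv Λ K) (CRep.ext B E.conj) f`. `UHom M (cTriv Λ K)` and `UCom (cTriv ..) (..)` are trivial, `UHom M (CRep.ext B E.conj)` is `uhom_ext E.conj hB`, so `sgm_mul`, `norm_sgm_le` (`Helper84/FR/SG.lean`) apply.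
`BddX M ν B` is preserved by `σ f`: by `opR` (`bddX_opR` in `Helper84/FR/HB.lean` with `A = 1`: `MRep M 1 B` is trivial from `hB`) and by `M.S f` (direct: `M.py.p D (M.S f ξ) = M.S f (M.py.p ((fun x => f • x) ⁻¹' D) ξ)` by `M.Sy`, invariance of `ν`, `B g` commutes with `M.S f`; compare `bddX_opL`). The set `{ξ | BddX M ν B ξ ∧ c ≤ Re ⟪ξ, ξ₀⟫}` is closed and convex and contains the orbit `σ f η₀`.
The element of least norm of the closed convex hull of the orbit is fixed (COPY the end of the proof of `hullX` and the private lemmas `hx_fix`, `hx_closed` of `Helper84/FR/HX.lean`; there is no continuity condition here). It is not zero since `Re ⟪η, ξ₀⟫ ≥ c`.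
-/

set_option autoImplicit false
set_option linter.unusedSectionVars false

open MeasureTheory Filter Topology

namespace Pool.Agent.Helper84.GN.S3.X

open NI GVN Pool.Agent.Helper90.RK
open Pool.Agent.Helper96.RK Pool.Agent.Helper66.FR Pool.Agent.Helper84.FR Pool.Agent.Helper55.FR

variable {F X Λ G : Type} [Group F] [MulAction F X] [MeasurableSpace X] [MeasurableConstSMul F X] [Group Λ]
  [Countable Λ] [Group G]
variable {K L0 : Type} [NormedAddCommGroup K] [InnerProductSpace ℂ K] [CompleteSpace K]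
  [NormedAddCommGroup L0] [InnerProductSpace ℂ L0] [CompleteSpace L0]

/-- Contractions preserving a closed convex set of a Hilbert space fix its point of least norm. -/
private theorem fix38 {F : Type} [NormedAddCommGroup F] [InnerProductSpace ℝ F] [CompleteSpace F]
    {ι : Type} (T : ι → F → F) (C : Set F) (hne : C.Nonempty) (hcl : IsClosed C)
    (hconv : Convex ℝ C) (hT : ∀ i, ∀ x ∈ C, T i x ∈ C) (hn : ∀ i x, ‖T i x‖ ≤ ‖x‖) :
    ∃ η ∈ C, ∀ i, T i η = η := by
  obtain ⟨η, hη, hmin⟩ := exists_norm_eq_iInf_of_complete_convex hne hcl.isComplete hconv 0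
  have hle : ∀ w ∈ C, ‖η‖ ≤ ‖w‖ := by
    intro w hw
    have h1 : (⨅ w : C, ‖(0 : F) - w‖) ≤ ‖(0 : F) - (⟨w, hw⟩ : C)‖ :=
      ciInf_le ⟨0, Set.forall_mem_range.2 fun _ => norm_nonneg _⟩ (⟨w, hw⟩ : C)
    rw [← hmin, zero_sub, zero_sub, norm_neg, norm_neg] at h1
    exact h1
  refine ⟨η, hη, fun i => ?_⟩
  have hw := hT i η hη
  have h1 : ‖T i η‖ = ‖η‖ := le_antisymm (hn i η) (hle _ hw)
  generalize T i η = w at hw h1
  have h2 := hle _ (hconv hw hη (a := 1 / 2) (b := 1 / 2) (by norm_num) (by norm_num)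
    (by norm_num))
  have h3 : ‖(1 / 2 : ℝ) • w + (1 / 2 : ℝ) • η‖ = (1 / 2) * ‖w + η‖ := by
    rw [← smul_add, norm_smul, Real.norm_of_nonneg (by norm_num)]
  rw [h3] at h2
  have h4 := parallelogram_law_with_norm ℝ w η
  rw [h1] at h4
  have h5 : ‖w - η‖ ^ 2 ≤ 0 := by
    nlinarith [norm_nonneg η, norm_nonneg (w + η)]
  have h6 : ‖w - η‖ = 0 := by
    have := le_antisymm h5 (by positivity)
    exact pow_eq_zero_iff two_ne_zero |>.1 this
  exact sub_eq_zero.1 (norm_eq_zero.1 h6)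

/-- The set of vectors bounded with a given constant is closed. -/
private theorem closed38 {G K : Type} [Group G] [NormedAddCommGroup K] [InnerProductSpace ℂ K]
    (B' : G →* (K ≃ₗᵢ[ℂ] K)) {c : ℝ} (hc : 0 ≤ c) : IsClosed {ξ : K | Bdd B' c ξ} := by
  have h : {ξ : K | Bdd B' c ξ} = ⋂ (s : Finset G) (a : G → ℂ),
      {ξ : K | ‖∑ g ∈ s, a g • B' g ξ‖ ^ 2 ≤ c ^ 2 * ∑ g ∈ s, ‖a g‖ ^ 2} := by
    ext ξ
    simp only [Set.mem_setOf_eq, Set.mem_iInter, Bdd]
    exact ⟨fun h => h.2, fun h => ⟨hc, h⟩⟩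
  rw [h]
  refine isClosed_iInter fun s => isClosed_iInter fun a => ?_
  refine isClosed_le (Continuous.pow (Continuous.norm ?_) 2) continuous_const
  exact continuous_finset_sum s fun g _ => ((B' g).continuous).const_smul _

private theorem uhom_triv38 (M : XM F X K) : UHom M (cTriv Λ K) := fun _ =>
  ⟨fun _ _ => rfl, fun _ _ _ => rfl, fun _ _ _ => rfl⟩

private theorem bddX_S38 {M : XM F X K} {B : G →* (K ≃ₗᵢ[ℂ] K)}
    (hB : ∀ g, M.Hom M ((B g).toContinuousLinearEquiv : K →L[ℂ] K)) {ν : Measure X}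
    [SMulInvariantMeasure F X ν] {η : K} (h : BddX M ν B η) (f : F) : BddX M ν B (M.S f η) := by
  intro D hD
  have hD' : MeasurableSet ((fun x => f • x) ⁻¹' D) := measurable_const_smul f hD
  have e1 : M.py.p D (M.S f η) = M.S f (M.py.p ((fun x => f • x) ⁻¹' D) η) := by
    have e2 : (fun x : X => f⁻¹ • x) ⁻¹' ((fun x => f • x) ⁻¹' D) = D := by
      ext x
      rw [Set.mem_preimage, Set.mem_preimage, smul_inv_smul]
    have e3 := M.Sy f _ hD' η
    rw [e2] at e3
    exact e3.symm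
  rw [e1]
  have h2 := h _ hD'
  rw [SMulInvariantMeasure.measure_preimage_smul f hD] at h2
  refine ⟨h2.1, fun s α => ?_⟩
  have e5 : ∑ g ∈ s, α g • B g (M.S f (M.py.p ((fun x => f • x) ⁻¹' D) η)) =
      M.S f (∑ g ∈ s, α g • B g (M.py.p ((fun x => f • x) ⁻¹' D) η)) := by
    rw [map_sum]
    refine Finset.sum_congr rfl fun g _ => ?_
    rw [map_smul]
    congr 1
    exact (hB g).S f _
  rw [e5, LinearIsometryEquiv.norm_map]
  exact h2.2 s α

theorem opL_triv (M : XM F X K) (a : Cocy F X Λ) (f : F) (ξ : K) : opL M a (cTriv Λ K) f ξ = M.S f ξ := by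
  have e : opL M a (cTriv Λ K) f ξ = M.S f (tw M.px (cTriv Λ K) (a.a f) ξ) := rfl
  rw [e, ← tw_uniq M.px (cTriv Λ K) (uhom_triv38 M).px (a.meas f) (ξ := ξ) (η := ξ) fun _ => rfl]

theorem hull3 (a : Cocy F X Λ) (E : Emb Λ G) {M : XM F X K} {B : G →* (K ≃ₗᵢ[ℂ] K)}
    (hB : ∀ g, M.Hom M ((B g).toContinuousLinearEquiv : K →L[ℂ] K)) {ν : Measure X} [IsFiniteMeasure ν]
    [SMulInvariantMeasure F X ν] {η₀ ξ₀ : K} (h0 : BddX M ν B η₀) {c : ℝ} (hc : 0 < c)
    (h : ∀ f : F, c ≤ (inner ℂ (sgm M a (cTriv Λ K) (CRep.ext B E.conj) f η₀) ξ₀).re) :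
    ∃ η : K, η ≠ 0 ∧ BddX M ν B η ∧ ∀ f : F, sgm M a (cTriv Λ K) (CRep.ext B E.conj) f η = η := by
  have h1 : MRep M (1 : G →* (K ≃ₗᵢ[ℂ] K)) B :=
    ⟨fun _ _ _ => rfl, fun _ => ⟨fun _ _ => rfl, fun _ _ _ => rfl, fun _ _ _ => rfl⟩, hB⟩
  let U : CRep Λ K := cTriv Λ K
  let U' : CRep Λ K := CRep.ext B E.conj
  have hU : UHom M U := uhom_triv38 M
  have hU' : UHom M U' := uhom_ext E.conj hB
  have hc' : UCom U U' := fun _ _ _ => rfl
  let R : F → (K →L[ℂ] K) := opR M a U'
  let σ : F → (K →L[ℂ] K) := sgm M a U U'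
  have hσ : ∀ v x, σ v x = M.S v (R v x) := fun v x => opL_triv M a v (R v x)
  have hσn : ∀ v x, ‖σ v x‖ ≤ ‖x‖ := fun v x =>
    Pool.Agent.Helper84.FR.norm_sgm_le M a hU hU' v x
  have hσm : ∀ g h x, σ (g * h) x = σ g (σ h x) := fun g h x =>
    Pool.Agent.Helper84.FR.sgm_mul M a hU hU' hc' g h x
  -- the large closed convex set
  let S : Set K := {ξ | BddX M ν B ξ ∧ c ≤ (inner ℂ ξ ξ₀).re}
  have hScl : IsClosed S := by
    have e1 : IsClosed {ξ : K | BddX M ν B ξ} := by
      have e : {ξ : K | BddX M ν B ξ} = ⋂ (D : Set X) (_ : MeasurableSet D),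
          (M.py.p D) ⁻¹' {ξ : K | Bdd B (Real.sqrt (ν D).toReal) ξ} := by
        ext ξ
        simp only [Set.mem_setOf_eq, Set.mem_iInter, Set.mem_preimage, BddX]
      rw [e]
      refine isClosed_iInter fun D => isClosed_iInter fun _ => ?_
      exact (closed38 B (Real.sqrt_nonneg _)).preimage (M.py.p D).continuous
    refine e1.inter ?_
    exact isClosed_le continuous_const
      (Complex.continuous_re.comp (continuous_id.inner continuous_const))
  have hSconv : Convex ℝ S := by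
    rintro x ⟨x1, x2⟩ y ⟨y1, y2⟩ p q hp hq hpq
    have ea : p • x = (p : ℂ) • x := rfl
    have eb : q • y = (q : ℂ) • y := rfl
    rw [ea, eb]
    refine ⟨fun D hD => ?_, ?_⟩
    · rw [map_add, map_smul, map_smul]
      refine (((x1 D hD).smul (p : ℂ)).add ((y1 D hD).smul (q : ℂ))).mono ?_
      rw [Complex.norm_real, Complex.norm_real, Real.norm_of_nonneg hp, Real.norm_of_nonneg hq,
        ← add_mul, hpq, one_mul]
    · rw [inner_add_left, inner_smul_left, inner_smul_left, Complex.conj_ofReal,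
        Complex.conj_ofReal, Complex.add_re, Complex.re_ofReal_mul, Complex.re_ofReal_mul]
      have h2 := mul_le_mul_of_nonneg_left x2 hp
      have h4 := mul_le_mul_of_nonneg_left y2 hq
      have h5 : p * c + q * c = c := by rw [← add_mul, hpq, one_mul]
      linarith
  have horb : ∀ v : F, σ v η₀ ∈ S := by
    intro v
    refine ⟨?_, h v⟩
    rw [hσ]
    exact bddX_S38 hB (bddX_opR a E h1 h0 v) v
  -- the orbit and its closed convex hull
  let O : Set K := Set.range fun v : F => σ v η₀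
  let C0 : Set K := closure (convexHull ℝ O)
  have hC0S : C0 ⊆ S := by
    refine closure_minimal (convexHull_min ?_ hSconv) hScl
    rintro _ ⟨v, rfl⟩
    exact horb v
  have hC0conv : Convex ℝ C0 := (convex_convexHull ℝ O).closure
  have hσC0 : ∀ m : F, ∀ x ∈ C0, σ m x ∈ C0 := by
    intro m
    have h2 : C0 ⊆ (σ m) ⁻¹' C0 := by
      refine closure_minimal (convexHull_min ?_ ?_) (isClosed_closure.preimage (σ m).continuous)
      · rintro _ ⟨v, rfl⟩
        change σ m (σ v η₀) ∈ C0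
        rw [← hσm]
        exact subset_closure (subset_convexHull ℝ O ⟨m * v, rfl⟩)
      · intro x hx y hy p q hp hq hpq
        change σ m (p • x + q • y) ∈ C0
        have ea : p • x = (p : ℂ) • x := rfl
        have eb : q • y = (q : ℂ) • y := rfl
        rw [ea, eb, map_add, map_smul, map_smul]
        exact hC0conv hx hy hp hq hpq
    exact fun x hx => h2 hx
  obtain ⟨η, hη, hfix⟩ : ∃ η ∈ C0, ∀ m : F, σ m η = η := by
    let _ : InnerProductSpace ℝ K := InnerProductSpace.complexToReal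
    exact fix38 (fun (m : F) x => σ m x) C0
      ⟨σ (1 : F) η₀, subset_closure (subset_convexHull ℝ O ⟨1, rfl⟩)⟩ isClosed_closure hC0conv hσC0
      (fun m x => hσn m x)
  obtain ⟨k1, k2⟩ := hC0S hη
  refine ⟨η, ?_, k1, hfix⟩
  rintro rfl
  rw [inner_zero_left, Complex.zero_re] at k2
  linarith

end Pool.Agent.Helper84.GN.S3.X
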