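import Pool.Agent.Helper9.S3X.Z5
import Pool.Agent.Helper55.FR.Main

/-!
# Project S3X: selection of the stratum

Port of `Helper9/S3/Y0.lean` to the cocycle setting.
-/

set_option autoImplicit false
set_option linter.unusedSectionVars false

open MeasureTheory Filter Topology

namespace Pool.Agent.Helper84.GN.S3.X

open NI GVN Pool.Agent.Helper90.RK
open Pool.Agent.Helper96.RK Pool.Agent.Helper66.FR Pool.Agent.Helper84.FR Pool.Agent.Helper55.FR

variable {G X : Type} [Group G] [MeasurableSpace X] {μ : Measure X} [IsProbabilityMeasure μ] {N : ℕ} {P : PH G N}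

/-- selection -/
theorem select_twoX (S : Sv P) {I : Type} (z : I → XL μ (L2 G)) (hz : ∀ i, ∀ᵐ y ∂μ, ‖z i y‖ ≤ 1) {b : ℕ → I}
    {β : ℝ} (hβ : 0 < β) (h : ∀ m : ℕ, β ≤ ‖cl μ (ind ℂ (Two S (Real.exp m))) (z (b m))‖) :
    ∃ J : Finset (Fin N), HasComp (Pool.Agent.Helper96.RK.toReg (chStr S J [])) z hz b ∧
      ∃ i j : Fin N, i ≠ j ∧ i ∉ J ∧ j ∉ J ∧ (i : ℕ) + 1 < N ∧ (j : ℕ) + 1 < N := by
  classical
  let A : ℕ → Set G := fun m => Two S (Real.exp m)
  have hA : ∀ m, A m = Two S (Real.exp m) := fun m => rfl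
  let f : ℕ → XL μ (L2 G) := fun m => z (b m)
  have hf : ∀ m, ∀ᵐ y ∂μ, ‖f m y‖ ≤ 1 := fun m => hz (b m)
  set ξ : UE μ (L2 G) := Pool.Agent.Helper55.FR.tru A f hf with hξ
  have hξ0 : 0 < ‖ξ‖ := lt_of_lt_of_le hβ (Pool.Agent.Helper55.FR.le_norm_tru fun m => h m)
  -- the maximal set
  let 𝒮 : Finset (Finset (Fin N)) :=
    Finset.univ.filter fun J => ∃ n, UE.map μ (ind ℂ (WC S J n)) ξ ≠ 0
  have h𝒮 : ∀ J, J ∈ 𝒮 ↔ ∃ n, UE.map μ (ind ℂ (WC S J n)) ξ ≠ 0 := by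
    intro J
    simp [𝒮]
  have hne : 𝒮.Nonempty := by
    refine ⟨∅, (h𝒮 _).2 ⟨0, ?_⟩⟩
    have h1 : WC S (∅ : Finset (Fin N)) 0 = Set.univ := by
      ext γ
      simp [WC]
    rw [h1, hξ, Pool.Agent.Helper55.FR.ind_tru]
    simp only [Set.univ_inter]
    rw [← hξ]
    exact norm_pos_iff.1 hξ0
  obtain ⟨J, hJ, hmax⟩ := Finset.exists_max_image 𝒮 Finset.card hne
  obtain ⟨n, hn⟩ := (h𝒮 J).1 hJ
  have hnull : ∀ j, j ∉ J → ∀ n', UE.map μ (ind ℂ (WC S (insert j J) n')) ξ = 0 := by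
    intro j hjJ n'
    by_contra hcon
    have h1 : insert j J ∈ 𝒮 := (h𝒮 _).2 ⟨n', hcon⟩
    have h2 := hmax _ h1
    rw [Finset.card_insert_of_notMem hjJ] at h2
    omega
  refine ⟨J, ?_, ?_⟩
  · set ξ' : UE μ (L2 G) := UE.map μ (ind ℂ (WC S J n)) ξ with hξ'
    refine ⟨ξ', ⟨n, fun s hs => ?_⟩, ?_⟩
    · obtain ⟨m0, hm0⟩ := (mem_FC S).1 (show s ∈ FC S J [] n from hs)
      refine Pool.Agent.Helper55.FR.carried hξ' ?_
      have hsub : WC S J n \ s ⊆
          ⋃ j ∈ Finset.univ \ J, WC S (insert j J) (max n (m0 * (1 + N * n))) := by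
        rintro γ ⟨h1, h2⟩
        have h4 : γ ∉ TC S [J] m0 := fun h4 => h2 (hm0 ⟨h1, h4⟩)
        rw [TC_cons] at h4
        have h5 : ∃ j, j ∉ J ∧ lg S γ j < (m0 : ℝ) * (1 + ∑ i ∈ J, lg S γ i) := by
          by_contra hcon
          push Not at hcon
          exact h4 ⟨hcon, by simp [Pool.Agent.Helper96.RK.TC]⟩
        obtain ⟨j, hj, hlt⟩ := h5
        refine Set.mem_iUnion₂.2 ⟨j, Finset.mem_sdiff.2 ⟨Finset.mem_univ _, hj⟩, ?_⟩
        intro i hi
        rcases Finset.mem_insert.1 hi with rfl | hi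
        · have h9 : ∑ k ∈ J, lg S γ k ≤ N * n := by
            calc ∑ k ∈ J, lg S γ k ≤ ∑ _k ∈ J, (n : ℝ) := Finset.sum_le_sum fun k hk => h1 k hk
              _ = J.card * n := by rw [Finset.sum_const, nsmul_eq_mul]
              _ ≤ N * n := by
                have h4 : (J.card : ℝ) ≤ N := by
                  have := Finset.card_le_univ J
                  rw [Fintype.card_fin] at this
                  exact_mod_cast this
                exact mul_le_mul_of_nonneg_right h4 (Nat.cast_nonneg n)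
          have h10 : (m0 : ℝ) * (1 + ∑ k ∈ J, lg S γ k) ≤ m0 * (1 + N * n) :=
            mul_le_mul_of_nonneg_left (by linarith) (Nat.cast_nonneg _)
          refine (hlt.le.trans h10).trans ?_
          have : ((m0 * (1 + N * n) : ℕ) : ℝ) ≤ ((max n (m0 * (1 + N * n)) : ℕ) : ℝ) := by
            exact_mod_cast le_max_right _ _
          push_cast at this ⊢
          exact this
        · refine (h1 i hi).trans ?_
          exact_mod_cast le_max_left _ _
      refine Pool.Agent.Helper55.FR.null_mono hsub (Pool.Agent.Helper55.FR.null_iUnion _ _ fun j hj => ?_)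
      rw [Finset.mem_sdiff] at hj
      exact hnull j hj.2 _
    · have h1 : ξ' = Pool.Agent.Helper55.FR.tru (fun m => WC S J n ∩ A m) f hf := by
        rw [hξ', hξ, Pool.Agent.Helper55.FR.ind_tru]
      have h3 := Pool.Agent.Helper55.FR.inner_tru (fun m => WC S J n ∩ A m) f hf
      rw [← h1] at h3
      have h2 : (cls (fun n => z (b n)) fun n => hz (b n) : UE μ (L2 G)) = cls f hf := rfl
      rw [h2, h3]
      have h4 : ‖ξ'‖ ≠ 0 := norm_ne_zero_iff.2 hn
      exact_mod_cast pow_ne_zero 2 h4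
  · by_contra hcon
    apply hn
    rw [hξ, Pool.Agent.Helper55.FR.ind_tru, Pool.Agent.Helper55.FR.tru_congr f hf n (B := fun _ => ∅),
      Pool.Agent.Helper55.FR.tru_empty]
    intro m hm
    rw [hA]
    ext γ
    simp only [Set.mem_inter_iff, Set.mem_empty_iff_false, iff_false, not_and]
    rintro h1 ⟨i, j, hij, hi, hj⟩
    have hkey : ∀ k : Fin N, Real.exp m < gp S γ k → k ∉ J ∧ (k : ℕ) + 1 < N := by
      intro k hk
      constructor
      · intro hkJ
        have h3 := h1 k hkJ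
        rw [gp_eq_exp, Real.exp_lt_exp] at hk
        have h4 : (n : ℝ) ≤ m := by exact_mod_cast hm
        linarith
      · by_contra hkN
        unfold gp at hk
        rw [dif_neg hkN] at hk
        have := Real.one_le_exp (Nat.cast_nonneg (α := ℝ) m)
        linarith
    exact hcon ⟨i, j, hij, (hkey i hi).1, (hkey j hj).1, (hkey i hi).2, (hkey j hj).2⟩

/-- The mass of a sequence with a component. -/
theorem mass_of_comp (S : Sv P) (J : Finset (Fin N)) (c : List (Finset (Fin N))) {I : Type} {z : I → XL μ (L2 G)}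
    {hz : ∀ i, ∀ᵐ y ∂μ, ‖z i y‖ ≤ 1} {b : ℕ → I} (h : HasComp (Pool.Agent.Helper96.RK.toReg (chStr S J c)) z hz b) :
    ∃ β : ℝ, 0 < β ∧ ∀ m : ℕ, ∃ n : ℕ, β ≤ ‖cl μ (ind ℂ (TC S (J :: c) m)) (z (b n))‖ := by
  obtain ⟨ξ, ⟨n, hn⟩, hin⟩ := h
  have hξ : 0 < ‖ξ‖ := norm_pos_iff.2 fun h0 => hin (by rw [h0, inner_zero_left])
  set ζ : UE μ (L2 G) := cls (fun n => z (b n)) fun n => hz (b n) with hζ
  refine ⟨‖inner ℂ ξ ζ‖ / (2 * ‖ξ‖), div_pos (norm_pos_iff.2 hin) (by linarith), fun m => ?_⟩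
  by_contra hcon
  push Not at hcon
  have h1 : ‖UE.map μ (ind ℂ (TC S (J :: c) m)) ζ‖ ≤ ‖inner ℂ ξ ζ‖ / (2 * ‖ξ‖) := by
    rw [hζ]
    unfold cls
    rw [UE.map_mk]
    exact le_of_tendsto' (UE.tendsto_norm _ _) fun k => (hcon k).le
  have h2 : inner ℂ ξ ζ = inner ℂ ξ (UE.map μ (ind ℂ (TC S (J :: c) m)) ζ) := by
    rw [← xinner_ind, hn _ (TC_mem_FC S J c m n)]
  have h3 : ‖inner ℂ ξ ζ‖ ≤ ‖ξ‖ * (‖inner ℂ ξ ζ‖ / (2 * ‖ξ‖)) := by
    conv_lhs => rw [h2]
    exact (norm_inner_le_norm _ _).trans (mul_le_mul_of_nonneg_left h1 (norm_nonneg _))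
  have h4 : ‖ξ‖ * (‖inner ℂ ξ ζ‖ / (2 * ‖ξ‖)) = ‖inner ℂ ξ ζ‖ / 2 := by
    field_simp
  rw [h4] at h3
  have h5 := norm_pos_iff.2 hin
  linarith

end Pool.Agent.Helper84.GN.S3.X
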