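import Pool.Agent.Helper9.S3X.N1

/-!
# Project S3X: the first type reached by a discrete nonamenable subgroup

`good_startX`: a discrete nonamenable subgroup `F` reaches a stratum where two gaps, or a middle gap, tend to infinity.
-/

set_option autoImplicit false
set_option linter.unusedSectionVars false

open MeasureTheory Filter Topology

namespace Pool.Agent.Helper84.GN.S3.X

open NI GVN Pool.Agent.Helper90.RK
open Pool.Agent.Helper96.RK Pool.Agent.Helper66.FR Pool.Agent.Helper84.FR Pool.Agent.Helper55.FR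

/-- Nonamenable groups are infinite. -/
theorem inf_of_nonAm {F : Type} [Group F] (h : NonAm F) : Infinite F := by
  by_contra hfin
  rw [not_infinite_iff_finite] at hfin
  have := Fintype.ofFinite F
  have hc : Summable fun _ : F => ‖(1 : ℂ)‖ ^ 2 := (hasSum_fintype _).summable
  let c : L2 F := ⟨fun _ => (1 : ℂ), memL2 hc⟩
  have hc0 : c ≠ 0 := by
    intro h0
    have h1 := congrArg (fun f : L2 F => f 1) h0
    simp only at h1
    exact one_ne_zero h1
  have hn : 0 < ‖c‖ := norm_pos_iff.2 hc0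
  obtain ⟨K, ε, hε, h⟩ := h
  obtain ⟨s, _, hs⟩ := h (((‖c‖⁻¹ : ℝ) : ℂ) • c) (by
    rw [norm_smul, Complex.norm_real, Real.norm_eq_abs, abs_of_pos (inv_pos.2 hn),
      inv_mul_cancel₀ hn.ne'])
  have h1 : lamU s c = c := by
    apply l2_ext
    intro x
    rfl
  rw [map_smul, h1, sub_self, norm_zero] at hs
  linarith

theorem cl_ind_mono2 {I X : Type} [MeasurableSpace X] {μ : Measure X} [IsProbabilityMeasure μ] {A B : Set I} (h : A ⊆ B)
    (f : XL μ (L2 I)) : ‖cl μ (ind ℂ A) f‖ ≤ ‖cl μ (ind ℂ B) f‖ := by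
  have h1 := cl_ind_ind A B f
  rw [Set.inter_eq_left.2 h] at h1
  rw [← h1]
  have h2 := norm_cl_le_of (μ := μ) (T := ind ℂ A) (C := 1) zero_le_one (fun x => by
    rw [one_mul]
    exact norm_ind2 _ _) (cl μ (ind ℂ B) f)
  rwa [one_mul] at h2

variable {G1 X G Λ : Type} [Group G1] [MeasurableSpace X] [MulAction G1 X] [MeasurableConstSMul G1 X]
  [Group G] [Group Λ] [Countable Λ] {μ : Measure X} [SMulInvariantMeasure G1 X μ] [IsProbabilityMeasure μ]
  {a : Cocy G1 X Λ} {E : Emb Λ G} {N : ℕ} {P : PH G N}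

/-- The masses on finite sets tend to zero for some element of `F`. -/
theorem small_mass [TopologicalSpace G1] [IsTopologicalGroup G1] [T2Space G1] [LocallyCompactSpace G1] (F : Subgroup G1)
    [DiscreteTopology F] [Infinite F]
    (hF2 : ∀ l : Λ, Tendsto (fun g : G1 => μ {x | a.a g x = l}) (cocompact G1) (𝓝 0)) (K : Set G) (hK : K.Finite) :
    ∃ g ∈ F, ‖cl μ (ind ℂ K) (zx μ a E g)‖ ^ 2 ≤ 3 / 4 := by
  obtain ⟨u⟩ : Nonempty (ℕ ↪ F) := ⟨Infinite.natEmbedding F⟩
  have hu : Tendsto (fun n => ((u n : F) : G1)) atTop (cocompact G1) := by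
    have h1 : Tendsto (fun n => u n) atTop (cofinite : Filter F) := by
      rw [← Nat.cofinite_eq_atTop]
      exact u.injective.tendsto_cofinite
    exact (Subgroup.tendsto_coe_cofinite_of_discrete F (isDiscrete_iff_discreteTopology.2 inferInstance)).comp h1
  have h1 := tendsto_mass (μ := μ) E (f := fun m : ℕ => zx μ a E (u m))
    (c := fun m x => a.a (u m) ((u m : G1)⁻¹ • x)) (fun m l => (measurable_const_smul _) (a.meas _ l))
    (fun m => zv_apply (mea_a (a := a) (u m : G1) (u m : G1)⁻¹)) (fun l => by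
      have h2 := (ENNReal.tendsto_toReal ENNReal.zero_ne_top).comp ((hF2 l).comp hu)
      rw [ENNReal.toReal_zero] at h2
      refine h2.congr fun m => ?_
      have h3 := (measurePreserving_smul (u m : G1)⁻¹ μ).measure_preimage (a.meas (u m : G1) l).nullMeasurableSet
      change (μ (a.a (u m : G1) ⁻¹' {l})).toReal =
        (μ ((fun x => (u m : G1)⁻¹ • x) ⁻¹' (a.a (u m : G1) ⁻¹' {l}))).toReal
      rw [h3]) hK.toFinset
  obtain ⟨m, hm⟩ := (h1.eventually (gt_mem_nhds (show (0 : ℝ) < 3 / 4 by norm_num))).exists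
  refine ⟨u m, (u m).2, ?_⟩
  rw [hK.coe_toFinset] at hm
  exact hm.le

/-- The first type reached by a discrete nonamenable subgroup. -/
theorem good_startX (hN : 3 ≤ N) (S : Sv P) (F : Subgroup G1) [Countable F] (hF : NonAm F)
    (p : X → Λ → F) (hp : ∀ l g, MeasurableSet {x | p x l = g})
    (hpe : ∀ (f : F) (x : X) (l : Λ), p ((f : G1) • x) (a.a f x * l) = f * p x l)
    (h0 : ∀ K : Set G, K.Finite → ∃ g ∈ F, ‖cl μ (ind ℂ K) (zx μ a E g)‖ ^ 2 ≤ 3 / 4) :
    ∃ (J : Finset (Fin N)) (b : ℕ → G1), (∀ n, b n ∈ F) ∧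
      HasComp (Pool.Agent.Helper96.RK.toReg (chStr S J [])) (zx μ a E) zx_bound b ∧
      ((∃ i j : Fin N, i ≠ j ∧ i ∉ J ∧ j ∉ J ∧ (i : ℕ) + 1 < N ∧ (j : ℕ) + 1 < N) ∨
        ∃ i : Fin N, i ∉ J ∧ 0 < (i : ℕ) ∧ (i : ℕ) + 2 < N) := by
  classical
  by_cases hfl : ∃ β : ℝ, 0 < β ∧ ((∀ R : ℝ, ∃ f ∈ F, β ≤ ‖cl μ (ind ℂ (Last S R)) (zx μ a E f)‖) ∨
      ∀ R : ℝ, ∃ f ∈ F, β ≤ ‖cl μ (ind ℂ (First S R)) (zx μ a E f)‖)
  · obtain ⟨β, hβ, h⟩ := hfl
    obtain ⟨β', hβ', h'⟩ := reachX hN S F hF p hp hpe hβ h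
    choose b hb he using fun m : ℕ => h' (Real.exp m)
    obtain ⟨J, h1, h2⟩ := select_twoX (μ := μ) S (zx μ a E) zx_bound (b := b) hβ' he
    exact ⟨J, b, hb, h1, Or.inl h2⟩
  · have hst := startX (μ := μ) S (z := fun g : G1 => zx μ a E g) (V := (F : Set G1)) (fun g _ => norm_zx g) h0
    obtain ⟨J, b, hJ, hb, hcomp⟩ := selectX S [] (fun g : G1 => zx μ a E g) zx_bound (by norm_num : (0:ℝ) < 1 / 2) hst
    refine ⟨J, b, hb, hcomp, Or.inr ?_⟩
    obtain ⟨i, hi⟩ : ∃ i, i ∉ J := by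
      by_contra hcon
      push Not at hcon
      exact hJ.2 fun i _ => hcon i
    obtain ⟨γ, hγ⟩ := TC_nonemptyX (hz := zx_bound) hcomp 1
    have h1 : 1 ≤ lg S γ i := by
      have h2 := ((TC_cons S).1 hγ).1 i hi
      have h3 := sum_lg_nonneg S γ J
      push_cast at h2
      linarith
    have hiN : (i : ℕ) + 1 < N := by
      by_contra hkN
      unfold lg gp at h1
      rw [dif_neg hkN, Real.log_one] at h1
      linarith
    obtain ⟨β, hβ, hm⟩ := mass_of_comp (μ := μ) S J [] (z := fun g : G1 => zx μ a E g) (hz := zx_bound) hcomp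
    have hR : ∀ R : ℝ, ∃ m : ℕ, ∀ γ ∈ TC S [J] m, R < gp S γ i := by
      intro R
      obtain ⟨m, hmR⟩ := exists_nat_gt R
      refine ⟨m, fun γ hγ => ?_⟩
      have h2 := ((TC_cons S).1 hγ).1 i hi
      have h3 := sum_lg_nonneg S γ J
      have h4 : (m : ℝ) ≤ lg S γ i := by
        have : (m : ℝ) * 1 ≤ m * (1 + ∑ i ∈ J, lg S γ i) :=
          mul_le_mul_of_nonneg_left (by linarith) (Nat.cast_nonneg _)
        linarith
      rw [gp_eq_exp]
      linarith [Real.add_one_le_exp (lg S γ i)]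
    refine ⟨i, hi, ?_, ?_⟩
    · by_contra h0
      have h0' : (i : ℕ) = 0 := by omega
      apply hfl
      refine ⟨β, hβ, Or.inr fun R => ?_⟩
      obtain ⟨m, hm'⟩ := hR R
      obtain ⟨n, hn⟩ := hm m
      refine ⟨b n, hb n, hn.trans (cl_ind_mono2 (fun γ hγ j hj => ?_) _)⟩
      have : j = i := Fin.ext (by omega)
      rw [this]
      exact hm' γ hγ
    · by_contra h0
      have h0' : (i : ℕ) + 2 = N := by omega
      apply hfl
      refine ⟨β, hβ, Or.inl fun R => ?_⟩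
      obtain ⟨m, hm'⟩ := hR R
      obtain ⟨n, hn⟩ := hm m
      refine ⟨b n, hb n, hn.trans (cl_ind_mono2 (fun γ hγ j hj => ?_) _)⟩
      have : j = i := Fin.ext (by omega)
      rw [this]
      exact hm' γ hγ

end Pool.Agent.Helper84.GN.S3.X
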