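import Pool.Agent.Helper9.S3X.N2

/-!
# Project S3X: groups with a commuting pair and discrete subgroups of `SL(3, ℂ)`

`TwoC G1`: `G1` contains a discrete nonamenable subgroup `F` and elements `a`, `u`, `w` commuting with `F`, where `u` is contracted by `a`, `w` is expanded by `a`, and `u`, `w` generate a discrete nonamenable subgroup. `no_emb_three`: a lattice of such
a group has no trace preserving embedding in the group von Neumann algebra of a group with a proper projective representation of dimension three.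
-/

set_option autoImplicit false
set_option linter.unusedSectionVars false

open MeasureTheory Filter Topology

namespace Pool.Agent.Helper84.GN.S3.X

open NI GVN Pool.Agent.Helper90.RK
open Pool.Agent.Helper96.RK Pool.Agent.Helper66.FR Pool.Agent.Helper84.FR Pool.Agent.Helper55.FR
open Pool.Agent.Helper96.FR Pool.Agent.Helper66.RKS

/-- A discrete nonamenable subgroup and a commuting pair of opposite horospherical elements. -/
def TwoC (G1 : Type) [Group G1] [TopologicalSpace G1] : Prop :=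
  ∃ (F : Subgroup G1) (a u w : G1), DiscreteTopology F ∧ NonAm F ∧
    (∀ f ∈ F, f * a = a * f ∧ f * u = u * f ∧ f * w = w * f) ∧
    Tendsto (fun m : ℕ => (a ^ m)⁻¹ * u * a ^ m) atTop (𝓝 1) ∧
    Tendsto (fun m : ℕ => a ^ m * w * (a ^ m)⁻¹) atTop (𝓝 1) ∧
    DiscreteTopology (Subgroup.closure {u, w}) ∧ NonAm (Subgroup.closure {u, w})

variable {G1 : Type} [Group G1] [TopologicalSpace G1] [IsTopologicalGroup G1] [LocallyCompactSpace G1]
  [SecondCountableTopology G1] [T2Space G1] {Γ1 : Subgroup G1} {Γ2 : Type} [Group Γ2]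

theorem no_emb_three (hL : Pool.Agent.Helper96.FR.Lattice Γ1) (hG : TwoC G1) (P : PH Γ2 3) (E : Emb Γ1 Γ2) : False := by
  classical
  obtain ⟨S⟩ := nonempty_sv P
  have hd : DiscreteTopology Γ1 := hL.1
  have hcount : Countable Γ1 := countable_of_discrete Γ1
  obtain ⟨X, mX, act, μ, hμ, c, hmp, hme, hmul, hF2, hF3, hF4⟩ := exists_cocycle Γ1 hL
  have i1 : MeasurableConstSMul G1 X := ⟨fun g => (hmp g).measurable⟩
  have i2 : SMulInvariantMeasure G1 X μ := ⟨fun g s hs => (hmp g).measure_preimage hs.nullMeasurableSet⟩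
  let a : Cocy G1 X Γ1 := ⟨c, fun h l => hme h {l}, hmul⟩
  obtain ⟨F, t, u, w, hFd, hFn, hcom, hu, hw, hdisc, hna⟩ := hG
  have hFc : Countable F := countable_of_discrete F
  have hFi : Infinite F := inf_of_nonAm hFn
  obtain ⟨p, hp, hpe⟩ := hF4 F hFd
  obtain ⟨J, b, hb, hcomp, hJ⟩ := good_startX (μ := μ) (a := a) (E := E) (le_refl 3) S F hFn p
    (fun l g => hp l {g}) hpe (fun K hK => small_mass (μ := μ) (a := a) (E := E) F hF2 K hK)
  have hJ2 : ∀ i ∈ J, (i : ℕ) = 2 := by
    rcases hJ with ⟨i, j, hij, hi, hj, hi3, hj3⟩ | ⟨i, hi, h1, h2⟩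
    · intro k hk
      by_contra hk2
      have h1 : (i : ℕ) ≠ j := fun h => hij (Fin.ext h)
      have h2 : (k : ℕ) ≠ i := fun h => hi (Fin.ext h ▸ hk)
      have h3 : (k : ℕ) ≠ j := fun h => hj (Fin.ext h ▸ hk)
      have := k.isLt
      omega
    · omega
  obtain ⟨β, hβ, h⟩ := esc a E hF3 (fun F hF => ⟨countable_of_discrete F, hF4 F hF⟩)
    (Pool.Agent.Helper96.RK.toReg (chStr S J [])) (hasCoc _) b hcomp t u w
    (fun n => (hcom _ (hb n)).1) (fun n => (hcom _ (hb n)).2.1) (fun n => (hcom _ (hb n)).2.2) hu hw hdisc hna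
  obtain ⟨n, k, hnk⟩ := h Set.univ (fun n => Filter.univ_mem) 0
  have hW : (Pool.Agent.Helper96.RK.toReg (chStr S J [])).W 0 = Set.univ := by
    change WC S J 0 = Set.univ
    ext γ
    simp only [WC, Set.mem_ofPred_eq, Set.mem_univ, iff_true]
    intro i hi
    have h3 : ¬ (i : ℕ) + 1 < 3 := by
      have := hJ2 i hi
      omega
    unfold lg gp
    rw [dif_neg h3, Real.log_one]
    simp
  rw [hW, Set.sdiff_self, ind_empty3, cl_zero, _root_.zero_apply, norm_zero] at hnk
  linarith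

/-- No trace preserving homomorphism. -/
theorem no_hom_three (hL : Pool.Agent.Helper96.FR.Lattice Γ1) (hG : TwoC G1) (ρ : PRep Γ2 3)
    (θ : LH Γ1 →⋆ₐ[ℂ] LH Γ2) (hτ : ∀ x, (θ x).tr = x.tr) : False := by
  refine no_emb_three hL hG ρ.ph
    (homEmb (((bridge Γ2).toStarAlgHom.comp θ).comp (bridge Γ1).symm.toStarAlgHom) fun x => ?_)
  have h1 := hτ ((bridge Γ1).symm x)
  change (θ ((bridge Γ1).symm x)).coeff 1 = ((bridge Γ1).symm x).coeff 1 at h1
  rw [← bridge_coeff, ← bridge_coeff] at h1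
  exact h1

/-- No isomorphism. -/
theorem no_iso_three (hL : Pool.Agent.Helper96.FR.Lattice Γ1) (hicc : IsICC Γ1) (hG : TwoC G1) (ρ : PRep Γ2 3) :
    ¬ IsoL Γ1 Γ2 := by
  rintro ⟨e⟩
  let e' : LG Γ1 ≃⋆ₐ[ℂ] LG Γ2 := (bridge Γ1).symm.trans (e.trans (bridge Γ2))
  exact no_emb_three hL hG ρ.ph
    (homEmb e'.toStarAlgHom fun x => Pool.Agent.Helper84.TU.tr_iso hicc e' x)

end Pool.Agent.Helper84.GN.S3.X
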