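import Pool.Agent.Helper9.S3X.Defs

/-!
# Project S3X, block V1: the operators vg and the multiplication operators

`cl_vg`: pointwise a.e. (`xl_ext`, `cl_apply`, `vg_apply`, `(measurePreserving_smul f⁻¹ μ).quasiMeasurePreserving.ae (cl_apply T φ)`). `vg_xE`: pointwise a.e. (`xE_apply` at `f⁻¹ • x`, `xE_apply` for the set `(fun x => f⁻¹ • x) ⁻¹' D`, `vg_apply` twice, `map_smul`). `xmX`: `comm` by `xE_inter` and `Set.inter_comm`.
-/

set_option autoImplicit false
set_option linter.unusedSectionVars false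

open MeasureTheory Filter Topology

namespace Pool.Agent.Helper84.GN.S3.X

open NI GVN Pool.Agent.Helper90.RK
open Pool.Agent.Helper96.RK Pool.Agent.Helper66.FR Pool.Agent.Helper84.FR Pool.Agent.Helper55.FR

variable {F X Λ : Type} [Group F] [MeasurableSpace X] [MulAction F X] [MeasurableConstSMul F X] [Group Λ] [Countable Λ]
variable {μ : Measure X} [SMulInvariantMeasure F X μ]
variable {H H' : Type} [NormedAddCommGroup H] [InnerProductSpace ℂ H] [NormedAddCommGroup H'] [InnerProductSpace ℂ H']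

theorem cl_vg (a : Cocy F X Λ) {A0 : Λ →* (H ≃ₗᵢ[ℂ] H)} {A1 : Λ →* (H' ≃ₗᵢ[ℂ] H')} {T : H →L[ℂ] H'}
    (hT : ∀ l v, T (A0 l v) = A1 l (T v)) (f : F) (φ : XL μ H) : cl μ T (vg μ a A0 f φ) = vg μ a A1 f (cl μ T φ) := by
  refine xl_ext ?_
  filter_upwards [cl_apply T (vg μ a A0 f φ), vg_apply a A0 f φ, vg_apply a A1 f (cl μ T φ),
    (measurePreserving_smul f⁻¹ μ).quasiMeasurePreserving.ae (cl_apply T φ)] with x h1 h2 h3 h4
  rw [h1, h2, h3, h4, hT]

theorem vg_xE (a : Cocy F X Λ) (A0 : Λ →* (H ≃ₗᵢ[ℂ] H)) (f : F) {D : Set X} (hD : MeasurableSet D) (φ : XL μ H) :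
    vg μ a A0 f (xE μ H D φ) = xE μ H ((fun x => f⁻¹ • x) ⁻¹' D) (vg μ a A0 f φ) := by
  have hD' : MeasurableSet ((fun x => f⁻¹ • x) ⁻¹' D) := (measurable_const_smul f⁻¹) hD
  refine xl_ext ?_
  filter_upwards [vg_apply a A0 f (xE μ H D φ), xE_apply hD' (vg μ a A0 f φ), vg_apply a A0 f φ,
    (measurePreserving_smul f⁻¹ μ).quasiMeasurePreserving.ae (xE_apply hD φ)] with x h1 h2 h3 h4
  rw [h1, h2, h3, h4]
  by_cases h : f⁻¹ • x ∈ D
  · rw [Set.indicator_of_mem h,
      Set.indicator_of_mem (show x ∈ (fun x => f⁻¹ • x) ⁻¹' D from h), one_smul, one_smul]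
  · rw [Set.indicator_of_notMem h,
      Set.indicator_of_notMem (show x ∉ (fun x => f⁻¹ • x) ⁻¹' D from h), zero_smul, zero_smul,
      map_zero]

/-- The system of the operators `vg` and of the multiplication operators. -/
noncomputable def xmX (μ : Measure X) [SMulInvariantMeasure F X μ] (a : Cocy F X Λ) (A0 : Λ →* (H ≃ₗᵢ[ℂ] H)) :
    XM F X (XL μ H) where
  S := vgR μ a A0
  px := pv0 μ H
  py := pv0 μ H
  comm A B hA hB ξ := by
    change xE μ H A (xE μ H B ξ) = xE μ H B (xE μ H A ξ)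
    rw [xE_inter hA hB, xE_inter hB hA, Set.inter_comm]
  Sx h A hA ξ := vg_xE a A0 h hA ξ
  Sy h A hA ξ := vg_xE a A0 h hA ξ

end Pool.Agent.Helper84.GN.S3.X
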