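import Pool.Agent.Helper9.S3X.V1

/-!
# Project S3X, block W1: the operators WW

All pointwise a.e. with `WW_apply` (and `ae` at `g⁻¹ • x`). `WW_lam`: `E.U l` commutes with `rhoU k` (`E.comm`), `ivU (lamU k f) = rhoU k (ivU f)` (pointwise: `f (k⁻¹ x⁻¹)`). `WW_xE`: `vg_xE`, `cl_mx`. `WW_vg`: `(g h⁻¹)⁻¹ = h g⁻¹`; `ivU (jjU (E.conj.U l) f) = E.U l (ivU f)` (see the proof of `T_form` in `Helper9/S3/L3.lean`, `jjU_apply`, `iv_cj`, `cjU`) and the cocycle identity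
`a.a (g h⁻¹) (h g⁻¹ x) * a.a h (g⁻¹ x) = a.a g (g⁻¹ x)` (`a.mul`). `WW_one`: `ivU (dl 1) = dl 1`, `zv_apply`, `zx_eq`.
-/

set_option autoImplicit false
set_option linter.unusedSectionVars false

open MeasureTheory Filter Topology

namespace Pool.Agent.Helper84.GN.S3.X

open NI GVN Pool.Agent.Helper90.RK
open Pool.Agent.Helper96.RK Pool.Agent.Helper66.FR Pool.Agent.Helper84.FR Pool.Agent.Helper55.FR

variable {G1 X G Λ : Type} [Group G1] [MeasurableSpace X] [MulAction G1 X] [MeasurableConstSMul G1 X]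
  [Group G] [Group Λ] [Countable Λ] {μ : Measure X} [SMulInvariantMeasure G1 X μ] [IsProbabilityMeasure μ]
  {a : Cocy G1 X Λ} {E : Emb Λ G}

theorem WW_lam (g : G1) (k : G) (φ : XL μ (L2 G)) :
    WW μ a E g (cl μ ((lamU k).toContinuousLinearEquiv : L2 G →L[ℂ] L2 G) φ) =
      cl μ ((rhoU k).toContinuousLinearEquiv : L2 G →L[ℂ] L2 G) (WW μ a E g φ) := by
  have h0 : ∀ f : L2 G, ivU G (lamU k f) = rhoU k (ivU G f) := by
    intro f
    apply l2_ext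
    intro x
    simp
  refine xl_ext ?_
  filter_upwards [WW_apply (μ := μ) a E g (cl μ ((lamU k).toContinuousLinearEquiv : L2 G →L[ℂ] L2 G) φ),
    (measurePreserving_smul g⁻¹ μ).quasiMeasurePreserving.ae
      (cl_apply ((lamU k).toContinuousLinearEquiv : L2 G →L[ℂ] L2 G) φ),
    cl_apply ((rhoU k).toContinuousLinearEquiv : L2 G →L[ℂ] L2 G) (WW μ a E g φ),
    WW_apply (μ := μ) a E g φ] with x h1 h2 h3 h4
  rw [h1, h2, h3, h4]
  change E.U (a.a g (g⁻¹ • x)) (ivU G (lamU k (φ (g⁻¹ • x)))) =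
    rhoU k (E.U (a.a g (g⁻¹ • x)) (ivU G (φ (g⁻¹ • x))))
  rw [h0]
  exact E.comm _ _ _

theorem WW_xE (g : G1) {D : Set X} (hD : MeasurableSet D) (φ : XL μ (L2 G)) :
    WW μ a E g (xE μ (L2 G) D φ) = xE μ (L2 G) ((fun x => g⁻¹ • x) ⁻¹' D) (WW μ a E g φ) := by
  refine xl_ext ?_
  filter_upwards [WW_apply (μ := μ) a E g (xE μ (L2 G) D φ),
    (measurePreserving_smul g⁻¹ μ).quasiMeasurePreserving.ae (xE_apply hD φ),
    xE_apply ((measurable_const_smul g⁻¹) hD) (WW μ a E g φ),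
    WW_apply (μ := μ) a E g φ] with x h1 h2 h3 h4
  rw [h1, h2, h3, h4, map_smul, map_smul]
  rfl

theorem WW_vg (g h : G1) (φ : XL μ (L2 G)) : WW μ a E (g * h⁻¹) (vg μ a (jjR E) h φ) = WW μ a E g φ := by
  have h0 : ∀ (l : Λ) (f : L2 G), ivU G (jjR E l f) = E.U l (ivU G f) := by
    intro l f
    change ivU G (jjU (cjU (E.U l)) f) = _
    rw [jjU_apply, ivU_ivU, cjU_apply, cj_cj, cj_cj]
  refine xl_ext ?_
  filter_upwards [WW_apply (μ := μ) a E (g * h⁻¹) (vg μ a (jjR E) h φ),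
    (measurePreserving_smul (g * h⁻¹)⁻¹ μ).quasiMeasurePreserving.ae (vg_apply a (jjR E) h φ),
    WW_apply (μ := μ) a E g φ] with x h1 h2 h3
  have h4 : (g * h⁻¹)⁻¹ • x = h • g⁻¹ • x := by
    rw [mul_inv_rev, inv_inv, mul_smul]
  rw [h1, h2, h3, h4, inv_smul_smul, h0]
  have h5 := a.mul (g * h⁻¹) h (g⁻¹ • x)
  rw [inv_mul_cancel_right] at h5
  rw [h5, map_mul]
  rfl

theorem WW_one (g : G1) : WW μ a E g (cst μ (dl 1)) = zx μ a E g := by
  have h0 : (ivU G (dl 1) : L2 G) = dl 1 := by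
    have h4 : (ivU G (dl 1) : L2 G) = dl (1⁻¹) := permU_dl _ _
    rw [h4, inv_one]
  refine xl_ext ?_
  filter_upwards [WW_apply (μ := μ) a E g (cst μ (dl 1)),
    (measurePreserving_smul g⁻¹ μ).quasiMeasurePreserving.ae (cst_apply (μ := μ) (dl 1 : L2 G)),
    zv_apply (μ := μ) (E := E) (c := fun x => a.a g (g⁻¹ • x)) (mea_a g g⁻¹)] with x h1 h2 h3
  rw [zx_eq, h1, h2, h3, h0]
  rfl

end Pool.Agent.Helper84.GN.S3.X
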