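import Pool.Agent.Helper9.S3X.V1

/-!
# Project S3X, block W2: the product of WW and an adjoint

`WW h` is surjective: `WW h (ψ') = ψ` for `ψ' = cl μ (ivU) (vg μ a E.U h⁻¹ ψ)` (`vg_mul`, `vg_one`: `vg h (vg h⁻¹ ψ) = ψ`, `ivU` is an involution), and isometric (`norm_WW`), so `adjoint (WW h) ψ = ψ'` (`⟪φ, adjoint (WW h) ψ⟫ = ⟪WW h φ, WW h ψ'⟫ = ⟪φ, ψ'⟫`). Then `WW g ψ' = vg g (cl ivU (cl ivU (vg h⁻¹ ψ))) = vg g (vg h⁻¹ ψ) = vg (g * h⁻¹) ψ` (`vg_mul`).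
-/

set_option autoImplicit false
set_option linter.unusedSectionVars false

open MeasureTheory Filter Topology

namespace Pool.Agent.Helper84.GN.S3.X

open NI GVN Pool.Agent.Helper90.RK
open Pool.Agent.Helper96.RK Pool.Agent.Helper66.FR Pool.Agent.Helper84.FR Pool.Agent.Helper55.FR

variable {G1 X G Λ : Type} [Group G1] [MeasurableSpace X] [MulAction G1 X] [MeasurableConstSMul G1 X]
  [Group G] [Group Λ] [Countable Λ] {μ : Measure X} [SMulInvariantMeasure G1 X μ] [IsProbabilityMeasure μ]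
  {a : Cocy G1 X Λ} {E : Emb Λ G}

/-- Conjugation by the inversion, on `XL`. -/
private noncomputable def ciW2 (μ : Measure X) (G : Type) [Group G] : XL μ (L2 G) →L[ℂ] XL μ (L2 G) :=
  cl μ ((ivU G).toContinuousLinearEquiv : L2 G →L[ℂ] L2 G)

private theorem ciW2_ciW2 (φ : XL μ (L2 G)) : ciW2 μ G (ciW2 μ G φ) = φ := by
  unfold ciW2
  rw [← cl_comp]
  have h1 : ((ivU G).toContinuousLinearEquiv : L2 G →L[ℂ] L2 G).comp
      ((ivU G).toContinuousLinearEquiv : L2 G →L[ℂ] L2 G) = ContinuousLinearMap.id ℂ (L2 G) := by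
    ext1 f
    exact ivU_ivU f
  rw [h1, cl_id]

theorem WW_adj (g h : G1) (φ : XL μ (L2 G)) :
    WW μ a E g (ContinuousLinearMap.adjoint (WW μ a E h) φ) = ZZ μ a E (g * h⁻¹) φ := by
  obtain ⟨ψ, hψ⟩ : ∃ ψ : XL μ (L2 G), ψ = ciW2 μ G (vg μ a E.U h⁻¹ φ) := ⟨_, rfl⟩
  have hW : ∀ (k : G1) (η : XL μ (L2 G)), WW μ a E k η = vg μ a E.U k (ciW2 μ G η) := fun k η => rfl
  have h1 : WW μ a E h ψ = φ := by
    rw [hW, hψ, ciW2_ciW2, ← vg_mul, mul_inv_cancel, vg_one]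
  obtain ⟨W, hWi⟩ : ∃ W : XL μ (L2 G) →ₗᵢ[ℂ] XL μ (L2 G), W.toContinuousLinearMap = WW μ a E h :=
    ⟨⟨(WW μ a E h : XL μ (L2 G) →ₗ[ℂ] XL μ (L2 G)), fun η => norm_WW a E h η⟩, by
      ext1 η
      rfl⟩
  have h2 : ContinuousLinearMap.adjoint (WW μ a E h) φ = ψ := by
    refine ext_inner_left ℂ fun η => ?_
    rw [ContinuousLinearMap.adjoint_inner_right]
    have h3 : inner ℂ (W η) (W ψ) = inner ℂ η ψ := W.inner_map_map η ψ
    have h4 : ∀ ζ, W ζ = WW μ a E h ζ := fun ζ => by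
      rw [← hWi]
      rfl
    rw [h4, h4, h1] at h3
    exact h3
  rw [h2, hW, hψ, ciW2_ciW2, ← vg_mul]

end Pool.Agent.Helper84.GN.S3.X
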